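import Pool.Agent.CMX.St

/-!
# CMX: module ALA, pure algebra
-/

set_option autoImplicit false

open scoped Manifold ContDiff Topology
open Module

namespace Pool.Agent.CMX

theorem t_ALA : S_ALA := by
  intro l1 l2 a c1 ρ t φ ψ φ1 ψ1 φ2 ψ2 G Q h1 h2 hQ0 hb hp hs hQ hd hl
  have d' : l2 * t * φ1 * (Q + (φ + ρ * ψ) ^ 2) = ρ * l1 * Q * (c1 - t) * ψ1 :=
    mul_left_cancel₀ h1 (by
      linear_combination ρ * ψ1 * hd - (Q + (φ + ρ * ψ) ^ 2) * φ1 * hb)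
  have S : l2 * t * φ1 * (φ + ρ * ψ) * (l1 * (a + c1) - (l1 - l2) * t) =
      Q * (l2 * t * (ρ * (ψ * φ1)) + l1 * (c1 - t) * (ρ * (φ * ψ1))) := by
    linear_combination φ * d' - l2 * t * φ1 * (φ + ρ * ψ) * hQ
  have R : l1 * Q * c1 - t * φ * φ1 * (Q + (φ + ρ * ψ) ^ 2) + Q * (c1 - t) * ρ * ψ * φ1 +
      2 * t * (φ + ρ * ψ) * φ1 * (l2 * t + l1 * (c1 - t)) = 0 := by
    refine mul_left_cancel₀ (mul_ne_zero h1 h2) ?_
    linear_combination G * φ1 * hl - l2 * hd - l2 * t * φ1 * (Q + (φ + ρ * ψ) ^ 2) * hp -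
      (2 * l2 * t * φ1 * (φ + ρ * ψ) + 2 * l1 * (φ + ρ * ψ) * φ1 * (c1 - t) + l1 * Q) * hb +
      l1 * ρ * Q * (c1 - t) * φ1 * hs - ρ * φ * ψ * φ1 * d'
  have hE : Q * (2 * l2 * t * (ρ * (ψ * φ1))
      + (c1 - t) * (l1 * l2 + l1 * (ρ * (φ * ψ1)) + l2 * (ρ * (ψ * φ1))) + l1 * l2 * t) =
      2 * l1 * l2 * a * t * (φ + ρ * ψ) * φ1 := by
    linear_combination l2 * R + φ * d' - 2 * S
  refine mul_left_cancel₀ hQ0 ?_
  linear_combination (l1 * (a + c1) - (l1 - l2) * t) * hE + 2 * l1 * a * S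

end Pool.Agent.CMX
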