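import Pool.Agent.CMX.St

/-!
# Elimination: a cubic equation for t
-/

set_option autoImplicit false
set_option maxHeartbeats 4000000

open scoped Manifold ContDiff Topology
open Module

namespace Pool.Agent.CMX

open Pool.Agent.Lib_helper91.CMC2 Pool.Agent.Lib_helper25.DA Pool.Agent.PLC
open Pool.Agent.Lib_helper91.CMC2.LD (yv)

theorem t_ALB : S_ALB := by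
  intro l1 l2 a b c1 c2 hc
  have hc2 : c2 = 1 - c1 := by linarith
  subst hc2
  refine ⟨2 * a * b * c1 * l1 ^ 2 * l2 ^ 3 + (-2) * a * b * c1 ^ 2 * l1 ^ 2 * l2 ^ 3 + (-4) * a * c1 * l1 ^ 3 * l2 ^ 2 + 2 * a * c1 * l1 ^ 2 * l2 ^ 3 + 8 * a * c1 ^ 2 * l1 ^ 3 * l2 ^ 2 + (-4) * a * c1 ^ 2 * l1 ^ 2 * l2 ^ 3 + (-4) * a * c1 ^ 3 * l1 ^ 3 * l2 ^ 2 + 2 * a * c1 ^ 3 * l1 ^ 2 * l2 ^ 3 + 4 * b * c1 ^ 2 * l1 ^ 2 * l2 ^ 3 + (-4) * b * c1 ^ 3 * l1 ^ 2 * l2 ^ 3 + (-2) * a * b * c1 * l1 ^ 3 * l2 ^ 2 + (-2) * b * c1 ^ 2 * l1 ^ 3 * l2 ^ 2 + 2 * a * b * c1 ^ 2 * l1 ^ 3 * l2 ^ 2 + 2 * b * c1 ^ 3 * l1 ^ 3 * l2 ^ 2, (-3) * a * l1 ^ 2 * l2 ^ 3 + (-2) * a * c1 ^ 2 * l1 ^ 2 * l2 ^ 3 + (-1) * a * c1 * l1 ^ 3 * l2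 ^ 2 + (-2) * a * c1 ^ 2 * l1 ^ 3 * l2 ^ 2 + (-4) * a * c1 * l1 ^ 4 * l2 + 4 * a * c1 ^ 2 * l1 ^ 4 * l2 + (-1) * a * b * l1 ^ 2 * l2 ^ 3 + 3 * a * l1 ^ 3 * l2 ^ 2 + 4 * b * c1 * l1 * l2 ^ 4 + (-4) * b * c1 ^ 2 * l1 * l2 ^ 4 + 3 * c1 * l1 ^ 2 * l2 ^ 3 + (-3) * c1 ^ 2 * l1 ^ 2 * l2 ^ 3 + 2 * b * c1 ^ 2 * l1 ^ 3 * l2 ^ 2 + 2 * b * c1 ^ 2 * l1 ^ 2 * l2 ^ 3 + 3 * c1 ^ 2 * l1 ^ 3 * l2 ^ 2 + (-5) * b * c1 * l1 ^ 2 * l2 ^ 3 + (-3) * c1 * l1 ^ 3 * l2 ^ 2 + 1 * a * b * l1 ^ 3 * l2 ^ 2 + 1 * b * c1 * l1 ^ 3 * l2 ^ 2 + 5 * a * c1 * l1 ^ 2 * l2 ^ 3, 3 * a * l1 ^ 2 * l2 ^ 3 + (-4) * a * c1 * l1 ^ 2 * l2 ^ 3 + (-6) * a * l1 ^ 3 * l2 ^ 2 + 8 * a * c1 * l1 ^ 3 * l2 ^ 2 + (-4) * a * c1 * l1 ^ 4 * l2 +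 3 * a * l1 ^ 4 * l2 + 8 * b * c1 * l1 ^ 2 * l2 ^ 3 + (-4) * b * c1 * l1 * l2 ^ 4 + 3 * c1 * l1 ^ 2 * l2 ^ 3 + (-3) * c1 * l1 * l2 ^ 4 + 3 * c1 * l1 ^ 3 * l2 ^ 2 + (-4) * b * c1 * l1 ^ 3 * l2 ^ 2 + (-3) * c1 * l1 ^ 4 * l2 + 1 * b * l1 * l2 ^ 4 + (-6) * l1 ^ 2 * l2 ^ 3 + 3 * l1 * l2 ^ 4 + (-2) * b * l1 ^ 2 * l2 ^ 3 + 3 * l1 ^ 3 * l2 ^ 2 + 1 * b * l1 ^ 3 * l2 ^ 2, ?_⟩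
  intro t p q hp e1 e2
  subst hp
  linear_combination ((-1) * a * l1 * l2 * t + (-1) * a * c1 * l1 ^ 2 + 1 * a * c1 * l1 * l2 + 1 * a * l1 ^ 2 * t + 1 * c1 * l1 * l2 * t + 1 * c1 ^ 2 * l1 ^ 2 + 1 * c1 ^ 2 * l1 * l2 + (-2) * c1 * l1 ^ 2 * t + (-2) * l1 * l2 * t ^ 2 + 1 * l1 ^ 2 * t ^ 2 + 1 * l2 ^ 2 * t ^ 2 + 1 * c1 * l2 ^ 2 * t) * e2 - ((-1) * b * l1 * l2 * t + (-1) * b * l2 ^ 2 + 1 * b * l1 * l2 + 1 * b * c1 * l2 ^ 2 + (-1) * b * c1 * l1 * l2 + 1 * b * l2 ^ 2 * t + 1 * l1 * l2 * t + 1 * l2 ^ 2 + 1 * l1 * l2 + (-2) * c1 * l2 ^ 2 + (-2) * c1 * l1 * l2 + (-2) * l2 ^ 2 * t + (-1) * c1 * l1 * l2 * t + 1 * c1 ^ 2 * l2 ^ 2 + 1 * c1 ^ 2 * l1 * l2 + 2 * c1 * l2 ^ 2 * t + (-2) * l1 * l2 * t ^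 2 + 1 * l2 ^ 2 * t ^ 2 + 1 * l1 ^ 2 * t ^ 2 + 1 * l1 ^ 2 * t + (-1) * c1 * l1 ^ 2 * t) * e1

end Pool.Agent.CMX
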