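import Pool.Agent.CMX.St

/-!
# CMX, module CAS: dimension counts
-/

set_option autoImplicit false

open scoped Manifold ContDiff Topology
open Module

namespace Pool.Agent.CMX

open Pool.Agent.Lib_helper91.CMC2 Pool.Agent.Lib_helper25.DA Pool.Agent.PLC
open Pool.Agent.Lib_helper91.CMC2.LD (yv)

namespace CASaux

/-- on an open subset a function does not vanish near a point where it does not vanish -/
lemma open_inner {n m : ℕ} {V : Set (E n)} {F : E n → E m} (hV : IsOpen V)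
    (hs : ∀ z ∈ V, ContDiffAt ℝ ∞ F z) (a : E m) :
    IsOpen (V ∩ (fun w => (inner ℝ a (F w) : ℝ)) ⁻¹' {0}ᶜ) := by
  refine ContinuousOn.isOpen_inter_preimage ?_ hV isClosed_singleton.isOpen_compl
  intro w hw
  exact (continuousAt_const.inner (diff_of (hs w hw)).continuousAt).continuousWithinAt

/-- a good point -/
lemma good_point {n m : ℕ} {V : Set (E n)} {X1 X2 : E n → E m} {K1 K2 : Submodule ℝ (E m)}
    (hV : IsOpen V) (hne : V.Nonempty) (s1 : ∀ z ∈ V, ContDiffAt ℝ ∞ X1 z)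
    (hT1 : Tight V X1 K1) (hT2 : Tight V X2 K2) :
    ∃ z ∈ V, ((K1 ⊓ K2ᗮ : Submodule ℝ (E m)) ≠ ⊥ →
        ∃ a ∈ (K1 ⊓ K2ᗮ : Submodule ℝ (E m)), inner ℝ a (X1 z) ≠ (0 : ℝ)) ∧
      ((K2 ⊓ K1ᗮ : Submodule ℝ (E m)) ≠ ⊥ →
        ∃ b ∈ (K2 ⊓ K1ᗮ : Submodule ℝ (E m)), inner ℝ b (X2 z) ≠ (0 : ℝ)) := by
  obtain ⟨V', hV'V, hV'o, hV'n, h1⟩ : ∃ V' ⊆ V, IsOpen V' ∧ V'.Nonempty ∧
      ∀ z ∈ V', ((K1 ⊓ K2ᗮ : Submodule ℝ (E m)) ≠ ⊥ →
        ∃ a ∈ (K1 ⊓ K2ᗮ : Submodule ℝ (E m)), inner ℝ a (X1 z) ≠ (0 : ℝ)) := by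
    by_cases hN : (K1 ⊓ K2ᗮ : Submodule ℝ (E m)) = ⊥
    · exact ⟨V, subset_rfl, hV, hne, fun z _ h => absurd hN h⟩
    · obtain ⟨a, ha, ha0⟩ := (Submodule.ne_bot_iff _).1 hN
      have h2 : ∃ w ∈ V, inner ℝ a (X1 w) ≠ (0 : ℝ) := by
        by_contra hc
        push Not at hc
        exact ha0 (hT1.dense V subset_rfl hV hne a ha.1 hc)
      obtain ⟨w, hw, hw0⟩ := h2
      refine ⟨V ∩ (fun w => (inner ℝ a (X1 w) : ℝ)) ⁻¹' {0}ᶜ, Set.inter_subset_left,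
        open_inner hV s1 a, ⟨w, hw, hw0⟩, fun z hz _ => ⟨a, ha, hz.2⟩⟩
  by_cases hN : (K2 ⊓ K1ᗮ : Submodule ℝ (E m)) = ⊥
  · obtain ⟨z, hz⟩ := hV'n
    exact ⟨z, hV'V hz, h1 z hz, fun h => absurd hN h⟩
  · obtain ⟨b, hb, hb0⟩ := (Submodule.ne_bot_iff _).1 hN
    have h2 : ∃ w ∈ V', inner ℝ b (X2 w) ≠ (0 : ℝ) := by
      by_contra hc
      push Not at hc
      exact hb0 (hT2.dense V' hV'V hV'o hV'n b hb.1 hc)
    obtain ⟨w, hw, hw0⟩ := h2
    exact ⟨w, hV'V hw, h1 w hw, fun _ => ⟨b, hb, hw0⟩⟩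

lemma fin_le {m : ℕ} (N : Submodule ℝ (E m)) (x : E m) :
    finrank ℝ (N ⊓ (Submodule.span ℝ {x})ᗮ : Submodule ℝ (E m)) ≤ finrank ℝ N :=
  Submodule.finrank_mono inf_le_left

lemma fin_lt {m : ℕ} (N : Submodule ℝ (E m)) (x : E m)
    (h : ∃ a ∈ N, inner ℝ a x ≠ (0 : ℝ)) :
    finrank ℝ (N ⊓ (Submodule.span ℝ {x})ᗮ : Submodule ℝ (E m)) + 1 ≤ finrank ℝ N := by
  obtain ⟨a, ha, hax⟩ := h
  apply Submodule.finrank_lt_finrank_of_lt
  refine lt_of_le_of_ne inf_le_left fun heq => hax ?_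
  have h1 : a ∈ (N ⊓ (Submodule.span ℝ {x})ᗮ : Submodule ℝ (E m)) := by
    rw [heq]
    exact ha
  have h2 := h1.2
  rw [SetLike.mem_coe, Submodule.mem_orthogonal_singleton_iff_inner_right] at h2
  rw [real_inner_comm]
  exact h2

/-- the complement of `N` in `K`, if it has dimension one -/
lemma unit_compl {m : ℕ} {N K : Submodule ℝ (E m)} (h : N ≤ K)
    (hd : finrank ℝ N + 1 = finrank ℝ K) :
    ∃ ξ : E m, inner ℝ ξ ξ = (1 : ℝ) ∧ ξ ∈ K ∧ (∀ a ∈ N, inner ℝ ξ a = (0 : ℝ)) ∧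
      K = N ⊔ Submodule.span ℝ {ξ} := by
  have h1 : finrank ℝ (Nᗮ ⊓ K : Submodule ℝ (E m)) = 1 :=
    Submodule.finrank_add_inf_finrank_orthogonal' h hd
  have h2 : (Nᗮ ⊓ K : Submodule ℝ (E m)) ≠ ⊥ := by
    intro h3
    rw [h3, finrank_bot] at h1
    exact absurd h1 (by norm_num)
  obtain ⟨v, hv, hv0⟩ := (Submodule.ne_bot_iff _).1 h2
  have hn : ‖v‖ ≠ 0 := norm_ne_zero_iff.2 hv0
  refine ⟨(‖v‖)⁻¹ • v, ?_, K.smul_mem _ hv.2, ?_, ?_⟩
  · rw [real_inner_smul_left, real_inner_smul_right, real_inner_self_eq_norm_sq]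
    field_simp
  · intro a ha
    rw [real_inner_smul_left, (Submodule.mem_orthogonal' N v).1 hv.1 a ha, mul_zero]
  · have h3 : Submodule.span ℝ {(‖v‖)⁻¹ • v} = (Nᗮ ⊓ K : Submodule ℝ (E m)) := by
      apply Submodule.eq_of_le_of_finrank_eq
      · rw [Submodule.span_singleton_le_iff_mem]
        exact Submodule.smul_mem _ _ hv
      · rw [h1, finrank_span_singleton]
        exact smul_ne_zero (inv_ne_zero hn) hv0
    rw [h3, Submodule.sup_orthogonal_inf_of_hasOrthogonalProjection h]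

end CASaux

open CASaux

theorem t_CAS : S_CAS := by
  intro n m V X X1 X2 c l1 l2 N0 K1 K2 hL hne hT1 hT2 hsum
  obtain ⟨z, hz, g1, g2⟩ := good_point hL.op hne hL.s1 hT1 hT2
  have d1 := hL.dims1 hz hT1.mem hT2.mem
  have d2 := hL.dims2 hz hT1.mem hT2.mem
  have rs := rank_symm' K1 K2
  have e1 := fin_le (K1 ⊓ K2ᗮ : Submodule ℝ (E m)) (X1 z)
  have e2 := fin_le (K2 ⊓ K1ᗮ : Submodule ℝ (E m)) (X2 z)
  have v1 : finrank ℝ (K1 ⊓ K2ᗮ : Submodule ℝ (E m)) ≤ finrank ℝ K1 :=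
    Submodule.finrank_mono inf_le_left
  have v2 : finrank ℝ (K2 ⊓ K1ᗮ : Submodule ℝ (E m)) ≤ finrank ℝ K2 :=
    Submodule.finrank_mono inf_le_left
  by_cases b1 : (K1 ⊓ K2ᗮ : Submodule ℝ (E m)) = ⊥
  · have c1 : finrank ℝ (K1 ⊓ K2ᗮ : Submodule ℝ (E m)) = 0 := by rw [b1, finrank_bot]
    by_cases b2 : (K2 ⊓ K1ᗮ : Submodule ℝ (E m)) = ⊥
    · have c2 : finrank ℝ (K2 ⊓ K1ᗮ : Submodule ℝ (E m)) = 0 := by rw [b2, finrank_bot]
      by_cases h3 : finrank ℝ K1 ≤ 2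
      · exact Or.inl h3
      · refine Or.inr (Or.inr (Or.inr (Or.inl ⟨?_, ?_, ?_, b1, b2⟩))) <;> omega
    · have f2 := fin_lt _ _ (g2 b2)
      left
      omega
  · have f1 := fin_lt _ _ (g1 b1)
    by_cases b2 : (K2 ⊓ K1ᗮ : Submodule ℝ (E m)) = ⊥
    · have c2 : finrank ℝ (K2 ⊓ K1ᗮ : Submodule ℝ (E m)) = 0 := by rw [b2, finrank_bot]
      right
      left
      omega
    · have f2 := fin_lt _ _ (g2 b2)
      by_cases hr : finrank ℝ (K1 ⊓ K2ᗮ : Submodule ℝ (E m)) = finrank ℝ K1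
      · right
        right
        left
        have h4 : (K1 ⊓ K2ᗮ : Submodule ℝ (E m)) = K1 :=
          Submodule.eq_of_le_of_finrank_eq inf_le_left hr
        intro a ha b hb
        have h5 : a ∈ (K1 ⊓ K2ᗮ : Submodule ℝ (E m)) := by
          rw [h4]
          exact ha
        exact (Submodule.mem_orthogonal' K2 a).1 h5.2 b hb
      · obtain ⟨ξ1, u1, m1, o11, k1⟩ := unit_compl (N := (K1 ⊓ K2ᗮ : Submodule ℝ (E m)))
          (K := K1) inf_le_left (by omega)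
        obtain ⟨ξ2, u2, m2, o22, k2⟩ := unit_compl (N := (K2 ⊓ K1ᗮ : Submodule ℝ (E m)))
          (K := K2) inf_le_left (by omega)
        refine Or.inr (Or.inr (Or.inr (Or.inr ⟨(K1 ⊓ K2ᗮ : Submodule ℝ (E m)),
          (K2 ⊓ K1ᗮ : Submodule ℝ (E m)), ξ1, ξ2, inner ℝ ξ1 ξ2, ?_, ?_⟩)))
        · have o12 : ∀ b ∈ (K2 ⊓ K1ᗮ : Submodule ℝ (E m)), inner ℝ ξ1 b = (0 : ℝ) :=
            fun b hb => (Submodule.mem_orthogonal K1 b).1 hb.2 ξ1 m1
          refine ⟨u1, u2, rfl, ?_, ?_, o11, ?_, o12, o22, k1, k2, b1, b2⟩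
          · intro h0
            have h6 : ξ1 ∈ K2ᗮ := by
              rw [Submodule.mem_orthogonal']
              intro w hw
              rw [k2] at hw
              obtain ⟨b, hb, s, hs, rfl⟩ := Submodule.mem_sup.1 hw
              obtain ⟨r, rfl⟩ := Submodule.mem_span_singleton.1 hs
              rw [inner_add_right, real_inner_smul_right, h0, o12 b hb, mul_zero, add_zero]
            have h7 := o11 ξ1 ⟨m1, h6⟩
            rw [u1] at h7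
            exact one_ne_zero h7
          · intro a ha b hb
            exact (Submodule.mem_orthogonal' K2 a).1 ha.2 b hb.1
          · intro a ha
            exact (Submodule.mem_orthogonal K2 a).1 ha.2 ξ2 m2
        · omega

end Pool.Agent.CMX
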