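import Pool.Agent.CMX.St

/-!
# CCC: the case `n = 3`, both spans of dimension three
-/

set_option autoImplicit false

open scoped Manifold ContDiff Topology
open Module

namespace Pool.Agent.CMX

open Pool.Agent.Lib_helper91.CMC2 Pool.Agent.Lib_helper25.DA Pool.Agent.PLC
open Pool.Agent.Lib_helper91.CMC2.LD (yv)

/-- CCC -/
theorem t_CCC : M_CCC := by
  intro hGIB hCRK hCFR hCFO hCFI m V X X1 X2 c l1 l2 N0 K1 K2 κ h ne hm1 hm2 f1 f2 n1 n2 hκ
  obtain ⟨V', hV', o', ne', hr⟩ := hCRK m V X X1 X2 c l1 l2 N0 K1 K2 κ h ne hm1 hm2 f1 f2 hκ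
  have h' : LD V' X X1 X2 c l1 l2 N0 := h.mono o' hV'
  obtain ⟨W, hW, oW, neW, u, v, e, fr⟩ := hCFR m V' X X1 X2 c l1 l2 N0 h' ne'
    (fun w hw => (hr w hw).2)
  have hWV : W ⊆ V := hW.trans hV'
  have h2 : LD W X X1 X2 c l1 l2 N0 := h'.mono oW hW
  obtain ⟨st, g⟩ := hGIB 3 m W X X1 X2 c l1 l2 N0 h2
  have hD : l1 - l2 ≠ 0 := sub_ne_zero.2 h.ne
  have hl : l1 * l2 ≠ 0 := mul_ne_zero h.ne1 h.ne2
  -- derivative of `t` in the direction `u`
  have du : ∀ w ∈ W, (l1 - l2) * fderiv ℝ (tt X X1 X2) w (u w)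
      = l1 * l2 * inner ℝ (X2 w) (fderiv ℝ X1 w (u w)) := by
    intro w hw
    have e2 : (inner ℝ (X1 w) (fderiv ℝ X2 w (u w)) : ℝ) = 0 := by
      rw [fr.ku w hw, inner_zero_right]
    have e3 : (l1 - l2) * fderiv ℝ (tt X X1 X2) w (u w)
        = l1 * l2 * (inner ℝ (X2 w) (fderiv ℝ X1 w (u w))
          - inner ℝ (X1 w) (fderiv ℝ X2 w (u w))) := by
      rw [fderiv_eq_sum (tt X X1 X2), fderiv_eq_sum X1, fderiv_eq_sum X2, inner_sum, inner_sum,
        ← Finset.sum_sub_distrib, Finset.mul_sum, Finset.mul_sum]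
      refine Finset.sum_congr rfl fun j _ => ?_
      rw [real_inner_smul_right, real_inner_smul_right, smul_eq_mul]
      linear_combination (u w j) * (g w hw).2.2 j
    rw [e3, e2, sub_zero]
  have s0 : ∀ z ∈ W, (inner ℝ (X2 z) (fderiv ℝ X1 z (u z)) : ℝ) = 0 := by
    intro z hz
    by_contra hs
    have hu : fderiv ℝ (tt X X1 X2) z (u z) ≠ 0 := by
      intro h0
      have := du z hz
      rw [h0, mul_zero] at this
      exact (mul_ne_zero hl hs) this.symm
    have hc : ContinuousAt (fun w => fderiv ℝ (tt X X1 X2) w (u w)) z :=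
      (((st z hz).fderiv_right (m := ∞) (by simp)).continuousAt).clm_apply
        (fr.su z hz).continuousAt
    have ev : tt X X1 X2 =ᶠ[𝓝 z] fun _ => (CC 3 l2 l1 N0 - 1)
        - l1 * (CC 3 l2 l1 N0 - 1) / (l1 - l2) := by
      filter_upwards [hc.eventually_ne hu, oW.mem_nhds hz] with w hw hwW
      have a1 := du w hwW
      have a2 := hCFO m W X X1 X2 c l1 l2 N0 u v e h2 fr w hwW
      have a3 : fderiv ℝ (tt X X1 X2) w (u w) * ((l1 - l2) * (CC 3 l2 l1 N0 - 1 - tt X X1 X2 w)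
          - l1 * (CC 3 l2 l1 N0 - 1)) = 0 := by
        linear_combination (CC 3 l2 l1 N0 - 1 - tt X X1 X2 w) * a1 + l1 * a2
      have a4 := (mul_eq_zero.1 a3).resolve_left hw
      field_simp
      linear_combination -a4
    refine hκ z (hWV hz) ?_
    rw [pd_congr ev κ, pd_const]
  refine hCFI m W X X1 X2 c l1 l2 N0 K1 K2 u h2 neW (fun w hw => hm1 w (hWV hw))
    (fun w hw => hm2 w (hWV hw)) f1 n2 (fun w hw => (hr w (hW hw)).2.2)
    (fun w hw => ⟨fr.su w hw, fr.nu w hw, fr.ku w hw⟩) ?_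
  intro w hw
  have e1 := h2.inner_y_D1 hw (u w)
  unfold yv at e1
  rw [inner_add_left, real_inner_smul_left, real_inner_smul_left, s0 w hw, mul_zero,
    add_zero] at e1
  exact (mul_eq_zero.1 e1).resolve_left h.ne1

end Pool.Agent.CMX
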