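import Pool.Agent.CMX.St

/-!
# CFI: the case `n = 3`, contradiction

If `⟨x1, u(x1)⟩ = 0` for a vector field `u` in the kernel of `dx2`, then `u(u(x1))` is a multiple of
`u(x1)` and `u(x1) = 0`.
-/

set_option autoImplicit false

open scoped Manifold ContDiff Topology
open Module

namespace Pool.Agent.CMX

open Pool.Agent.Lib_helper91.CMC2 Pool.Agent.Lib_helper25.DA Pool.Agent.PLC
open Pool.Agent.Lib_helper91.CMC2.LD (yv)

namespace CFIaux

variable {n m : ℕ}

/-- derivative of `w ↦ fderiv F w (p w)` -/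
lemma fderiv_apply {F : E n → E m} {p : E n → E n} {z : E n} (hF : ContDiffAt ℝ ∞ F z)
    (hp : DifferentiableAt ℝ p z) (v : E n) :
    fderiv ℝ (fun w => fderiv ℝ F w (p w)) z v
      = fderiv ℝ (fderiv ℝ F) z v (p z) + fderiv ℝ F z (fderiv ℝ p z v) := by
  rw [fderiv_clm_apply (diff_of (fderiv_smooth hF)) hp]
  simp only [add_apply, ContinuousLinearMap.comp_apply,
    ContinuousLinearMap.flip_apply]
  rw [add_comm]

lemma sec_symm {F : E n → E m} {z : E n} (hF : ContDiffAt ℝ ∞ F z) (u v : E n) :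
    fderiv ℝ (fderiv ℝ F) z u v = fderiv ℝ (fderiv ℝ F) z v u := by
  have hs : IsSymmSndFDerivAt ℝ F z :=
    hF.isSymmSndFDerivAt (by rw [minSmoothness_of_isRCLikeNormedField]; exact two_le_infty)
  exact hs u v

/-- derivative of an inner product which vanishes near the point -/
lemma inner_zero_der {F G : E n → E m} {z : E n} (hF : DifferentiableAt ℝ F z)
    (hG : DifferentiableAt ℝ G z) (h : ∀ᶠ w in 𝓝 z, inner ℝ (F w) (G w) = (0 : ℝ)) (v : E n) :
    inner ℝ (F z) (fderiv ℝ G z v) + inner ℝ (fderiv ℝ F z v) (G z) = (0 : ℝ) := by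
  have e0 : (fun w => (inner ℝ (F w) (G w) : ℝ)) =ᶠ[𝓝 z] fun _ => (0 : ℝ) := h
  have e1 := congrArg (fun L : E n →L[ℝ] ℝ => L v) (e0.fderiv_eq (𝕜 := ℝ))
  simp only [fderiv_fun_const, Pi.zero_apply, zero_apply] at e1
  rw [← e1, fderiv_inner_apply ℝ hF hG]

end CFIaux

open CFIaux in
theorem t_CFI : S_CFI := by
  intro m V X X1 X2 c l1 l2 N0 K1 K2 u h hV h1 h2 hK1 hK rk hu h0
  obtain ⟨z, hz⟩ := hV
  have hVn : V ∈ 𝓝 z := h.op.mem_nhds hz
  -- the vector field `α = u(X1)`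
  have sα : ContDiffAt ℝ ∞ (fun w => fderiv ℝ X1 w (u w)) z :=
    (fderiv_smooth (h.s1 z hz)).clm_apply (hu z hz).1
  have dα := diff_of sα
  -- orthogonal to the range of `dX2`
  have ort : ∀ w ∈ V, ∀ a : E 3, inner ℝ (fderiv ℝ X1 w (u w)) (fderiv ℝ X2 w a) = (0 : ℝ) := by
    intro w hw a
    rw [h.iso_vec hw, (hu w hw).2.2, inner_zero_right]
  have nz : fderiv ℝ X1 z (u z) ≠ 0 := by
    intro ha
    have : fderiv ℝ X z (u z) = 0 := by
      rw [h.fderivX hz, ha, (hu z hz).2.2, add_zero]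
    exact (hu z hz).2.1 (h.imm z hz (by rw [this, map_zero]))
  -- `u(α)` is orthogonal to the range of `dX2`
  have ort2 : ∀ a : E 3, inner ℝ (fderiv ℝ (fun w => fderiv ℝ X1 w (u w)) z (u z))
      (fderiv ℝ X2 z a) = (0 : ℝ) := by
    intro a
    have dG : DifferentiableAt ℝ (fun w => fderiv ℝ X2 w a) z :=
      diff_of ((fderiv_smooth (h.s2 z hz)).clm_apply contDiffAt_const)
    have e1 := inner_zero_der dα dG
      (by filter_upwards [hVn] with w hw using ort w hw a) (u z)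
    have e2 : fderiv ℝ (fun w => fderiv ℝ X2 w a) z (u z)
        = fderiv ℝ (fderiv ℝ X2) z (u z) a := by
      have := fderiv_apply (p := fun _ => a) (h.s2 z hz) (differentiableAt_const a) (u z)
      rw [this]; simp
    have e3 : fderiv ℝ (fderiv ℝ X2) z a (u z) + fderiv ℝ X2 z (fderiv ℝ u z a) = 0 := by
      rw [← fderiv_apply (h.s2 z hz) (diff_of (hu z hz).1)]
      have e4 : (fun w => fderiv ℝ X2 w (u w)) =ᶠ[𝓝 z] fun _ => (0 : E m) := by
        filter_upwards [hVn] with w hw using (hu w hw).2.2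
      rw [e4.fderiv_eq]; simp
    have e5 : fderiv ℝ (fderiv ℝ X2) z (u z) a = - fderiv ℝ X2 z (fderiv ℝ u z a) := by
      rw [sec_symm (h.s2 z hz)]
      exact eq_neg_of_add_eq_zero_left e3
    rw [e2, e5, inner_neg_right, ort z hz, neg_zero, zero_add] at e1
    exact e1
  -- membership in `K1`
  have memα : ∀ w ∈ V, fderiv ℝ X1 w (u w) ∈ K1 := by
    intro w hw
    exact fderiv_mem (by filter_upwards [h.op.mem_nhds hw] with w' hw' using h1 w' hw')
      (diff_of (h.s1 w hw)) _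
  have memuα : fderiv ℝ (fun w => fderiv ℝ X1 w (u w)) z (u z) ∈ K1 :=
    fderiv_mem (by filter_upwards [hVn] with w hw using memα w hw) dα _
  -- the one-dimensional space
  set R : Submodule ℝ (E m) := LinearMap.range (fderiv ℝ X2 z : E 3 →ₗ[ℝ] E m) with hR
  have hRK : R ⊓ K1ᗮ = ⊥ := by
    rw [eq_bot_iff, ← hK]
    refine inf_le_inf_right _ ?_
    rintro v ⟨a, rfl⟩
    exact fderiv_mem (by filter_upwards [hVn] with w hw using h2 w hw) (diff_of (h.s2 z hz)) _
  have hdim : finrank ℝ (K1 ⊓ Rᗮ : Submodule ℝ (E m)) = 1 := by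
    have := rank_symm' K1 R
    rw [hRK, finrank_bot, hK1, rk z hz] at this
    omega
  have m1 : fderiv ℝ X1 z (u z) ∈ (K1 ⊓ Rᗮ : Submodule ℝ (E m)) := by
    refine ⟨memα z hz, ?_⟩
    rw [SetLike.mem_coe, Submodule.mem_orthogonal']
    rintro v ⟨a, rfl⟩
    exact ort z hz a
  have m2 : fderiv ℝ (fun w => fderiv ℝ X1 w (u w)) z (u z) ∈ (K1 ⊓ Rᗮ : Submodule ℝ (E m)) := by
    refine ⟨memuα, ?_⟩
    rw [SetLike.mem_coe, Submodule.mem_orthogonal']
    rintro v ⟨a, rfl⟩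
    exact ort2 a
  obtain ⟨s, hs⟩ := (finrank_eq_one_iff_of_nonzero'
    (⟨_, m1⟩ : (K1 ⊓ Rᗮ : Submodule ℝ (E m))) (by
      intro h3
      exact nz (congrArg Subtype.val h3))).1 hdim ⟨_, m2⟩
  have hs' : s • fderiv ℝ X1 z (u z) = fderiv ℝ (fun w => fderiv ℝ X1 w (u w)) z (u z) :=
    congrArg Subtype.val hs
  have e1 := inner_zero_der (diff_of (h.s1 z hz)) dα
    (by filter_upwards [hVn] with w hw using h0 w hw) (u z)
  rw [← hs', real_inner_smul_right, h0 z hz, mul_zero, zero_add] at e1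
  exact nz (inner_self_eq_zero.1 e1)

end Pool.Agent.CMX
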