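import Pool.Agent.CMX.St

/-!
# The main formula in the case `n = 3`
-/

set_option autoImplicit false

open scoped Manifold ContDiff Topology
open Module

namespace Pool.Agent.CMX

open Pool.Agent.Lib_helper91.CMC2 Pool.Agent.Lib_helper25.DA Pool.Agent.PLC
open Pool.Agent.Lib_helper91.CMC2.LD (yv)

namespace CFOaux

/-- the derivative along a vector field -/
noncomputable def D {n : ℕ} {W : Type*} [NormedAddCommGroup W] [NormedSpace ℝ W]
    (p : E n → E n) (F : E n → W) : E n → W := fun w => fderiv ℝ F w (p w)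

section
variable {n : ℕ} {W : Type*} [NormedAddCommGroup W] [NormedSpace ℝ W]
  {p q : E n → E n} {F : E n → W} {z : E n}

lemma D_smooth (hp : ContDiffAt ℝ ∞ p z) (hF : ContDiffAt ℝ ∞ F z) :
    ContDiffAt ℝ ∞ (D p F) z := (fderiv_smooth hF).clm_apply hp

lemma fderiv_D (hq : ContDiffAt ℝ ∞ q z) (hF : ContDiffAt ℝ ∞ F z) (v : E n) :
    fderiv ℝ (D q F) z v = fderiv ℝ F z (fderiv ℝ q z v) + fderiv ℝ (fderiv ℝ F) z v (q z) := by
  unfold D
  rw [fderiv_clm_apply (diff_of (fderiv_smooth hF)) (diff_of hq)]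
  simp

/-- the commutator -/
noncomputable def com (p q : E n → E n) (z : E n) : E n := fderiv ℝ q z (p z) - fderiv ℝ p z (q z)

lemma com_swap (p q : E n → E n) (z : E n) : com q p z = - com p q z := by
  unfold com; abel

lemma D_comm (hp : ContDiffAt ℝ ∞ p z) (hq : ContDiffAt ℝ ∞ q z) (hF : ContDiffAt ℝ ∞ F z) :
    D p (D q F) z = D q (D p F) z + fderiv ℝ F z (com p q z) := by
  have hs : IsSymmSndFDerivAt ℝ F z := hF.isSymmSndFDerivAt (by
    rw [minSmoothness_of_isRCLikeNormedField]; exact two_le_infty)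
  have h1 : D p (D q F) z = fderiv ℝ F z (fderiv ℝ q z (p z))
      + fderiv ℝ (fderiv ℝ F) z (p z) (q z) := fderiv_D hq hF (p z)
  have h2 : D q (D p F) z = fderiv ℝ F z (fderiv ℝ p z (q z))
      + fderiv ℝ (fderiv ℝ F) z (q z) (p z) := fderiv_D hp hF (q z)
  have h3 : fderiv ℝ (fderiv ℝ F) z (p z) (q z) = fderiv ℝ (fderiv ℝ F) z (q z) (p z) := hs _ _
  rw [h1, h2, h3]
  unfold com
  rw [map_sub]
  abel

lemma D_congr {V : Set (E n)} (hV : IsOpen V) {G : E n → W} (h : ∀ w ∈ V, F w = G w)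
    (hz : z ∈ V) : D p F z = D p G z := by
  unfold D
  have h1 : F =ᶠ[𝓝 z] G := by filter_upwards [hV.mem_nhds hz] with w hw using h w hw
  rw [h1.fderiv_eq]

lemma D_zero {V : Set (E n)} (hV : IsOpen V) (h : ∀ w ∈ V, F w = 0) (hz : z ∈ V) :
    D p F z = 0 := by
  rw [D_congr hV (G := fun _ => (0 : W)) h hz]
  unfold D
  simp

end

lemma D_inner {n m : ℕ} {p : E n → E n} {F G : E n → E m} {z : E n} (hF : ContDiffAt ℝ ∞ F z)
    (hG : ContDiffAt ℝ ∞ G z) :
    D p (fun w => (inner ℝ (F w) (G w) : ℝ)) z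
      = inner ℝ (F z) (D p G z) + inner ℝ (D p F z) (G z) := by
  unfold D
  rw [fderiv_inner_apply ℝ (diff_of hF) (diff_of hG)]

lemma D_mul {n : ℕ} {p : E n → E n} {f g : E n → ℝ} {z : E n} (hf : ContDiffAt ℝ ∞ f z)
    (hg : ContDiffAt ℝ ∞ g z) :
    D p (fun w => f w * g w) z = f z * D p g z + g z * D p f z := by
  unfold D
  rw [fderiv_fun_mul (diff_of hf) (diff_of hg)]
  simp

lemma D_csub {n : ℕ} {p : E n → E n} {f : E n → ℝ} {z : E n} (a : ℝ) :
    D p (fun w => a - f w) z = - D p f z := by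
  unfold D
  rw [fderiv_const_sub]
  simp

/-- `∑ g^{ij} ⟨∂_i α, ∂_j G⟩ = ⟨α, Δ G⟩` if `⟨α, dG⟩ = 0` -/
lemma trace_G {n m : ℕ} {U : Set (E n)} {X : E n → E m} {z : E n} (hU : IsOpen U) (hz : z ∈ U)
    {α G : E n → E m} (sα : ContDiffAt ℝ ∞ α z) (sG : ContDiffAt ℝ ∞ G z)
    (hG : ∀ w ∈ U, ∀ j, inner ℝ (α w) (pd j G w) = (0 : ℝ)) :
    tr X α G z = (inner ℝ (α z) (lap X G z) : ℝ) := by
  have e1 : ∀ i j, inner ℝ (α z) (pd i (pd j G) z)
      + inner ℝ (pd i α z) (pd j G z) = (0 : ℝ) := by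
    intro i j
    have h1 : (fun w => inner ℝ (α w) (pd j G w)) =ᶠ[𝓝 z] fun _ => (0 : ℝ) := by
      filter_upwards [hU.mem_nhds hz] with w hw using hG w hw j
    have h2 := pd_congr h1 i
    rw [pd_const, pd_inner (diff_of sα) (diff_of (pd_smooth sG j))] at h2
    exact h2
  unfold tr lap
  rw [inner_neg_right, inner_sum, ← Finset.sum_neg_distrib]
  refine Finset.sum_congr rfl fun i _ => ?_
  rw [inner_sum, ← Finset.sum_neg_distrib]
  refine Finset.sum_congr rfl fun j _ => ?_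
  rw [real_inner_smul_right, inner_sub_right, inner_sum]
  have e4 : ∑ k, inner ℝ (α z) (christoffel X z i j k • pd k G z) = (0 : ℝ) :=
    Finset.sum_eq_zero fun k _ => by rw [real_inner_smul_right, hG z hz k, mul_zero]
  rw [e4]
  have := e1 i j
  linear_combination ((metric X z)⁻¹ i j) * this

/-- three orthogonal vectors are a basis -/
lemma decomp {m : ℕ} (L : E 3 →L[ℝ] E m) (hL : Function.Injective L) {u v e : E 3}
    (hu : u ≠ 0) (hv : v ≠ 0) (he : e ≠ 0) (uv : inner ℝ (L u) (L v) = (0 : ℝ))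
    (ue : inner ℝ (L u) (L e) = (0 : ℝ)) (ve : inner ℝ (L v) (L e) = (0 : ℝ)) (p : E 3) :
    ∃ a b c : ℝ, p = a • u + b • v + c • e := by
  have hne : ∀ x, x ≠ 0 → L x ≠ 0 := fun x hx h => hx (hL (by rw [h, map_zero]))
  have hli : LinearIndependent ℝ (fun i => L ((![u, v, e] : Fin 3 → E 3) i)) := by
    apply linearIndependent_of_ne_zero_of_inner_eq_zero
    · intro i
      fin_cases i
      · exact hne u hu
      · exact hne v hv
      · exact hne e he
    · intro i j hij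
      have vu : inner ℝ (L v) (L u) = (0 : ℝ) := by rw [real_inner_comm]; exact uv
      have eu : inner ℝ (L e) (L u) = (0 : ℝ) := by rw [real_inner_comm]; exact ue
      have ev : inner ℝ (L e) (L v) = (0 : ℝ) := by rw [real_inner_comm]; exact ve
      fin_cases i <;> fin_cases j
      · exact absurd rfl hij
      · exact uv
      · exact ue
      · exact vu
      · exact absurd rfl hij
      · exact ve
      · exact eu
      · exact ev
      · exact absurd rfl hij
  have hli2 : LinearIndependent ℝ (![u, v, e] : Fin 3 → E 3) :=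
    LinearIndependent.of_comp (L : E 3 →ₗ[ℝ] E m) hli
  have hcard : Fintype.card (Fin 3) = finrank ℝ (E 3) := by
    rw [finrank_euclideanSpace]
  set B := basisOfLinearIndependentOfCardEqFinrank hli2 hcard with hB
  have h1 := B.sum_repr p
  rw [Fin.sum_univ_three, hB] at h1
  simp only [coe_basisOfLinearIndependentOfCardEqFinrank] at h1
  exact ⟨_, _, _, h1.symm⟩

/-- the trace in the frame -/
lemma tr_frame (hT : S_TRB) {m : ℕ} (X F G : E 3 → E m) (z : E 3) {u v e : E 3}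
    (hi : Function.Injective (fderiv ℝ X z))
    (hu : u ≠ 0) (hv : v ≠ 0) (he : e ≠ 0)
    (uv : inner ℝ (fderiv ℝ X z u) (fderiv ℝ X z v) = (0 : ℝ))
    (ue : inner ℝ (fderiv ℝ X z u) (fderiv ℝ X z e) = (0 : ℝ))
    (ve : inner ℝ (fderiv ℝ X z v) (fderiv ℝ X z e) = (0 : ℝ)) :
    tr X F G z = inner ℝ (fderiv ℝ F z u) (fderiv ℝ G z u)
        / inner ℝ (fderiv ℝ X z u) (fderiv ℝ X z u)
      + inner ℝ (fderiv ℝ F z v) (fderiv ℝ G z v)
        / inner ℝ (fderiv ℝ X z v) (fderiv ℝ X z v)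
      + inner ℝ (fderiv ℝ F z e) (fderiv ℝ G z e)
        / inner ℝ (fderiv ℝ X z e) (fderiv ℝ X z e) := by
  have h := hT 3 m X F G z ![u, v, e] hi ?_ ?_
  · rw [h, Fin.sum_univ_three]
    rfl
  · intro i
    fin_cases i
    · exact hu
    · exact hv
    · exact he
  · intro i j hij
    have vu : inner ℝ (fderiv ℝ X z v) (fderiv ℝ X z u) = (0 : ℝ) := by
      rw [real_inner_comm]; exact uv
    have eu : inner ℝ (fderiv ℝ X z e) (fderiv ℝ X z u) = (0 : ℝ) := by
      rw [real_inner_comm]; exact ue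
    have ev : inner ℝ (fderiv ℝ X z e) (fderiv ℝ X z v) = (0 : ℝ) := by
      rw [real_inner_comm]; exact ve
    fin_cases i <;> fin_cases j
    · exact absurd rfl hij
    · exact uv
    · exact ue
    · exact vu
    · exact absurd rfl hij
    · exact ve
    · exact eu
    · exact ev
    · exact absurd rfl hij

end CFOaux

open CFOaux in
theorem t_CFO : M_CFO := by
  intro hA hB hT m V X X1 X2 c l1 l2 N0 u v e h fr z hz
  have hV := h.op
  have stt : ContDiffAt ℝ ∞ (tt X X1 X2) z := (hB 3 m V X X1 X2 c l1 l2 N0 h).1 z hz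
  have s1 := h.s1 z hz
  have s2 := h.s2 z hz
  have sX := h.sX hz
  have su := fr.su z hz
  have sv := fr.sv z hz
  have se := fr.se z hz
  have f1u : ∀ w ∈ V, ∀ p, inner ℝ (fderiv ℝ X1 w p) (fderiv ℝ X2 w (u w)) = (0 : ℝ) := by
    intro w hw p
    rw [fr.ku w hw, inner_zero_right]
  have f1u' : ∀ w ∈ V, ∀ p, inner ℝ (fderiv ℝ X1 w (u w)) (fderiv ℝ X2 w p) = (0 : ℝ) := by
    intro w hw p
    rw [h.iso_vec hw]
    exact f1u w hw p
  have f1v' : ∀ w ∈ V, ∀ p, inner ℝ (fderiv ℝ X1 w (v w)) (fderiv ℝ X2 w p) = (0 : ℝ) := by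
    intro w hw p
    rw [fr.kv w hw, inner_zero_left]
  have f1v : ∀ w ∈ V, ∀ p, inner ℝ (fderiv ℝ X1 w p) (fderiv ℝ X2 w (v w)) = (0 : ℝ) := by
    intro w hw p
    rw [h.iso_vec hw]
    exact f1v' w hw p
  have f22 : ∀ w ∈ V, inner ℝ (fderiv ℝ X2 w (v w)) (fderiv ℝ X2 w (e w)) = (0 : ℝ) := by
    intro w hw
    have h1 := fr.ve w hw
    rw [h.fderivX hw, h.fderivX hw, fr.kv w hw, zero_add, inner_add_right] at h1
    have h2 := f1v w hw (e w)
    rw [real_inner_comm] at h2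
    linarith
  set μ : ℝ := CC 3 l2 l1 N0 - 1 with hμ
  set ε : E 3 → ℝ := fun w => inner ℝ (D e X w) (D e X w) with hε
  set β : E 3 → ℝ := fun w => inner ℝ (D e X1 w) (D e X2 w) with hβd
  set E2 : E 3 → ℝ := fun w => inner ℝ (D e X2 w) (D e X2 w) with hE2d
  have εne : ∀ w ∈ V, ε w ≠ 0 := by
    intro w hw h0
    have h1 : D e X w = 0 := inner_self_eq_zero.1 h0
    exact fr.ne w hw (h.imm w hw (by rw [map_zero]; exact h1))
  have hβ : ∀ w ∈ V, β w = tt X X1 X2 w * ε w := by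
    intro w hw
    have t1 : tt X X1 X2 w = _ := tr_frame hT X X1 X2 w (h.imm w hw) (fr.nu w hw) (fr.nv w hw)
      (fr.ne w hw) (fr.uv w hw) (fr.ue w hw) (fr.ve w hw)
    rw [f1u w hw, f1v w hw, zero_div, zero_div, zero_add, zero_add] at t1
    rw [t1]
    exact (div_mul_cancel₀ _ (εne w hw)).symm
  have hE2 : ∀ w ∈ V, E2 w = (μ - tt X X1 X2 w) * ε w := by
    intro w hw
    have t1 := tr_frame hT X X2 X2 w (h.imm w hw) (fr.nu w hw) (fr.nv w hw)
      (fr.ne w hw) (fr.uv w hw) (fr.ue w hw) (fr.ve w hw)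
    have hvv : fderiv ℝ X w (v w) = fderiv ℝ X2 w (v w) := by
      rw [h.fderivX hw, fr.kv w hw, zero_add]
    have hvn : inner ℝ (fderiv ℝ X w (v w)) (fderiv ℝ X w (v w)) ≠ (0 : ℝ) := by
      intro h0
      have h1 := inner_self_eq_zero.1 h0
      exact fr.nv w hw (h.imm w hw (by rw [map_zero]; exact h1))
    rw [(hA 3 m V X X2 X1 c l2 l1 N0 h.symm w hw).1, tt_comm, fr.ku w hw, inner_zero_right,
      zero_div, zero_add, ← hvv, div_self hvn] at t1
    have t2 : μ - tt X X1 X2 w = E2 w / ε w := by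
      rw [hμ]
      have : CC 3 l2 l1 N0 - tt X X1 X2 w = 1 + E2 w / ε w := t1
      linarith
    rw [t2, div_mul_cancel₀ _ (εne w hw)]
  -- the commutator
  obtain ⟨a, b, ρ, hcom⟩ := decomp (fderiv ℝ X z) (h.imm z hz) (fr.nu z hz) (fr.nv z hz)
    (fr.ne z hz) (fr.uv z hz) (fr.ue z hz) (fr.ve z hz) (com u e z)
  have K1 : D u (D e X2) z = b • fderiv ℝ X2 z (v z) + ρ • fderiv ℝ X2 z (e z) := by
    rw [D_comm su se s2]
    have h1 : D e (D u X2) z = 0 := D_zero hV (fun w hw => fr.ku w hw) hz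
    rw [h1, hcom, map_add, map_add, map_smul, map_smul, map_smul, fr.ku z hz, smul_zero,
      zero_add, zero_add]
  have sD1 : ContDiffAt ℝ ∞ (D e X1) z := D_smooth se s1
  have sD2 : ContDiffAt ℝ ∞ (D e X2) z := D_smooth se s2
  have sDX : ContDiffAt ℝ ∞ (D e X) z := D_smooth se sX
  have sε : ContDiffAt ℝ ∞ ε z := sDX.inner ℝ sDX
  have K2 : D u E2 z = 2 * ρ * E2 z := by
    have h1 : D u E2 z = inner ℝ (D e X2 z) (D u (D e X2) z)
      + inner ℝ (D u (D e X2) z) (D e X2 z) := D_inner sD2 sD2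
    rw [h1, K1, inner_add_right, inner_add_left, real_inner_smul_right, real_inner_smul_right,
      real_inner_smul_left, real_inner_smul_left]
    have h2 := f22 z hz
    have h3 : inner ℝ (D e X2 z) (fderiv ℝ X2 z (v z)) = (0 : ℝ) := by
      rw [real_inner_comm]; exact h2
    have h4 : inner ℝ (fderiv ℝ X2 z (v z)) (D e X2 z) = (0 : ℝ) := h2
    rw [h3, h4]
    show b * 0 + ρ * E2 z + (b * 0 + ρ * E2 z) = 2 * ρ * E2 z
    ring
  set P : ℝ := inner ℝ (D u (D e X1) z) (D e X2 z) with hP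
  have K3 : D u β z = ρ * β z + P := by
    have h1 : D u β z = inner ℝ (D e X1 z) (D u (D e X2) z)
      + inner ℝ (D u (D e X1) z) (D e X2 z) := D_inner sD1 sD2
    rw [h1, K1, inner_add_right, real_inner_smul_right, real_inner_smul_right]
    have h3 : inner ℝ (D e X1 z) (fderiv ℝ X2 z (v z)) = (0 : ℝ) := f1v z hz _
    rw [h3]
    show b * 0 + ρ * β z + P = ρ * β z + P
    ring
  have K4 : D u E2 z = (μ - tt X X1 X2 z) * D u ε z - ε z * D u (tt X X1 X2) z := by
    rw [D_congr hV hE2 hz, D_mul (contDiffAt_const.sub stt) sε, D_csub]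
    ring
  have K5 : D u β z = tt X X1 X2 z * D u ε z + ε z * D u (tt X X1 X2) z := by
    rw [D_congr hV hβ hz, D_mul stt sε]
  -- the trace of alpha
  have sα : ContDiffAt ℝ ∞ (D u X1) z := D_smooth su s1
  have hα : ∀ w ∈ V, ∀ j, inner ℝ (D u X1 w) (pd j X2 w) = (0 : ℝ) := by
    intro w hw j
    exact f1u' w hw _
  have K6 := trace_G (X := X) hV hz sα s2 hα
  rw [h.e2 z hz, real_inner_smul_right] at K6
  have K7 : inner ℝ (fderiv ℝ (D u X1) z (v z)) (fderiv ℝ X2 z (v z)) = (0 : ℝ) := by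
    have h1 : fderiv ℝ (D u X1) z (v z) = D u (D v X1) z + fderiv ℝ X1 z (com v u z) :=
      D_comm sv su s1
    have h2 : D u (D v X1) z = 0 := D_zero hV (fun w hw => fr.kv w hw) hz
    rw [h1, h2, zero_add]
    exact f1v z hz _
  have K8 : inner ℝ (fderiv ℝ (D u X1) z (e z)) (fderiv ℝ X2 z (e z)) = P - ρ * β z := by
    have h1 : fderiv ℝ (D u X1) z (e z) = D u (D e X1) z + fderiv ℝ X1 z (com e u z) :=
      D_comm se su s1
    rw [h1, com_swap u e, hcom, map_neg, map_add, map_add, map_smul, map_smul, map_smul,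
      inner_add_left, inner_neg_left, inner_add_left, inner_add_left, real_inner_smul_left,
      real_inner_smul_left, real_inner_smul_left, f1u' z hz, f1v' z hz]
    show P + -(a * 0 + b * 0 + ρ * β z) = P - ρ * β z
    ring
  have K9 := tr_frame hT X (D u X1) X2 z (h.imm z hz) (fr.nu z hz) (fr.nv z hz)
      (fr.ne z hz) (fr.uv z hz) (fr.ue z hz) (fr.ve z hz)
  rw [K6, fr.ku z hz, inner_zero_right, zero_div, zero_add, K7, zero_div, zero_add, K8] at K9
  have hε0 := εne z hz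
  have K10 : l2 * inner ℝ (D u X1 z) (X2 z) * ε z = P - ρ * β z := by
    rw [K9]
    exact div_mul_cancel₀ _ hε0
  have hcomm : (inner ℝ (X2 z) (fderiv ℝ X1 z (u z)) : ℝ) = inner ℝ (D u X1 z) (X2 z) :=
    real_inner_comm _ _
  rw [hcomm]
  have hβz := hβ z hz
  have hE2z := hE2 z hz
  apply mul_right_cancel₀ hε0
  show (μ - tt X X1 X2 z) * (l2 * inner ℝ (D u X1 z) (X2 z)) * ε z
    = μ * D u (tt X X1 X2) z * ε z
  rw [hβz] at K3 K10
  rw [hE2z] at K2
  have e1 : P = tt X X1 X2 z * D u ε z + ε z * D u (tt X X1 X2) z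
      - ρ * (tt X X1 X2 z * ε z) := by linarith
  have e2 : (μ - tt X X1 X2 z) * D u ε z - ε z * D u (tt X X1 X2) z
      = 2 * ρ * ((μ - tt X X1 X2 z) * ε z) := by linarith
  rw [e1] at K10
  linear_combination (μ - tt X X1 X2 z) * K10 + tt X X1 X2 z * e2

end Pool.Agent.CMX
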