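import Pool.Agent.CMX.St

set_option autoImplicit false

open scoped Manifold ContDiff Topology
open Module

namespace Pool.Agent.CMX

open Pool.Agent.Lib_helper91.CMC2 Pool.Agent.Lib_helper25.DA Pool.Agent.PLC
open Pool.Agent.Lib_helper91.CMC2.LD (yv)

namespace CRK

/-- the pairing vanishes if the two kernels span -/
lemma pair_zero {m : ℕ} (D1 D2 : E 3 →ₗ[ℝ] E m)
    (iso : ∀ u v, (inner ℝ (D1 u) (D2 v) : ℝ) = inner ℝ (D1 v) (D2 u))
    (inj : ∀ u, D1 u = 0 → D2 u = 0 → u = 0)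
    (h1 : finrank ℝ (LinearMap.range D1) ≤ 1) (h2 : finrank ℝ (LinearMap.range D2) ≤ 2)
    (u v : E 3) : (inner ℝ (D1 u) (D2 v) : ℝ) = 0 := by
  have hn : finrank ℝ (E 3) = 3 := by rw [finrank_euclideanSpace, Fintype.card_fin]
  have a1 := D1.finrank_range_add_finrank_ker
  have a2 := D2.finrank_range_add_finrank_ker
  have h3 := Submodule.finrank_sup_add_finrank_inf_eq (LinearMap.ker D1) (LinearMap.ker D2)
  have h4 : LinearMap.ker D1 ⊓ LinearMap.ker D2 = ⊥ := by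
    rw [eq_bot_iff]
    rintro w ⟨hw1, hw2⟩
    exact inj w hw1 hw2
  rw [h4, finrank_bot] at h3
  have h5 : LinearMap.ker D1 ⊔ LinearMap.ker D2 = ⊤ := by
    refine Submodule.eq_top_of_finrank_eq ?_
    have := Submodule.finrank_le (LinearMap.ker D1 ⊔ LinearMap.ker D2)
    omega
  have hu : u ∈ LinearMap.ker D1 ⊔ LinearMap.ker D2 := by rw [h5]; trivial
  obtain ⟨p, hp, q, hq, rfl⟩ := Submodule.mem_sup.1 hu
  have hp' : D1 p = 0 := hp
  have hq' : D2 q = 0 := hq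
  rw [map_add, hp', zero_add, iso q v, hq', inner_zero_right]

lemma rank_le {m : ℕ} (D : E 3 →ₗ[ℝ] E m) (K : Submodule ℝ (E m)) (y x : E m)
    (hK : finrank ℝ K = 3) (hD : ∀ u, D u ∈ K) (hx : x ∈ K)
    (hy : (inner ℝ y x : ℝ) ≠ 0) (ho : ∀ u, (inner ℝ y (D u) : ℝ) = 0) :
    finrank ℝ (LinearMap.range D) ≤ 2 := by
  have h1 : LinearMap.range D < K := by
    refine lt_of_le_of_ne ?_ ?_
    · rintro v ⟨u, rfl⟩
      exact hD u
    · intro he
      rw [← he] at hx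
      obtain ⟨u, rfl⟩ := hx
      exact hy (ho u)
  have h2 := Submodule.finrank_lt_finrank_of_lt h1
  omega

end CRK

theorem t_CRK : M_CRK := by
  intro hA hB m V X X1 X2 c l1 l2 N0 K1 K2 κ h hne hX1 hX2 f1 f2 hκ
  have hD : l1 - l2 ≠ 0 := sub_ne_zero.2 h.ne
  have st : SV V (tt X X1 X2) := (hB 3 m V X X1 X2 c l1 l2 N0 h).1
  have gA := hA 3 m V X X1 X2 c l1 l2 N0 h
  set g1 : E 3 → ℝ := fun w => inner ℝ (yv l1 l2 X1 X2 w) (X1 w) with hg1
  set g2 : E 3 → ℝ := fun w => inner ℝ (yv l1 l2 X1 X2 w) (X2 w) with hg2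
  have sg1 : SV V g1 := fun w hw => (h.sy hw).inner ℝ (h.s1 w hw)
  have sg2 : SV V g2 := fun w hw => (h.sy hw).inner ℝ (h.s2 w hw)
  -- the two identities
  have e1 : ∀ w ∈ V, l1 * g1 w = l1 * CC 3 l1 l2 N0 - (l1 - l2) * tt X X1 X2 w := by
    intro w hw
    have := (gA w hw).2
    rw [← this]
    simp only [hg1, zz, yv, inner_add_left, real_inner_smul_left]
    rw [real_inner_comm (X1 w) (X2 w)]
    ring
  have e2 : ∀ w ∈ V, l1 * g1 w + l2 * g2 w = N0 ^ 2 := by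
    intro w hw
    rw [← h.normy hw]
    simp only [hg1, hg2]
    conv_rhs => rw [show (inner ℝ (yv l1 l2 X1 X2 w) (yv l1 l2 X1 X2 w) : ℝ)
      = inner ℝ (yv l1 l2 X1 X2 w) (l1 • X1 w + l2 • X2 w) from rfl]
    rw [inner_add_right, real_inner_smul_right, real_inner_smul_right]
  -- a constant `tt` on an open subset is impossible
  have ncon : ∀ W : Set (E 3), W ⊆ V → IsOpen W → W.Nonempty → ∀ a : ℝ,
      ¬ ∀ w ∈ W, tt X X1 X2 w = a := by
    intro W hW oW neW a hc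
    obtain ⟨w, hw⟩ := neW
    refine hκ w (hW hw) ?_
    rw [pd_congr_on oW (g := fun _ => a) hc hw κ, pd_const]
  have step : ∀ W : Set (E 3), W ⊆ V → IsOpen W → W.Nonempty → ∀ f : E 3 → ℝ, SV V f →
      (¬ ∀ w ∈ W, f w = 0) → ∃ W' : Set (E 3), W' ⊆ W ∧ IsOpen W' ∧ W'.Nonempty ∧
        ∀ w ∈ W', f w ≠ 0 := by
    intro W hW oW _ f sf hf
    push Not at hf
    obtain ⟨w, hw, hfw⟩ := hf
    exact ⟨{w | w ∈ W ∧ f w ≠ 0}, fun w hw => hw.1, open_ne oW (sf.mono hW), ⟨w, hw, hfw⟩,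
      fun w hw => hw.2⟩
  obtain ⟨W1, s1, o1, n1, p1⟩ := step V subset_rfl h.op hne _ st
    (ncon V subset_rfl h.op hne 0)
  obtain ⟨W2, s2, o2, n2, p2⟩ := step W1 s1 o1 n1 g1 sg1 (by
    intro hc
    refine ncon W1 s1 o1 n1 (l1 * CC 3 l1 l2 N0 / (l1 - l2)) ?_
    intro w hw
    have := e1 w (s1 hw)
    rw [hc w hw] at this
    rw [eq_div_iff hD]
    linarith)
  obtain ⟨W3, s3, o3, n3, p3⟩ := step W2 (s2.trans s1) o2 n2 g2 sg2 (by
    intro hc
    refine ncon W2 (s2.trans s1) o2 n2 ((l1 * CC 3 l1 l2 N0 - N0 ^ 2) / (l1 - l2)) ?_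
    intro w hw
    have a := e1 w (s1 (s2 hw))
    have b := e2 w (s1 (s2 hw))
    rw [hc w hw] at b
    rw [eq_div_iff hD]
    linarith)
  refine ⟨W3, s3.trans (s2.trans s1), o3, n3, ?_⟩
  intro w hw
  have hw2 := s3 hw
  have hw1 := s2 hw2
  have hwV := s1 hw1
  have ht := p1 w hw1
  set D1 : E 3 →ₗ[ℝ] E m := (fderiv ℝ X1 w : E 3 →ₗ[ℝ] E m) with hD1
  set D2 : E 3 →ₗ[ℝ] E m := (fderiv ℝ X2 w : E 3 →ₗ[ℝ] E m) with hD2
  have m1 : ∀ u, D1 u ∈ K1 := fun u =>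
    fderiv_mem (by filter_upwards [h.op.mem_nhds hwV] with t ht using hX1 t ht)
      (diff_of (h.s1 w hwV)) u
  have m2 : ∀ u, D2 u ∈ K2 := fun u =>
    fderiv_mem (by filter_upwards [h.op.mem_nhds hwV] with t ht using hX2 t ht)
      (diff_of (h.s2 w hwV)) u
  have r1 : finrank ℝ (LinearMap.range D1) ≤ 2 :=
    CRK.rank_le D1 K1 (yv l1 l2 X1 X2 w) (X1 w) f1 m1 (hX1 w hwV) (p2 w hw2)
      (fun u => h.inner_y_D1 hwV u)
  have r2 : finrank ℝ (LinearMap.range D2) ≤ 2 :=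
    CRK.rank_le D2 K2 (yv l1 l2 X1 X2 w) (X2 w) f2 m2 (hX2 w hwV) (p3 w hw)
      (fun u => h.inner_y_D2 hwV u)
  have iso : ∀ u v, (inner ℝ (D1 u) (D2 v) : ℝ) = inner ℝ (D1 v) (D2 u) :=
    fun u v => h.iso_vec hwV u v
  have inj : ∀ u, D1 u = 0 → D2 u = 0 → u = 0 := by
    intro u h1 h2
    have h1' : fderiv ℝ X1 w u = 0 := h1
    have h2' : fderiv ℝ X2 w u = 0 := h2
    have : fderiv ℝ X w u = 0 := by rw [h.fderivX hwV, h1', h2', add_zero]
    exact h.imm w hwV (by rw [this, map_zero])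
  have tz : (∀ u v, (inner ℝ (D1 u) (D2 v) : ℝ) = 0) → tt X X1 X2 w = 0 := by
    intro hz
    unfold tt tr
    refine Finset.sum_eq_zero fun i _ => Finset.sum_eq_zero fun j _ => ?_
    have : (inner ℝ (pd i X1 w) (pd j X2 w) : ℝ) = 0 := hz _ _
    rw [this, mul_zero]
  refine ⟨ht, ?_, ?_⟩
  · by_contra hc
    have h1 : finrank ℝ (LinearMap.range D1) ≤ 1 := by omega
    exact ht (tz (CRK.pair_zero D1 D2 iso inj h1 r2))
  · by_contra hc
    have h1 : finrank ℝ (LinearMap.range D2) ≤ 1 := by omega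
    refine ht (tz ?_)
    intro u v
    rw [real_inner_comm]
    refine CRK.pair_zero D2 D1 (fun u v => ?_) (fun u h1 h2 => inj u h2 h1) h1 r1 v u
    rw [real_inner_comm, iso v u, real_inner_comm]

end Pool.Agent.CMX
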