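import Pool.Agent.CMX.St

/-!
# Module CVF: a local section of the kernel
-/

set_option autoImplicit false

open scoped Manifold ContDiff Topology
open Module

namespace Pool.Agent.CMX

open Pool.Agent.Lib_helper91.CMC2 Pool.Agent.Lib_helper25.DA Pool.Agent.PLC

namespace CVFaux

variable {m : ℕ}

/-- a covector -/
noncomputable def cv (F : E 3 → E m) (b : E m) (i : Fin 3) (w : E 3) : ℝ := inner ℝ b (pd i F w)

theorem cv_smooth {F : E 3 → E m} {w : E 3} (h : ContDiffAt ℝ ∞ F w) (b : E m) (i : Fin 3) :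
    ContDiffAt ℝ ∞ (cv F b i) w := by
  have h1 : ContDiffAt ℝ ∞ (fderiv ℝ F) w := h.fderiv_right (m := ∞) (by simp)
  exact contDiffAt_const.inner ℝ (h1.clm_apply contDiffAt_const)

theorem inner_fderiv (F : E 3 → E m) (b : E m) (w v : E 3) :
    inner ℝ b (fderiv ℝ F w v) = v 0 * cv F b 0 w + v 1 * cv F b 1 w + v 2 * cv F b 2 w := by
  rw [fderiv_eq_sum, Fin.sum_univ_three, inner_add_right, inner_add_right, real_inner_smul_right,
    real_inner_smul_right, real_inner_smul_right]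
  rfl

/-- the cross product of two covectors -/
noncomputable def uv (F : E 3 → E m) (a b : E m) (w : E 3) : E 3 :=
  !₂[cv F a 1 w * cv F b 2 w - cv F a 2 w * cv F b 1 w,
    cv F a 2 w * cv F b 0 w - cv F a 0 w * cv F b 2 w,
    cv F a 0 w * cv F b 1 w - cv F a 1 w * cv F b 0 w]

theorem uv_smooth {F : E 3 → E m} {w : E 3} (h : ContDiffAt ℝ ∞ F w) (a b : E m) :
    ContDiffAt ℝ ∞ (uv F a b) w := by
  rw [contDiffAt_euclidean]
  have ha := fun i => cv_smooth h a i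
  have hb := fun i => cv_smooth h b i
  intro i
  fin_cases i
  · exact ((ha 1).mul (hb 2)).sub ((ha 2).mul (hb 1))
  · exact ((ha 2).mul (hb 0)).sub ((ha 0).mul (hb 2))
  · exact ((ha 0).mul (hb 1)).sub ((ha 1).mul (hb 0))

end CVFaux

open CVFaux in
/-- **CVF**. -/
theorem t_CVF : S_CVF := by
  intro m V F hV hne hF hr
  obtain ⟨w0, hw0⟩ := hne
  set Rg := LinearMap.range (fderiv ℝ F w0 : E 3 →ₗ[ℝ] E m) with hRg
  let o : OrthonormalBasis (Fin 2) ℝ Rg :=
    (stdOrthonormalBasis ℝ Rg).reindex (finCongr (hr w0 hw0))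
  obtain ⟨x, hx⟩ := LinearMap.mem_range.1 (o 0).2
  obtain ⟨y, hy⟩ := LinearMap.mem_range.1 (o 1).2
  set a : E m := (o 0 : E m) with ha
  set b : E m := (o 1 : E m) with hb
  have haa : inner ℝ a a = (1 : ℝ) := by
    have := o.inner_eq_one 0
    exact this
  have hbb : inner ℝ b b = (1 : ℝ) := by
    have := o.inner_eq_one 1
    exact this
  have hab : inner ℝ a b = (0 : ℝ) := by
    have := o.inner_eq_zero (i := 0) (j := 1) (by decide)
    exact this
  have hx' : fderiv ℝ F w0 x = a := hx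
  have hy' : fderiv ℝ F w0 y = b := hy
  have e1 := inner_fderiv F a w0 x
  have e2 := inner_fderiv F a w0 y
  have e3 := inner_fderiv F b w0 x
  have e4 := inner_fderiv F b w0 y
  rw [hx', haa] at e1
  rw [hy', hab] at e2
  rw [hx', real_inner_comm, hab] at e3
  rw [hy', hbb] at e4
  have hu0 : uv F a b w0 ≠ 0 := by
    intro h
    have c0 : cv F a 1 w0 * cv F b 2 w0 - cv F a 2 w0 * cv F b 1 w0 = 0 :=
      congrArg (fun z : E 3 => z 0) h
    have c1 : cv F a 2 w0 * cv F b 0 w0 - cv F a 0 w0 * cv F b 2 w0 = 0 :=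
      congrArg (fun z : E 3 => z 1) h
    have c2 : cv F a 0 w0 * cv F b 1 w0 - cv F a 1 w0 * cv F b 0 w0 = 0 :=
      congrArg (fun z : E 3 => z 2) h
    have e5 : (1 : ℝ) = (x 1 * y 2 - x 2 * y 1) *
          (cv F a 1 w0 * cv F b 2 w0 - cv F a 2 w0 * cv F b 1 w0) +
        (x 2 * y 0 - x 0 * y 2) * (cv F a 2 w0 * cv F b 0 w0 - cv F a 0 w0 * cv F b 2 w0) +
        (x 0 * y 1 - x 1 * y 0) * (cv F a 0 w0 * cv F b 1 w0 - cv F a 1 w0 * cv F b 0 w0) := by
      have e6 : (x 0 * cv F a 0 w0 + x 1 * cv F a 1 w0 + x 2 * cv F a 2 w0) *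
          (y 0 * cv F b 0 w0 + y 1 * cv F b 1 w0 + y 2 * cv F b 2 w0) -
          (y 0 * cv F a 0 w0 + y 1 * cv F a 1 w0 + y 2 * cv F a 2 w0) *
          (x 0 * cv F b 0 w0 + x 1 * cv F b 1 w0 + x 2 * cv F b 2 w0) = 1 := by
        rw [← e1, ← e2, ← e3, ← e4]
        ring
      rw [← e6]
      ring
    rw [c0, c1, c2] at e5
    norm_num at e5
  have hcont : ContinuousOn (uv F a b) V := fun w hw =>
    (uv_smooth (hF w hw) a b).continuousAt.continuousWithinAt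
  refine ⟨V ∩ uv F a b ⁻¹' {0}ᶜ, Set.inter_subset_left,
    hcont.isOpen_inter_preimage hV isOpen_compl_singleton, ⟨w0, hw0, hu0⟩, uv F a b, ?_⟩
  rintro w ⟨hw, hwu⟩
  refine ⟨uv_smooth (hF w hw) a b, hwu, ?_⟩
  -- a nonzero vector of the kernel
  have hker : 0 < finrank ℝ (LinearMap.ker (fderiv ℝ F w : E 3 →ₗ[ℝ] E m)) := by
    have h1 := LinearMap.finrank_range_add_finrank_ker (fderiv ℝ F w : E 3 →ₗ[ℝ] E m)
    rw [hr w hw, finrank_euclideanSpace_fin] at h1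
    omega
  obtain ⟨k, hk⟩ := (Module.finrank_pos_iff_exists_ne_zero (R := ℝ)).1 hker
  have hk0 : (k : E 3) ≠ 0 := fun h => hk (Subtype.ext h)
  have hkk : fderiv ℝ F w (k : E 3) = 0 := k.2
  set κ : E 3 := (k : E 3) with hκ
  have f1 := inner_fderiv F a w κ
  have f2 := inner_fderiv F b w κ
  rw [hkk, inner_zero_right] at f1 f2
  have hq : 0 < κ 0 ^ 2 + κ 1 ^ 2 + κ 2 ^ 2 := by
    have h1 : 0 < ‖κ‖ ^ 2 := by positivity
    rw [EuclideanSpace.norm_sq_eq, Fin.sum_univ_three] at h1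
    simpa using h1
  set s : ℝ := uv F a b w 0 * κ 0 + uv F a b w 1 * κ 1 + uv F a b w 2 * κ 2 with hs
  have hprop : (κ 0 ^ 2 + κ 1 ^ 2 + κ 2 ^ 2) • uv F a b w = s • κ := by
    have u0 : uv F a b w 0 = cv F a 1 w * cv F b 2 w - cv F a 2 w * cv F b 1 w := rfl
    have u1 : uv F a b w 1 = cv F a 2 w * cv F b 0 w - cv F a 0 w * cv F b 2 w := rfl
    have u2 : uv F a b w 2 = cv F a 0 w * cv F b 1 w - cv F a 1 w * cv F b 0 w := rfl
    ext i
    fin_cases i
    · show (κ 0 ^ 2 + κ 1 ^ 2 + κ 2 ^ 2) * uv F a b w 0 = s * κ 0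
      rw [hs, u0, u1, u2]
      linear_combination (κ 1 * cv F b 2 w - κ 2 * cv F b 1 w) * (-f1) -
        (κ 1 * cv F a 2 w - κ 2 * cv F a 1 w) * (-f2)
    · show (κ 0 ^ 2 + κ 1 ^ 2 + κ 2 ^ 2) * uv F a b w 1 = s * κ 1
      rw [hs, u0, u1, u2]
      linear_combination (κ 2 * cv F b 0 w - κ 0 * cv F b 2 w) * (-f1) -
        (κ 2 * cv F a 0 w - κ 0 * cv F a 2 w) * (-f2)
    · show (κ 0 ^ 2 + κ 1 ^ 2 + κ 2 ^ 2) * uv F a b w 2 = s * κ 2
      rw [hs, u0, u1, u2]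
      linear_combination (κ 0 * cv F b 1 w - κ 1 * cv F b 0 w) * (-f1) -
        (κ 0 * cv F a 1 w - κ 1 * cv F a 0 w) * (-f2)
  have h2 := congrArg (fderiv ℝ F w) hprop
  rw [map_smul, map_smul, hkk, smul_zero] at h2
  exact (smul_eq_zero.1 h2).resolve_left hq.ne'

end Pool.Agent.CMX
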