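import Pool.Agent.CMX.St

/-!
# GIA: general identities
-/

set_option autoImplicit false

open scoped Manifold ContDiff Topology
open Module

namespace Pool.Agent.CMX

open Pool.Agent.Lib_helper91.CMC2 Pool.Agent.Lib_helper25.DA Pool.Agent.PLC
open Pool.Agent.Lib_helper91.CMC2.LD (yv)

/-- GIA -/
theorem t_GIA : S_GIA := by
  intro n m U X X1 X2 c l1 l2 N0 h z hz
  have hne : l1 - l2 ≠ 0 := sub_ne_zero.2 h.ne
  have ty : ∀ F : E n → E m, ∑ i, ∑ j, (metric X z)⁻¹ i j *
      inner ℝ (pd i F z) (pd j (yv l1 l2 X1 X2) z) = l1 * tr X F X1 z + l2 * tr X F X2 z := by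
    intro F
    unfold tr
    rw [Finset.mul_sum, Finset.mul_sum, ← Finset.sum_add_distrib]
    refine Finset.sum_congr rfl fun i _ => ?_
    rw [Finset.mul_sum, Finset.mul_sum, ← Finset.sum_add_distrib]
    refine Finset.sum_congr rfl fun j _ => ?_
    rw [h.pdy hz, inner_add_right, real_inner_smul_right, real_inner_smul_right]
    ring
  have a1 := trace_F h hz h.s1 (fun w hw j => h.inner_y_1 hw j)
  rw [ty, h.e1 z hz, real_inner_smul_right] at a1
  have e := energy h hz
  have hC : CC n l1 l2 N0 * (l1 - l2) = N0 ^ 2 - l2 * n := div_mul_cancel₀ _ hne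
  have e' : l2 * (N0 ^ 2 - l2 * n) / (l1 - l2) = l2 * CC n l1 l2 N0 := by
    unfold CC; ring
  rw [e'] at e
  have t1 : tr X X1 X1 z = CC n l1 l2 N0 - tt X X1 X2 z := by
    have h3 : l2 * (tr X X1 X1 z - (CC n l1 l2 N0 - tt X X1 X2 z)) = 0 := by
      unfold tt
      linear_combination a1 + e
    have := (mul_eq_zero.1 h3).resolve_left h.ne2
    linarith
  refine ⟨t1, ?_⟩
  have h4 : l1 * inner ℝ (yv l1 l2 X1 X2 z) (X1 z)
      = l1 ^ 2 * inner ℝ (X1 z) (X1 z) + zz l1 l2 X1 X2 z := by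
    unfold yv zz
    rw [inner_add_left, real_inner_smul_left, real_inner_smul_left, real_inner_comm (X1 z) (X2 z)]
    ring
  rw [← h4]
  rw [t1] at e
  linear_combination e

end Pool.Agent.CMX
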