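import Pool.Agent.CMX.St

/-!
# GIB: smoothness, Laplacians and derivatives of `t` and `z`
-/

set_option autoImplicit false

open scoped Manifold ContDiff Topology
open Module

namespace Pool.Agent.CMX

open Pool.Agent.Lib_helper91.CMC2 Pool.Agent.Lib_helper25.DA Pool.Agent.PLC
open Pool.Agent.Lib_helper91.CMC2.LD (yv)

/-- GIB -/
theorem t_GIB : M_GIB := by
  intro hGIA n m U X X1 X2 c l1 l2 N0 h
  have hne : l1 - l2 ≠ 0 := sub_ne_zero.2 h.ne
  set D : ℝ := l1 - l2 with hD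
  set q : E n → ℝ := fun w => inner ℝ (X1 w) (X1 w) with hq
  set p : E n → ℝ := fun w => inner ℝ (X1 w) (X2 w) with hp
  have sq : ∀ z ∈ U, ContDiffAt ℝ ∞ q z := fun z hz => (h.s1 z hz).inner ℝ (h.s1 z hz)
  have sp : ∀ z ∈ U, ContDiffAt ℝ ∞ p z := fun z hz => (h.s1 z hz).inner ℝ (h.s2 z hz)
  have sz : ∀ z ∈ U, ContDiffAt ℝ ∞ (zz l1 l2 X1 X2) z := fun z hz =>
    contDiffAt_const.mul (sp z hz)
  -- the formula for `t`
  have key : ∀ w ∈ U, tt X X1 X2 w = l1 * CC n l1 l2 N0 / D + ((-(l1 ^ 2) / D) • q w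
      + (-1 / D) • zz l1 l2 X1 X2 w) := by
    intro w hw
    have h1 := (hGIA n m U X X1 X2 c l1 l2 N0 h w hw).2
    simp only [smul_eq_mul, hq]
    field_simp
    linear_combination h1
  have ev : ∀ z ∈ U, tt X X1 X2 =ᶠ[𝓝 z] fun w => l1 * CC n l1 l2 N0 / D + ((-(l1 ^ 2) / D) • q w
      + (-1 / D) • zz l1 l2 X1 X2 w) := fun z hz => by
    filter_upwards [h.op.mem_nhds hz] with w hw using key w hw
  have s1 : ∀ z ∈ U, ContDiffAt ℝ ∞ (fun w => (-(l1 ^ 2) / D) • q w) z := fun z hz =>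
    (sq z hz).const_smul _
  have s2 : ∀ z ∈ U, ContDiffAt ℝ ∞ (fun w => (-1 / D) • zz l1 l2 X1 X2 w) z := fun z hz =>
    (sz z hz).const_smul _
  have s12 : ∀ z ∈ U, ContDiffAt ℝ ∞ (fun w => (-(l1 ^ 2) / D) • q w
      + (-1 / D) • zz l1 l2 X1 X2 w) z := fun z hz => (s1 z hz).add (s2 z hz)
  refine ⟨fun z hz => (contDiffAt_const.add (s12 z hz)).congr_of_eventuallyEq (ev z hz), ?_⟩
  intro z hz
  have g := hGIA n m U X X1 X2 c l1 l2 N0 h z hz
  -- Laplacians
  have lq : lap X q z = 2 * l1 * q z - 2 * tr X X1 X1 z := by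
    rw [hq, lap_inner (h.s1 z hz) (h.s1 z hz), h.e1 z hz, real_inner_smul_left,
      real_inner_smul_right]
    unfold tr
    ring
  have lp : lap X p z = (l1 + l2) * p z - 2 * tt X X1 X2 z := by
    rw [hp, lap_inner (h.s1 z hz) (h.s2 z hz), h.e1 z hz, h.e2 z hz, real_inner_smul_left,
      real_inner_smul_right]
    unfold tt tr
    ring
  have lz : lap X (zz l1 l2 X1 X2) z = (l1 + l2) * zz l1 l2 X1 X2 z
      - 2 * (l1 * l2) * tt X X1 X2 z := by
    have e : lap X (zz l1 l2 X1 X2) z = (l1 * l2) • lap X p z :=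
      lap_smul (l1 * l2) (sp z hz)
    rw [e, lp, smul_eq_mul]
    unfold zz
    ring
  refine ⟨?_, lz, ?_⟩
  · rw [lap_congr (ev z hz), lap_add contDiffAt_const (s12 z hz), lap_add (s1 z hz) (s2 z hz),
      lap_const, lap_smul _ (sq z hz), lap_smul _ (sz z hz), lq, lz, g.1, smul_eq_mul, smul_eq_mul]
    have h2 : l1 ^ 2 * q z + zz l1 l2 X1 X2 z = l1 * CC n l1 l2 N0 - (l1 - l2) * tt X X1 X2 z := g.2
    field_simp
    linear_combination -2 * l1 * h2
  · intro j
    rw [pd_congr (ev z hz) j, pd_add (by fun_prop) (diff_of (s12 z hz)), pd_const,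
      pd_add (diff_of (s1 z hz)) (diff_of (s2 z hz)), pd_smul _ (diff_of (sq z hz)),
      pd_smul _ (diff_of (sz z hz))]
    have e1 : pd j q z = 2 * inner ℝ (X1 z) (pd j X1 z) := by
      rw [hq, pd_inner (diff_of (h.s1 z hz)) (diff_of (h.s1 z hz)), real_inner_comm (X1 z)]
      ring
    have e2 : pd j (zz l1 l2 X1 X2) z = l1 * l2 * (inner ℝ (X1 z) (pd j X2 z)
        + inner ℝ (X2 z) (pd j X1 z)) := by
      have e : pd j (zz l1 l2 X1 X2) z = (l1 * l2) • pd j p z :=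
        pd_smul (l1 * l2) (diff_of (sp z hz)) j
      rw [e, hp, pd_inner (diff_of (h.s1 z hz)) (diff_of (h.s2 z hz)), smul_eq_mul,
        real_inner_comm (X2 z) (pd j X1 z)]
    have e3 := h.inner_y_1 hz j
    unfold yv at e3
    rw [inner_add_left, real_inner_smul_left, real_inner_smul_left] at e3
    rw [e1, e2, smul_eq_mul, smul_eq_mul]
    field_simp
    linear_combination -2 * l1 * e3

end Pool.Agent.CMX
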