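import Pool.Agent.CMX.St

/-!
# The gradient of a tangent coordinate (project CMX, module GIN)
-/

set_option autoImplicit false

open scoped Manifold ContDiff Topology
open Module

namespace Pool.Agent.CMX

open Pool.Agent.Lib_helper91.CMC2 Pool.Agent.Lib_helper25.DA Pool.Agent.PLC
open Pool.Agent.Lib_helper91.CMC2.LD (yv)

theorem t_GIN : S_GIN := by
  intro n m X z b u f hX hinj hu hf
  have hp : ∀ i, pd i f z = ∑ k, metric X z i k * u k := by
    intro i
    have h1 : pd i f z = inner ℝ b (pd i X z) := hf _
    rw [h1, ← hu, fderiv_eq_sum X z u, sum_inner]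
    refine Finset.sum_congr rfl fun k _ => ?_
    rw [real_inner_smul_left, mul_comm]
    simp only [metric]
    rw [real_inner_comm]
  have h2 : ∀ i, ∑ j, (metric X z)⁻¹ i j * pd j f z = u i := by
    intro i
    have : ∀ j, (metric X z)⁻¹ i j * pd j f z = ∑ k, ((metric X z)⁻¹ i j * metric X z j k) * u k := by
      intro j
      rw [hp j, Finset.mul_sum]
      exact Finset.sum_congr rfl fun k _ => by ring
    simp only [this]
    rw [Finset.sum_comm]
    simp only [← Finset.sum_mul]
    simp only [inv_mul_metric hinj]
    simp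
  have h3 : gin X f f z = ∑ i, pd i f z * u i := by
    unfold gin
    refine Finset.sum_congr rfl fun i _ => ?_
    rw [← h2 i, Finset.mul_sum]
    refine Finset.sum_congr rfl fun j _ => ?_
    ring
  rw [h3]
  have h4 : ∑ i, pd i f z * u i = ∑ i, ∑ j, u i * metric X z i j * u j := by
    refine Finset.sum_congr rfl fun i _ => ?_
    rw [hp i, Finset.sum_mul]
    refine Finset.sum_congr rfl fun j _ => ?_
    ring
  rw [h4, metric_quad, hu, real_inner_self_eq_norm_sq]

end Pool.Agent.CMX
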