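import Pool.Agent.CMX.St

/-!
# GIT: `t` locally constant implies `|x - c|²` locally constant
-/

set_option autoImplicit false

open scoped Manifold ContDiff Topology
open Module

namespace Pool.Agent.CMX

open Pool.Agent.Lib_helper91.CMC2 Pool.Agent.Lib_helper25.DA Pool.Agent.PLC
open Pool.Agent.Lib_helper91.CMC2.LD (yv)

namespace GITaux

/-- a function with zero derivatives has zero Laplacian -/
lemma lap_zero {n m : ℕ} {X : E n → E m} {V : Set (E n)} (hV : IsOpen V) {f : E n → ℝ}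
    (hF : ∀ w ∈ V, ∀ j, pd j f w = 0) {z : E n} (hz : z ∈ V) : lap X f z = 0 := by
  unfold lap
  rw [neg_eq_zero]
  refine Finset.sum_eq_zero fun i _ => Finset.sum_eq_zero fun j _ => ?_
  have h1 : pd j f =ᶠ[𝓝 z] fun _ => (0 : ℝ) := by
    filter_upwards [hV.mem_nhds hz] with w hw using hF w hw j
  rw [pd_congr h1 i, pd_const]
  have h2 : ∑ k, christoffel X z i j k • pd k f z = 0 :=
    Finset.sum_eq_zero fun k _ => by rw [hF z hz k, smul_zero]
  rw [h2, sub_zero, smul_zero]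

end GITaux

open GITaux in
/-- GIT -/
theorem t_GIT : M_GIT := by
  intro hGIB n m U X X1 X2 c l1 l2 N0 h h0 z hz j
  obtain ⟨-, g⟩ := hGIB n m U X X1 X2 c l1 l2 N0 h
  have z0 : ∀ w ∈ U, zz l1 l2 X1 X2 w = (fun _ => (0 : ℝ)) w := by
    intro w hw
    rw [← (g w hw).1]
    exact lap_zero h.op h0 hw
  have hl : l1 * l2 ≠ 0 := mul_ne_zero h.ne1 h.ne2
  have dz : l1 * l2 * (inner ℝ (X1 z) (pd j X2 z) + inner ℝ (X2 z) (pd j X1 z)) = 0 := by
    have e : pd j (zz l1 l2 X1 X2) z = (l1 * l2) • pd j (fun w => (inner ℝ (X1 w) (X2 w) : ℝ)) z :=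
      pd_smul (l1 * l2) (diff_of ((h.s1 z hz).inner ℝ (h.s2 z hz))) j
    rw [pd_congr_on h.op z0 hz, pd_const, pd_inner (diff_of (h.s1 z hz)) (diff_of (h.s2 z hz)),
      smul_eq_mul, real_inner_comm (X2 z) (pd j X1 z)] at e
    exact e.symm
  have dt := (g z hz).2.2 j
  rw [h0 z hz j, mul_zero] at dt
  have b1 := (mul_eq_zero.1 dz).resolve_left hl
  have b2 := (mul_eq_zero.1 dt.symm).resolve_left hl
  have c1 : (inner ℝ (X1 z) (pd j X2 z) : ℝ) = 0 := by linarith
  have c2 : (inner ℝ (X2 z) (pd j X1 z) : ℝ) = 0 := by linarith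
  have e1 := h.inner_y_1 hz j
  have e2 := h.inner_y_2 hz j
  unfold yv at e1 e2
  rw [inner_add_left, real_inner_smul_left, real_inner_smul_left] at e1 e2
  rw [c2, mul_zero, add_zero] at e1
  rw [c1, mul_zero, zero_add] at e2
  have d1 := (mul_eq_zero.1 e1).resolve_left h.ne1
  have d2 := (mul_eq_zero.1 e2).resolve_left h.ne2
  have := pd_rad h hz j
  rw [c1, c2, d1, d2] at this
  exact this.trans (by ring)

end Pool.Agent.CMX
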