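import Pool.Agent.CMX.St

/-!
# CMX_ONE: the case of rank one
-/

set_option autoImplicit false

open scoped Manifold ContDiff Topology
open Module

namespace Pool.Agent.CMX

open Pool.Agent.Lib_helper91.CMC2 Pool.Agent.Lib_helper25.DA Pool.Agent.PLC
open Pool.Agent.Lib_helper91.CMC2.LD (yv)

namespace ONEaux

section
variable {n m : ℕ} {V : Set (E n)} {X X1 X2 : E n → E m} {c : E m} {l1 l2 N0 : ℝ}
  {K1 K2 N1 N2 : Submodule ℝ (E m)} {ξ1 ξ2 : E m} {ρ : ℝ} {z : E n}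

lemma pr_smooth (K : Submodule ℝ (E m)) {F : E n → E m} (hF : ContDiffAt ℝ ∞ F z) :
    ContDiffAt ℝ ∞ (fun w => pr K (F w)) z :=
  (K.starProjection : E m →L[ℝ] E m).contDiff.contDiffAt.comp z hF

lemma pd_pr (K : Submodule ℝ (E m)) {F : E n → E m} (hF : ContDiffAt ℝ ∞ F z) (j : Fin n) :
    pd j (fun w => pr K (F w)) z = pr K (pd j F z) :=
  pd_clm (K.starProjection : E m →L[ℝ] E m) (diff_of hF) j

lemma sc_smul (l : ℝ) (b : E m) (F : E n → E m) : sc (l • b) F z = l * sc b F z := by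
  unfold sc; rw [real_inner_smul_left]

lemma pd_sc_smul (l : ℝ) (b : E m) {F : E n → E m} (hF : ContDiffAt ℝ ∞ F z) (j : Fin n) :
    pd j (sc (l • b) F) z = l * pd j (sc b F) z := by
  rw [pd_sc _ hF, pd_sc _ hF, real_inner_smul_left]

lemma mix (h : Split K1 K2 N1 N2 ξ1 ξ2 ρ) {p r : E m} (hp : p ∈ N1) (hr : r ∈ N2) (s t : ℝ) :
    (inner ℝ (p + s • ξ1) (r + t • ξ2) : ℝ) = ρ * (s * t) := by
  have e1 := h.o p hp r hr
  have e2 : (inner ℝ p ξ2 : ℝ) = 0 := by rw [real_inner_comm]; exact h.o21 p hp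
  have e3 := h.o12 r hr
  rw [inner_add_left, inner_add_right, inner_add_right, real_inner_smul_left,
    real_inner_smul_left, real_inner_smul_right, real_inner_smul_right, e1, e2, e3, h.rho]
  ring

lemma self (h : Split K1 K2 N1 N2 ξ1 ξ2 ρ) {p r : E m} (hp : p ∈ N1) (hr : r ∈ N1) (s t : ℝ) :
    (inner ℝ (p + s • ξ1) (r + t • ξ1) : ℝ) = inner ℝ p r + s * t := by
  have e2 : (inner ℝ p ξ1 : ℝ) = 0 := by rw [real_inner_comm]; exact h.o11 p hp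
  have e3 := h.o11 r hr
  rw [inner_add_left, inner_add_right, inner_add_right, real_inner_smul_left,
    real_inner_smul_left, real_inner_smul_right, real_inner_smul_right, e2, e3, h.u1]
  ring

lemma pd_dec (hV : IsOpen V) (hX : ∀ w ∈ V, X1 w = pr N1 (X1 w) + (inner ℝ ξ1 (X1 w) : ℝ) • ξ1)
    (s1 : ContDiffAt ℝ ∞ X1 z) (hz : z ∈ V) (j : Fin n) :
    pd j X1 z = pr N1 (pd j X1 z) + (inner ℝ ξ1 (pd j X1 z) : ℝ) • ξ1 := by
  set L : E m →L[ℝ] E m :=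
    (N1.starProjection : E m →L[ℝ] E m) + (innerSL ℝ ξ1).smulRight ξ1 with hL
  have e1 : ∀ v, L v = pr N1 v + (inner ℝ ξ1 v : ℝ) • ξ1 := fun v => rfl
  have h1 : (fun w => L (X1 w)) =ᶠ[𝓝 z] X1 := by
    filter_upwards [hV.mem_nhds hz] with w hw
    rw [e1]; exact (hX w hw).symm
  have h2 := pd_congr h1 j
  rw [pd_clm L (diff_of s1), e1] at h2
  exact h2.symm

/-- the square of the component in `N`, times `l²` -/
noncomputable def QQ (l : ℝ) (N : Submodule ℝ (E m)) (F : E n → E m) : E n → ℝ :=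
  fun w => l ^ 2 * inner ℝ (pr N (F w)) (pr N (F w))

lemma QQ_smooth (l : ℝ) (N : Submodule ℝ (E m)) {F : E n → E m} (hF : ContDiffAt ℝ ∞ F z) :
    ContDiffAt ℝ ∞ (QQ l N F) z :=
  contDiffAt_const.mul ((pr_smooth N hF).inner ℝ (pr_smooth N hF))

lemma pd_QQ (l : ℝ) (N : Submodule ℝ (E m)) {F : E n → E m} (hF : ContDiffAt ℝ ∞ F z)
    (j : Fin n) : pd j (QQ l N F) z
      = l ^ 2 * pd j (fun w => (inner ℝ (pr N (F w)) (pr N (F w)) : ℝ)) z := by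
  have := pd_smul (l ^ 2) (F := fun w => (inner ℝ (pr N (F w)) (pr N (F w)) : ℝ)) (z := z)
    (diff_of ((pr_smooth N hF).inner ℝ (pr_smooth N hF))) j
  simp only [smul_eq_mul] at this
  exact this

lemma pd_sq (N : Submodule ℝ (E m)) {F : E n → E m} (hF : ContDiffAt ℝ ∞ F z)
    (j : Fin n) : pd j (fun w => (inner ℝ (pr N (F w)) (pr N (F w)) : ℝ)) z
      = 2 * inner ℝ (pr N (F z)) (pd j (fun w => pr N (F w)) z) := by
  rw [pd_inner (diff_of (pr_smooth N hF)) (diff_of (pr_smooth N hF)),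
    real_inner_comm (pr N (F z)) (pd j (fun w => pr N (F w)) z)]
  ring

/-- one half of the scalar data -/
lemma half (h : LD V X X1 X2 c l1 l2 N0) (hS : Split K1 K2 N1 N2 ξ1 ξ2 ρ)
    (hGIA : S_GIA) (hTRC : S_TRC)
    (hX1 : ∀ w ∈ V, X1 w = pr N1 (X1 w) + (inner ℝ ξ1 (X1 w) : ℝ) • ξ1)
    (hX2 : ∀ w ∈ V, X2 w = pr N2 (X2 w) + (inner ℝ ξ2 (X2 w) : ℝ) • ξ2)
    (h2 : ∀ z ∈ V, ∀ u, l1 * inner ℝ (pr N1 (X1 z)) (fderiv ℝ (fun w => pr N1 (X1 w)) z u)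
      = - (l1 * inner ℝ ξ1 (X1 z) + ρ * (l2 * inner ℝ ξ2 (X2 z))) * fderiv ℝ (sc ξ1 X1) z u)
    (hSP : ∀ z ∈ V, SP X (fun w => pr N1 (X1 w)) (fun w => pr N2 (X2 w)) (sc ξ1 X1) (sc ξ2 X2)
      N1 N2 ξ1 ξ2 z) (hz : z ∈ V) :
    (∀ j, pd j (QQ l1 N1 X1) z = -2 * (sc (l1 • ξ1) X1 z + ρ * sc (l2 • ξ2) X2 z)
      * pd j (sc (l1 • ξ1) X1) z) ∧
    QQ l1 N1 X1 z = l1 * CC n l1 l2 N0 - (l1 - l2) * tt X X1 X2 z
      - sc (l1 • ξ1) X1 z * (sc (l1 • ξ1) X1 z + ρ * sc (l2 • ξ2) X2 z) ∧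
    4 * QQ l1 N1 X1 z * (l1 ^ 2 * (CC n l1 l2 N0 - ((finrank ℝ N1 : ℝ) - 1) - tt X X1 X2 z)
      - gin X (sc (l1 • ξ1) X1) (sc (l1 • ξ1) X1) z) = gin X (QQ l1 N1 X1) (QQ l1 N1 X1) z := by
  have s1 := h.s1 z hz
  refine ⟨fun j => ?_, ?_, ?_⟩
  · have e := h2 z hz (EuclideanSpace.single j 1)
    have e1 : fderiv ℝ (fun w => pr N1 (X1 w)) z (EuclideanSpace.single j 1)
      = pd j (fun w => pr N1 (X1 w)) z := rfl
    have e2 : fderiv ℝ (sc ξ1 X1) z (EuclideanSpace.single j 1) = pd j (sc ξ1 X1) z := rfl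
    rw [e1, e2] at e
    rw [pd_QQ l1 N1 s1, pd_sq N1 s1, pd_sc_smul l1 ξ1 s1, sc_smul, sc_smul]
    unfold sc at e ⊢
    linear_combination (2 * l1) * e
  · obtain ⟨_, g2⟩ := hGIA n m V X X1 X2 c l1 l2 N0 h z hz
    have e1 : (inner ℝ (X1 z) (X1 z) : ℝ)
        = inner ℝ (pr N1 (X1 z)) (pr N1 (X1 z)) + inner ℝ ξ1 (X1 z) * inner ℝ ξ1 (X1 z) := by
      conv_lhs => rw [hX1 z hz]
      exact self hS (pr_mem _ _) (pr_mem _ _) _ _
    have e2 : (inner ℝ (X1 z) (X2 z) : ℝ) = ρ * (inner ℝ ξ1 (X1 z) * inner ℝ ξ2 (X2 z)) := by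
      conv_lhs => rw [hX1 z hz, hX2 z hz]
      exact mix hS (pr_mem _ _) (pr_mem _ _) _ _
    unfold zz at g2
    rw [e1, e2] at g2
    rw [sc_smul, sc_smul]
    unfold QQ sc
    linear_combination g2
  · obtain ⟨g1, _⟩ := hGIA n m V X X1 X2 c l1 l2 N0 h z hz
    have t := hTRC n m X _ _ _ _ N1 N2 ξ1 ξ2 z (diff_of (h.sX hz)) (hSP z hz)
    have e1 : tr X X1 X1 z = tr X (fun w => pr N1 (X1 w)) (fun w => pr N1 (X1 w)) z
        + gin X (sc ξ1 X1) (sc ξ1 X1) z := by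
      unfold tr gin
      rw [← Finset.sum_add_distrib]
      refine Finset.sum_congr rfl fun i _ => ?_
      rw [← Finset.sum_add_distrib]
      refine Finset.sum_congr rfl fun j _ => ?_
      have e : (inner ℝ (pd i X1 z) (pd j X1 z) : ℝ)
          = inner ℝ (pr N1 (pd i X1 z)) (pr N1 (pd j X1 z))
            + inner ℝ ξ1 (pd i X1 z) * inner ℝ ξ1 (pd j X1 z) := by
        conv_lhs => rw [pd_dec h.op hX1 s1 hz i, pd_dec h.op hX1 s1 hz j]
        exact self hS (pr_mem _ _) (pr_mem _ _) _ _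
      rw [e, pd_pr N1 s1, pd_pr N1 s1, pd_sc ξ1 s1, pd_sc ξ1 s1]
      ring
    have e2 : gin X (sc (l1 • ξ1) X1) (sc (l1 • ξ1) X1) z
        = l1 ^ 2 * gin X (sc ξ1 X1) (sc ξ1 X1) z := by
      unfold gin
      rw [Finset.mul_sum]
      refine Finset.sum_congr rfl fun i _ => ?_
      rw [Finset.mul_sum]
      refine Finset.sum_congr rfl fun j _ => ?_
      rw [pd_sc_smul l1 ξ1 s1, pd_sc_smul l1 ξ1 s1]
      ring
    have e3 : gin X (QQ l1 N1 X1) (QQ l1 N1 X1) z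
        = l1 ^ 4 * gin X (fun w => (inner ℝ (pr N1 (X1 w)) (pr N1 (X1 w)) : ℝ))
          (fun w => (inner ℝ (pr N1 (X1 w)) (pr N1 (X1 w)) : ℝ)) z := by
      unfold gin
      rw [Finset.mul_sum]
      refine Finset.sum_congr rfl fun i _ => ?_
      rw [Finset.mul_sum]
      refine Finset.sum_congr rfl fun j _ => ?_
      rw [pd_QQ l1 N1 s1, pd_QQ l1 N1 s1]
      ring
    rw [e2, e3, ← t]
    rw [e1] at g1
    unfold QQ
    linear_combination (4 * l1 ^ 4 * inner ℝ (pr N1 (X1 z)) (pr N1 (X1 z))) * (-g1)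

end

end ONEaux

open ONEaux

theorem t_ONE : M_ONE := by
  intro hGIA hGIB hTRC hQDF hSPP n m V X X1 X2 c l1 l2 N0 K1 K2 N1 N2 ξ1 ξ2 ρ κ h hne hT1 hT2 hS
    hdim hnz
  -- the open set where both components are not zero
  obtain ⟨a, ha, ha0⟩ := (Submodule.ne_bot_iff N1).1 hS.b1
  obtain ⟨b, hb, hb0⟩ := (Submodule.ne_bot_iff N2).1 hS.b2
  have haK : a ∈ K1 := by rw [hS.k1]; exact Submodule.mem_sup_left ha
  have hbK : b ∈ K2 := by rw [hS.k2]; exact Submodule.mem_sup_left hb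
  set V1 : Set (E n) := {w | w ∈ V ∧ sc a X1 w ≠ 0} with hV1
  have oV1 : IsOpen V1 := open_ne h.op fun w hw => sc_smooth a (h.s1 w hw)
  have V1ne : V1.Nonempty := by
    by_contra hcon
    rw [Set.not_nonempty_iff_eq_empty] at hcon
    refine ha0 (hT1.dense V subset_rfl h.op hne a haK fun w hw => ?_)
    by_contra h0
    have : w ∈ V1 := ⟨hw, h0⟩
    rw [hcon] at this
    exact this
  have V1V : V1 ⊆ V := fun w hw => hw.1
  set V2 : Set (E n) := {w | w ∈ V1 ∧ sc b X2 w ≠ 0} with hV2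
  have oV2 : IsOpen V2 := open_ne oV1 fun w hw => sc_smooth b (h.s2 w (V1V hw))
  have V2ne : V2.Nonempty := by
    by_contra hcon
    rw [Set.not_nonempty_iff_eq_empty] at hcon
    refine hb0 (hT2.dense V1 V1V oV1 V1ne b hbK fun w hw => ?_)
    by_contra h0
    have : w ∈ V2 := ⟨hw, h0⟩
    rw [hcon] at this
    exact this
  have V2V : V2 ⊆ V := fun w hw => hw.1.1
  have hP1 : ∀ w ∈ V2, pr N1 (X1 w) ≠ 0 := by
    intro w hw h0
    apply hw.1.2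
    show (inner ℝ a (X1 w) : ℝ) = 0
    rw [real_inner_comm, ← inner_pr N1 _ a ha, h0, inner_zero_left]
  have hP2 : ∀ w ∈ V2, pr N2 (X2 w) ≠ 0 := by
    intro w hw h0
    apply hw.2
    show (inner ℝ b (X2 w) : ℝ) = 0
    rw [real_inner_comm, ← inner_pr N2 _ b hb, h0, inner_zero_left]
  have hL : LD V2 X X1 X2 c l1 l2 N0 := h.mono oV2 V2V
  have m1 : ∀ w ∈ V2, X1 w ∈ K1 := fun w hw => hT1.mem w (V2V hw)
  have m2 : ∀ w ∈ V2, X2 w ∈ K2 := fun w hw => hT2.mem w (V2V hw)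
  obtain ⟨x1, y1, i1, sp1⟩ := hSPP n m V2 X X1 X2 c l1 l2 N0 K1 K2 N1 N2 ξ1 ξ2 ρ hL m1 m2 hS hdim
  obtain ⟨x2, y2, i2, sp2⟩ := hSPP n m V2 X X2 X1 c l2 l1 N0 K2 K1 N2 N1 ξ2 ξ1 ρ hL.symm m2 m1
    hS.symm (by rw [add_comm]; exact hdim)
  have hA := fun z (hz : z ∈ V2) => half hL hS hGIA hTRC x1 x2 y1
    (fun z hz => sp1 z hz (hP1 z hz) (hP2 z hz)) hz
  have hB := fun z (hz : z ∈ V2) => half hL.symm hS.symm hGIA hTRC x2 x1 y2
    (fun z hz => sp2 z hz (hP2 z hz) (hP1 z hz)) hz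
  simp only [tt_comm X X1 X2] at hB
  obtain ⟨st, hG⟩ := hGIB n m V2 X X1 X2 c l1 l2 N0 hL
  have hD : l1 - l2 ≠ 0 := sub_ne_zero.2 h.ne
  have hnz2 : ∀ z ∈ V2, pd κ (tt X X1 X2) z ≠ 0 := fun z hz => hnz z (V2V hz)
  -- the gradient of tt
  have g4 : ∀ z ∈ V2, ∀ j, (l1 - l2) * pd j (tt X X1 X2) z
      = ρ * (sc (l2 • ξ2) X2 z * pd j (sc (l1 • ξ1) X1) z
        - sc (l1 • ξ1) X1 z * pd j (sc (l2 • ξ2) X2) z) := by
    intro z hz j
    have e := (hG z hz).2.2 j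
    have s1 := hL.s1 z hz
    have s2 := hL.s2 z hz
    have e1 : (inner ℝ (X2 z) (pd j X1 z) : ℝ)
        = ρ * (inner ℝ ξ1 (pd j X1 z) * inner ℝ ξ2 (X2 z)) := by
      rw [real_inner_comm]
      conv_lhs => rw [x2 z hz, pd_dec oV2 x1 s1 hz j]
      exact mix hS (pr_mem _ _) (pr_mem _ _) _ _
    have e2 : (inner ℝ (X1 z) (pd j X2 z) : ℝ)
        = ρ * (inner ℝ ξ1 (X1 z) * inner ℝ ξ2 (pd j X2 z)) := by
      conv_lhs => rw [x1 z hz, pd_dec oV2 x2 s2 hz j]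
      exact mix hS (pr_mem _ _) (pr_mem _ _) _ _
    rw [e, e1, e2, pd_sc_smul l1 ξ1 s1, pd_sc_smul l2 ξ2 s2, sc_smul, sc_smul, pd_sc ξ1 s1,
      pd_sc ξ2 s2]
    unfold sc
    ring
  have par : ∀ z ∈ V2, ∀ i j, pd i (sc (l1 • ξ1) X1) z * pd j (sc (l2 • ξ2) X2) z
      = pd j (sc (l1 • ξ1) X1) z * pd i (sc (l2 • ξ2) X2) z := by
    intro z hz i j
    have e := (sp1 z hz (hP1 z hz) (hP2 z hz)).par (EuclideanSpace.single i 1)
      (EuclideanSpace.single j 1)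
    have e' : pd i (sc ξ1 X1) z * pd j (sc ξ2 X2) z = pd j (sc ξ1 X1) z * pd i (sc ξ2 X2) z := e
    rw [pd_sc_smul l1 ξ1 (hL.s1 z hz), pd_sc_smul l2 ξ2 (hL.s2 z hz),
      pd_sc_smul l1 ξ1 (hL.s1 z hz), pd_sc_smul l2 ξ2 (hL.s2 z hz)]
    linear_combination (l1 * l2) * e'
  refine hQDF n m V2 X κ (tt X X1 X2) (sc (l1 • ξ1) X1) (sc (l2 • ξ2) X2) (QQ l1 N1 X1)
    (QQ l2 N2 X2) l1 l2 ((finrank ℝ N1 : ℝ) - 1) ((finrank ℝ N2 : ℝ) - 1)
    (CC n l1 l2 N0 - ((finrank ℝ N1 : ℝ) - 1)) (CC n l2 l1 N0 - ((finrank ℝ N2 : ℝ) - 1)) ρ V2ne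
    { op := oV2
      sX := fun z hz => hL.sX hz
      imm := hL.imm
      st := st
      sφ := fun z hz => sc_smooth _ (hL.s1 z hz)
      sψ := fun z hz => sc_smooth _ (hL.s2 z hz)
      sQ1 := fun z hz => QQ_smooth _ _ (hL.s1 z hz)
      sQ2 := fun z hz => QQ_smooth _ _ (hL.s2 z hz)
      nz := hnz2
      dφ := ?_
      dψ := ?_
      g4 := g4
      lt := ?_
      lφ := fun z hz => eu hL hz _
      lψ := fun z hz => eu hL.symm hz _
      gt := ?_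
      dQ1 := fun z hz j => (hA z hz).1 j
      dQ2 := fun z hz j => (hB z hz).1 j
      eQ1 := ?_
      eQ2 := ?_
      tr1 := fun z hz => (hA z hz).2.2
      tr2 := fun z hz => (hB z hz).2.2
      pos1 := ?_
      pos2 := ?_
      sum := ?_
      ne := h.ne
      ne1 := h.ne1
      ne2 := h.ne2 }
  · intro z hz j
    have h0 := hnz2 z hz
    show pd j (sc (l1 • ξ1) X1) z = pd κ (sc (l1 • ξ1) X1) z / pd κ (tt X X1 X2) z
      * pd j (tt X X1 X2) z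
    rw [div_mul_eq_mul_div, eq_div_iff h0]
    apply mul_left_cancel₀ hD
    linear_combination pd j (sc (l1 • ξ1) X1) z * g4 z hz κ - pd κ (sc (l1 • ξ1) X1) z * g4 z hz j
      + (ρ * sc (l1 • ξ1) X1 z) * par z hz κ j
  · intro z hz j
    have h0 := hnz2 z hz
    show pd j (sc (l2 • ξ2) X2) z = pd κ (sc (l2 • ξ2) X2) z / pd κ (tt X X1 X2) z
      * pd j (tt X X1 X2) z
    rw [div_mul_eq_mul_div, eq_div_iff h0]
    apply mul_left_cancel₀ hD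
    linear_combination pd j (sc (l2 • ξ2) X2) z * g4 z hz κ - pd κ (sc (l2 • ξ2) X2) z * g4 z hz j
      + (ρ * sc (l2 • ξ2) X2 z) * par z hz κ j
  · intro z hz
    rw [(hG z hz).1]
    have e2 : (inner ℝ (X1 z) (X2 z) : ℝ) = ρ * (inner ℝ ξ1 (X1 z) * inner ℝ ξ2 (X2 z)) := by
      conv_lhs => rw [x1 z hz, x2 z hz]
      exact mix hS (pr_mem _ _) (pr_mem _ _) _ _
    rw [sc_smul, sc_smul]
    unfold zz sc
    rw [e2]
    ring
  · intro z hz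
    have s1 := hL.s1 z hz
    have s2 := hL.s2 z hz
    have e : tt X X1 X2 z = ρ * gin X (sc ξ1 X1) (sc ξ2 X2) z := by
      unfold tt tr gin
      rw [Finset.mul_sum]
      refine Finset.sum_congr rfl fun i _ => ?_
      rw [Finset.mul_sum]
      refine Finset.sum_congr rfl fun j _ => ?_
      have e : (inner ℝ (pd i X1 z) (pd j X2 z) : ℝ)
          = ρ * (inner ℝ ξ1 (pd i X1 z) * inner ℝ ξ2 (pd j X2 z)) := by
        conv_lhs => rw [pd_dec oV2 x1 s1 hz i, pd_dec oV2 x2 s2 hz j]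
        exact mix hS (pr_mem _ _) (pr_mem _ _) _ _
      rw [e, pd_sc ξ1 s1, pd_sc ξ2 s2]
      ring
    have e2 : gin X (sc (l1 • ξ1) X1) (sc (l2 • ξ2) X2) z
        = l1 * l2 * gin X (sc ξ1 X1) (sc ξ2 X2) z := by
      unfold gin
      rw [Finset.mul_sum]
      refine Finset.sum_congr rfl fun i _ => ?_
      rw [Finset.mul_sum]
      refine Finset.sum_congr rfl fun j _ => ?_
      rw [pd_sc_smul l1 ξ1 s1, pd_sc_smul l2 ξ2 s2]
      ring
    rw [e, e2]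
    ring
  · intro z hz
    rw [(hA z hz).2.1]
    ring
  · intro z hz
    rw [(hB z hz).2.1]
    ring
  · intro z hz
    exact mul_ne_zero (pow_ne_zero 2 h.ne1) (inner_self_ne_zero.2 (hP1 z hz))
  · intro z hz
    exact mul_ne_zero (pow_ne_zero 2 h.ne2) (inner_self_ne_zero.2 (hP2 z hz))
  · have e1 := CC_add (n := n) N0 h.ne
    have e2 : (finrank ℝ N1 : ℝ) + finrank ℝ N2 = n + 1 := by exact_mod_cast hdim
    linarith

end Pool.Agent.CMX
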