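import Pool.Agent.CMX.St

set_option autoImplicit false

open scoped Manifold ContDiff Topology
open Module

namespace Pool.Agent.CMX

open Pool.Agent.Lib_helper91.CMC2 Pool.Agent.Lib_helper25.DA Pool.Agent.PLC
open Pool.Agent.Lib_helper91.CMC2.LD (yv)

namespace POLaux

variable {n : ℕ} {V : Set (E n)} {κ : Fin n} {t : E n → ℝ}

lemma lin (hV : IsOpen V) (ht : SV V t) (h0 : ∀ z ∈ V, pd κ t z ≠ 0) (a b : ℝ)
    (h : ∀ z ∈ V, a * t z + b = 0) {z : E n} (hz : z ∈ V) : a = 0 := by
  have h1 : der κ t (fun w => a * t w + b) z = der κ t (fun _ => (0 : ℝ)) z :=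
    der_congr_on hV h hz
  rw [der_const, der_add (f := fun w => a * t w) (g := fun _ => b)
    (contDiffAt_const.mul (ht z hz)) contDiffAt_const, der_const,
    der_mul (f := fun _ => a) (g := t) contDiffAt_const (ht z hz), der_const,
    der_self (h0 z hz)] at h1
  linarith

lemma quad (hV : IsOpen V) (ht : SV V t) (h0 : ∀ z ∈ V, pd κ t z ≠ 0) (a b c : ℝ)
    (h : ∀ z ∈ V, a * (t z * t z) + (b * t z + c) = 0) {z : E n} (hz : z ∈ V) : a = 0 := by
  have h2 : ∀ z ∈ V, (2 * a) * t z + b = 0 := by
    intro z hz
    have h1 : der κ t (fun w => a * (t w * t w) + (b * t w + c)) z =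
      der κ t (fun _ => (0 : ℝ)) z := der_congr_on hV h hz
    have s1 := ht z hz
    rw [der_const, der_add (f := fun w => a * (t w * t w)) (g := fun w => b * t w + c)
      (contDiffAt_const.mul (s1.mul s1)) ((contDiffAt_const.mul s1).add contDiffAt_const),
      der_add (f := fun w => b * t w) (g := fun _ => c)
      (contDiffAt_const.mul s1) contDiffAt_const, der_const,
      der_mul (f := fun _ => a) (g := fun w => t w * t w) contDiffAt_const (s1.mul s1), der_const,
      der_mul (f := fun _ => b) (g := t) contDiffAt_const s1, der_const,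
      der_mul (f := t) (g := t) s1 s1, der_self (h0 z hz)] at h1
    linarith
  have := lin hV ht h0 (2 * a) b h2 hz
  linarith

lemma cube (hV : IsOpen V) (ht : SV V t) (h0 : ∀ z ∈ V, pd κ t z ≠ 0) (a b c d : ℝ)
    (h : ∀ z ∈ V, a * (t z * (t z * t z)) + (b * (t z * t z) + (c * t z + d)) = 0)
    {z : E n} (hz : z ∈ V) : a = 0 := by
  have h2 : ∀ z ∈ V, (3 * a) * (t z * t z) + ((2 * b) * t z + c) = 0 := by
    intro z hz
    have h1 : der κ t (fun w => a * (t w * (t w * t w)) + (b * (t w * t w) + (c * t w + d))) z =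
      der κ t (fun _ => (0 : ℝ)) z := der_congr_on hV h hz
    have s1 := ht z hz
    have s2 : ContDiffAt ℝ ∞ (fun w => t w * t w) z := s1.mul s1
    rw [der_const, der_add (f := fun w => a * (t w * (t w * t w)))
      (g := fun w => b * (t w * t w) + (c * t w + d))
      (contDiffAt_const.mul (s1.mul s2))
      ((contDiffAt_const.mul s2).add ((contDiffAt_const.mul s1).add contDiffAt_const)),
      der_add (f := fun w => b * (t w * t w)) (g := fun w => c * t w + d)
      (contDiffAt_const.mul s2) ((contDiffAt_const.mul s1).add contDiffAt_const),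
      der_add (f := fun w => c * t w) (g := fun _ => d)
      (contDiffAt_const.mul s1) contDiffAt_const, der_const,
      der_mul (f := fun _ => a) (g := fun w => t w * (t w * t w)) contDiffAt_const (s1.mul s2),
      der_const,
      der_mul (f := fun _ => b) (g := fun w => t w * t w) contDiffAt_const s2, der_const,
      der_mul (f := fun _ => c) (g := t) contDiffAt_const s1, der_const,
      der_mul (f := t) (g := fun w => t w * t w) s1 s2,
      der_mul (f := t) (g := t) s1 s1, der_self (h0 z hz)] at h1
    linarith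
  have := quad hV ht h0 (3 * a) (2 * b) c h2 hz
  linarith

end POLaux

theorem t_POL : S_POL := by
  intro n V κ t A k2 k1 k0 hV hne ht h0 h
  obtain ⟨z, hz⟩ := hne
  refine POLaux.cube hV ht h0 A k2 k1 k0 (fun w hw => ?_) hz
  have := h w hw
  linarith [this, (by ring : A * t w ^ 3 = A * (t w * (t w * t w))),
    (by ring : k2 * t w ^ 2 = k2 * (t w * t w))]

end Pool.Agent.CMX
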