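import Pool.Agent.CMX.St

/-!
# Module QDF: the scalar system has no solution
-/

set_option autoImplicit false

open scoped Manifold ContDiff Topology
open Module

namespace Pool.Agent.CMX

open Pool.Agent.Lib_helper91.CMC2 Pool.Agent.Lib_helper25.DA Pool.Agent.PLC
open Pool.Agent.Lib_helper91.CMC2.LD (yv)

namespace QDFaux

variable {n m : ℕ}

/-- the product of gradients which are multiples of other gradients -/
theorem gin_smul {X : E n → E m} {F F' G G' : E n → ℝ} {c d : ℝ} {z : E n}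
    (hF : ∀ j, pd j F z = c * pd j F' z) (hG : ∀ j, pd j G z = d * pd j G' z) :
    gin X F G z = c * d * gin X F' G' z := by
  unfold gin
  rw [Finset.mul_sum]
  refine Finset.sum_congr rfl fun i _ => ?_
  rw [Finset.mul_sum]
  refine Finset.sum_congr rfl fun j _ => ?_
  rw [hF, hG]
  ring

/-- the derivative of a constant multiple -/
theorem der_smul {k : Fin n} {u f : E n → ℝ} {z : E n} (c : ℝ) (hf : ContDiffAt ℝ ∞ f z) :
    der k u (fun w => c * f w) z = c * der k u f z := by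
  rw [der_mul (f := fun _ => c) contDiffAt_const hf, der_const]
  ring

/-- the first half of the system -/
theorem half (hA : S_ALA) {V : Set (E n)} {X : E n → E m} {κ : Fin n} {t φ ψ Q : E n → ℝ}
    {l1 l2 a c1 ρ : ℝ} (op : IsOpen V) (st : SV V t) (sφ : SV V φ) (sψ : SV V ψ) (sQ : SV V Q)
    (nz : ∀ z ∈ V, pd κ t z ≠ 0) (dφ : Dep V κ t φ) (dψ : Dep V κ t ψ)
    (lt : ∀ z ∈ V, lap X t z = ρ * (φ z * ψ z)) (lφ : ∀ z ∈ V, lap X φ z = l1 * φ z)
    (lψ : ∀ z ∈ V, lap X ψ z = l2 * ψ z) (gt : ∀ z ∈ V, ρ * gin X φ ψ z = l1 * l2 * t z)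
    (dQ : ∀ z ∈ V, ∀ j, pd j Q z = -2 * (φ z + ρ * ψ z) * pd j φ z)
    (eQ : ∀ z ∈ V, Q z = l1 * (a + c1) - (l1 - l2) * t z - φ z * (φ z + ρ * ψ z))
    (tr : ∀ z ∈ V, 4 * Q z * (l1 ^ 2 * (c1 - t z) - gin X φ φ z) = gin X Q Q z)
    (pos : ∀ z ∈ V, Q z ≠ 0) (h1 : l1 ≠ 0) (h2 : l2 ≠ 0) :
    ∀ z ∈ V, (l1 * (a + c1) - (l1 - l2) * t z) * (2 * l2 * t z * (ρ * (ψ z * der κ t φ z))
      + (c1 - t z) * (l1 * l2 + l1 * (ρ * (φ z * der κ t ψ z)) + l2 * (ρ * (ψ z * der κ t φ z)))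
      + l1 * l2 * t z)
    = 2 * l1 * a * (l2 * t z * (ρ * (ψ z * der κ t φ z))
      + l1 * (c1 - t z) * (ρ * (φ z * der κ t ψ z))) := by
  have sφ1 : SV V (der κ t φ) := sφ.derv st nz
  have sψ1 : SV V (der κ t ψ) := sψ.derv st nz
  -- pointwise relations
  have e1 : ∀ z ∈ V, ρ * (gin X t t z * der κ t φ z * der κ t ψ z) = l1 * l2 * t z := by
    intro z hz
    rw [← gt z hz, gin_smul (fun j => dφ z hz j) (fun j => dψ z hz j)]
    ring
  have e2 : ∀ z ∈ V, gin X t t z * der κ t (der κ t φ) z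
      = ρ * (φ z * ψ z) * der κ t φ z - l1 * φ z := by
    intro z hz
    have h := lap_dep (X := X) op dφ sφ st nz hz
    rw [lφ z hz, lt z hz] at h
    linear_combination h
  have e3 : ∀ z ∈ V, gin X t t z * der κ t (der κ t ψ) z
      = ρ * (φ z * ψ z) * der κ t ψ z - l2 * ψ z := by
    intro z hz
    have h := lap_dep (X := X) op dψ sψ st nz hz
    rw [lψ z hz, lt z hz] at h
    linear_combination h
  have e5 : ∀ z ∈ V, (Q z + (φ z + ρ * ψ z) ^ 2) * der κ t φ z ^ 2 * gin X t t z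
      = l1 ^ 2 * Q z * (c1 - t z) := by
    intro z hz
    have h := tr z hz
    have hQ : ∀ j, pd j Q z = (-2 * (φ z + ρ * ψ z) * der κ t φ z) * pd j t z := by
      intro j
      rw [dQ z hz j, dφ z hz j]
      ring
    rw [gin_smul (fun j => dφ z hz j) (fun j => dφ z hz j), gin_smul hQ hQ] at h
    linear_combination (-1 / 4 : ℝ) * h
  -- the function `F` vanishes
  have eF : ∀ z ∈ V, l2 * ((t z * der κ t φ z) * (Q z + (φ z + ρ * ψ z) * (φ z + ρ * ψ z))) -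
      (l1 * ρ) * ((Q z * (c1 - t z)) * der κ t ψ z) = 0 := by
    intro z hz
    have a1 := e1 z hz
    have a5 := e5 z hz
    have h : l1 * (l2 * ((t z * der κ t φ z) * (Q z + (φ z + ρ * ψ z) * (φ z + ρ * ψ z))) -
      (l1 * ρ) * ((Q z * (c1 - t z)) * der κ t ψ z)) = 0 := by
      linear_combination (ρ * der κ t ψ z) * a5 -
        ((Q z + (φ z + ρ * ψ z) ^ 2) * der κ t φ z) * a1
    exact (mul_eq_zero.1 h).resolve_left h1
  intro z hz
  -- the derivative of `F`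
  have sg : SV V (fun w => φ w + ρ * ψ w) := sφ.add ((SV.const ρ).mul sψ)
  have sS : SV V (fun w => Q w + (φ w + ρ * ψ w) * (φ w + ρ * ψ w)) := sQ.add (sg.mul sg)
  have sT : SV V (fun w => t w * der κ t φ w) := st.mul sφ1
  have sc : SV V (fun w => c1 - t w) := (SV.const c1).sub st
  have sW : SV V (fun w => Q w * (c1 - t w)) := sQ.mul sc
  have hdQ : der κ t Q z = -2 * (φ z + ρ * ψ z) * der κ t φ z := by
    unfold der
    rw [dQ z hz κ]
    ring
  have hdg : der κ t (fun w => φ w + ρ * ψ w) z = der κ t φ z + ρ * der κ t ψ z := by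
    rw [der_add (sφ z hz) (((SV.const ρ).mul sψ) z hz), der_smul ρ (sψ z hz)]
  have hdS : der κ t (fun w => Q w + (φ w + ρ * ψ w) * (φ w + ρ * ψ w)) z =
      der κ t Q z + 2 * (φ z + ρ * ψ z) * (der κ t φ z + ρ * der κ t ψ z) := by
    rw [der_add (sQ z hz) ((sg.mul sg) z hz), der_mul (sg z hz) (sg z hz), hdg]
    ring
  have hdT : der κ t (fun w => t w * der κ t φ w) z =
      der κ t φ z + t z * der κ t (der κ t φ) z := by
    rw [der_mul (st z hz) (sφ1 z hz), der_self (nz z hz)]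
    ring
  have hdc : der κ t (fun w => c1 - t w) z = -1 := by
    rw [der_sub (f := fun _ => c1) contDiffAt_const (st z hz), der_const, der_self (nz z hz)]
    ring
  have hdW : der κ t (fun w => Q w * (c1 - t w)) z = der κ t Q z * (c1 - t z) - Q z := by
    rw [der_mul (sQ z hz) (sc z hz), hdc]
    ring
  have hdF := der_congr_on (k := κ) (u := t) (g := fun _ => (0 : ℝ)) op eF hz
  rw [der_const, der_sub (((SV.const l2).mul (sT.mul sS)) z hz)
    (((SV.const (l1 * ρ)).mul (sW.mul sψ1)) z hz), der_smul l2 ((sT.mul sS) z hz),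
    der_smul (l1 * ρ) ((sW.mul sψ1) z hz), der_mul (sT z hz) (sS z hz),
    der_mul (sW z hz) (sψ1 z hz), hdS, hdT, hdW, hdQ] at hdF
  refine hA l1 l2 a c1 ρ (t z) (φ z) (ψ z) (der κ t φ z) (der κ t ψ z)
    (der κ t (der κ t φ) z) (der κ t (der κ t ψ) z) (gin X t t z) (Q z) h1 h2 (pos z hz)
    (e1 z hz) (e2 z hz) (e3 z hz) (eQ z hz) (e5 z hz) ?_
  linear_combination hdF

end QDFaux

open QDFaux in
theorem t_QDF : M_QDF := by
  intro hA hB hP n m V X κ t φ ψ Q1 Q2 l1 l2 a b c1 c2 ρ hV h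
  have H1 := half hA h.op h.st h.sφ h.sψ h.sQ1 h.nz h.dφ h.dψ h.lt h.lφ h.lψ h.gt h.dQ1 h.eQ1
    h.tr1 h.pos1 h.ne1 h.ne2
  have H2 := half (a := b) (c1 := c2) (ρ := ρ) hA h.op h.st h.sψ h.sφ h.sQ2 h.nz h.dψ h.dφ
    (fun z hz => by rw [h.lt z hz]; ring) h.lψ h.lφ
    (fun z hz => by rw [gin_comm, h.gt z hz]; ring) h.dQ2
    (fun z hz => by rw [h.eQ2 z hz]; ring) h.tr2 h.pos2 h.ne2 h.ne1
  obtain ⟨k0, k1, k2, hk⟩ := hB l1 l2 a b c1 c2 h.sum
  have h0 := hP n V κ t (3 * l1 * l2 * (l1 - l2) ^ 3) k2 k1 k0 h.op hV h.st h.nz (by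
    intro z hz
    refine hk (t z) (ρ * (ψ z * der κ t φ z)) (ρ * (φ z * der κ t ψ z)) ?_ (H1 z hz) (H2 z hz)
    have h4 := h.g4 z hz κ
    have h5 := h.nz z hz
    unfold der
    field_simp
    linear_combination -h4)
  have h3 : l1 - l2 ≠ 0 := sub_ne_zero.2 h.ne
  exact (mul_ne_zero (mul_ne_zero (mul_ne_zero (by norm_num) h.ne1) h.ne2) (pow_ne_zero 3 h3)) h0

end Pool.Agent.CMX
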