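import Pool.Agent.CMX.St

set_option autoImplicit false

open scoped Manifold ContDiff Topology
open Module

namespace Pool.Agent.CMX

open Pool.Agent.Lib_helper91.CMC2 Pool.Agent.Lib_helper25.DA Pool.Agent.PLC
open Pool.Agent.Lib_helper91.CMC2.LD (yv)

namespace SPPaux

theorem pr_self {m : ℕ} {N : Submodule ℝ (E m)} {a : E m} (ha : a ∈ N) : pr N a = a := by
  have h1 : pr N a - a ∈ N := N.sub_mem (pr_mem N a) ha
  have h2 : inner ℝ (pr N a - a) (pr N a - a) = (0 : ℝ) := by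
    rw [inner_sub_left, inner_pr N a _ h1, sub_self]
  exact sub_eq_zero.1 (inner_self_eq_zero.1 h2)

theorem dcmp {m : ℕ} {N K : Submodule ℝ (E m)} {ξ : E m} (unit : inner ℝ ξ ξ = (1 : ℝ))
    (o : ∀ a ∈ N, inner ℝ ξ a = (0 : ℝ)) (k : K = N ⊔ Submodule.span ℝ {ξ}) {v : E m}
    (hv : v ∈ K) : v = pr N v + (inner ℝ ξ v : ℝ) • ξ := by
  rw [k] at hv
  obtain ⟨a, ha, b, hb, rfl⟩ := Submodule.mem_sup.1 hv
  obtain ⟨s, rfl⟩ := Submodule.mem_span_singleton.1 hb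
  have h1 : pr N ξ = 0 := by
    rw [pr_eq_zero, Submodule.mem_orthogonal']
    exact o
  rw [map_add, map_smul, h1, smul_zero, add_zero, pr_self ha, inner_add_right, o a ha, zero_add,
    real_inner_smul_right, unit, mul_one]

variable {n m : ℕ} {z : E n}

theorem dP {F : E n → E m} (N : Submodule ℝ (E m)) (hF : DifferentiableAt ℝ F z) :
    DifferentiableAt ℝ (fun w => pr N (F w)) z ∧
      ∀ u, fderiv ℝ (fun w => pr N (F w)) z u = pr N (fderiv ℝ F z u) := by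
  have h1 : HasFDerivAt (fun w => pr N (F w))
      ((N.starProjection : E m →L[ℝ] E m).comp (fderiv ℝ F z)) z :=
    (N.starProjection : E m →L[ℝ] E m).hasFDerivAt.comp z hF.hasFDerivAt
  refine ⟨h1.differentiableAt, fun u => ?_⟩
  rw [h1.fderiv]
  rfl

theorem dS {F : E n → E m} (ξ : E m) (hF : DifferentiableAt ℝ F z) :
    DifferentiableAt ℝ (sc ξ F) z ∧
      ∀ u, fderiv ℝ (sc ξ F) z u = inner ℝ ξ (fderiv ℝ F z u) := by
  have h1 : HasFDerivAt (sc ξ F) ((pairL ξ).comp (fderiv ℝ F z)) z :=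
    (pairL ξ).hasFDerivAt.comp z hF.hasFDerivAt
  refine ⟨h1.differentiableAt, fun u => ?_⟩
  rw [h1.fderiv]
  rfl

theorem Dmem {V : Set (E n)} (hV : IsOpen V) {F : E n → E m} {K : Submodule ℝ (E m)}
    (hK : ∀ w ∈ V, F w ∈ K) (hz : z ∈ V) (hF : DifferentiableAt ℝ F z) (u : E n) :
    fderiv ℝ F z u ∈ K :=
  fderiv_mem (by filter_upwards [hV.mem_nhds hz] with w hw using hK w hw) hF u

/-- `⟨x1, dx1 u⟩` in terms of the components, and so on -/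
theorem y1 {V : Set (E n)} {X X1 X2 : E n → E m} {c : E m} {l1 l2 N0 : ℝ}
    {K1 K2 N1 N2 : Submodule ℝ (E m)} {ξ1 ξ2 : E m} {ρ : ℝ} (h : LD V X X1 X2 c l1 l2 N0)
    (h1 : ∀ w ∈ V, X1 w ∈ K1) (h2 : ∀ w ∈ V, X2 w ∈ K2) (hs : Split K1 K2 N1 N2 ξ1 ξ2 ρ)
    (hz : z ∈ V) (u : E n) :
    l1 * inner ℝ (pr N1 (X1 z)) (fderiv ℝ (fun w => pr N1 (X1 w)) z u)
      = - (l1 * inner ℝ ξ1 (X1 z) + ρ * (l2 * inner ℝ ξ2 (X2 z))) * fderiv ℝ (sc ξ1 X1) z u := by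
  have d1 := diff_of (h.s1 z hz)
  rw [(dP N1 d1).2 u, (dS ξ1 d1).2 u]
  have e0 := h.inner_y_D1 hz u
  have e1 := dcmp hs.u1 hs.o11 hs.k1 (h1 z hz)
  have e2 := dcmp hs.u2 hs.o22 hs.k2 (h2 z hz)
  have e3 := dcmp hs.u1 hs.o11 hs.k1 (Dmem h.op h1 hz d1 u)
  unfold yv at e0
  rw [inner_add_left, real_inner_smul_left, real_inner_smul_left] at e0
  have p1 := pr_mem N1 (X1 z)
  have p2 := pr_mem N2 (X2 z)
  have p3 := pr_mem N1 (fderiv ℝ X1 z u)
  generalize hx : pr N1 (X1 z) = x at *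
  generalize hy : pr N2 (X2 z) = y at *
  generalize hw : pr N1 (fderiv ℝ X1 z u) = w at *
  generalize hs' : (inner ℝ ξ1 (X1 z) : ℝ) = s at *
  generalize ht : (inner ℝ ξ2 (X2 z) : ℝ) = t at *
  generalize hr : (inner ℝ ξ1 (fderiv ℝ X1 z u) : ℝ) = r at *
  have f1 : inner ℝ (X1 z) (fderiv ℝ X1 z u) = inner ℝ x w + s * r := by
    rw [e1, e3]
    simp only [inner_add_left, inner_add_right, real_inner_smul_left, real_inner_smul_right]
    rw [real_inner_comm ξ1 x, hs.o11 x p1, hs.o11 w p3, hs.u1]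
    ring
  have f2 : inner ℝ (X2 z) (fderiv ℝ X1 z u) = t * r * ρ := by
    rw [e2, e3]
    simp only [inner_add_left, inner_add_right, real_inner_smul_left, real_inner_smul_right]
    rw [real_inner_comm ξ1 y, real_inner_comm w y, hs.o w p3 y p2, hs.o12 y p2, hs.o21 w p3,
      real_inner_comm ξ1 ξ2, hs.rho]
    ring
  rw [f1, f2] at e0
  linear_combination e0

end SPPaux

open SPPaux in
theorem t_SPP : S_SPP := by
  intro n m V X X1 X2 c l1 l2 N0 K1 K2 N1 N2 ξ1 ξ2 ρ h h1 h2 hs hdim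
  have par : ∀ z ∈ V, ∀ u v, ρ * (fderiv ℝ (sc ξ1 X1) z u * fderiv ℝ (sc ξ2 X2) z v)
      = inner ℝ (fderiv ℝ X1 z u) (fderiv ℝ X2 z v) := by
    intro z hz u v
    have d1 := diff_of (h.s1 z hz)
    have d2 := diff_of (h.s2 z hz)
    rw [(dS ξ1 d1).2 u, (dS ξ2 d2).2 v]
    have e1 := dcmp hs.u1 hs.o11 hs.k1 (Dmem h.op h1 hz d1 u)
    have e2 := dcmp hs.u2 hs.o22 hs.k2 (Dmem h.op h2 hz d2 v)
    have p1 := pr_mem N1 (fderiv ℝ X1 z u)
    have p2 := pr_mem N2 (fderiv ℝ X2 z v)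
    generalize hx : pr N1 (fderiv ℝ X1 z u) = x at *
    generalize hy : pr N2 (fderiv ℝ X2 z v) = y at *
    generalize ha : (inner ℝ ξ1 (fderiv ℝ X1 z u) : ℝ) = a at *
    generalize hb : (inner ℝ ξ2 (fderiv ℝ X2 z v) : ℝ) = b at *
    rw [e1, e2]
    simp only [inner_add_left, inner_add_right, real_inner_smul_left, real_inner_smul_right]
    rw [real_inner_comm ξ2 x, hs.o21 x p1, hs.o12 y p2, hs.o x p1 y p2, hs.rho]
    ring
  have hy1 := fun z (hz : z ∈ V) u => y1 h h1 h2 hs hz u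
  have hy2 := fun z (hz : z ∈ V) u => y1 h.symm h2 h1 hs.symm hz u
  refine ⟨fun w hw => dcmp hs.u1 hs.o11 hs.k1 (h1 w hw), hy1, par, ?_⟩
  intro z hz hz1 hz2
  have d1 := diff_of (h.s1 z hz)
  have d2 := diff_of (h.s2 z hz)
  refine ⟨(dP N1 d1).1, (dP N2 d2).1, h.imm z hz, ?_, ?_, ?_, pr_mem N1 _, pr_mem N2 _, hz1, hz2,
    hs.o, hs.o11, hs.o21, hs.o12, hs.o22, ?_, ?_, ?_, hdim⟩
  · intro u
    rw [(dP N1 d1).2 u, (dP N2 d2).2 u, (dS ξ1 d1).2 u, (dS ξ2 d2).2 u, h.fderivX hz]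
    have e1 := dcmp hs.u1 hs.o11 hs.k1 (Dmem h.op h1 hz d1 u)
    have e2 := dcmp hs.u2 hs.o22 hs.k2 (Dmem h.op h2 hz d2 u)
    calc fderiv ℝ X1 z u + fderiv ℝ X2 z u =
        (pr N1 (fderiv ℝ X1 z u) + (inner ℝ ξ1 (fderiv ℝ X1 z u) : ℝ) • ξ1) +
          (pr N2 (fderiv ℝ X2 z u) + (inner ℝ ξ2 (fderiv ℝ X2 z u) : ℝ) • ξ2) := by
          rw [← e1, ← e2]
      _ = _ := by abel
  · intro u
    rw [(dP N1 d1).2 u]
    exact pr_mem N1 _
  · intro u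
    rw [(dP N2 d2).2 u]
    exact pr_mem N2 _
  · intro u v
    have e := par z hz u v
    rw [h.iso_vec hz u v, ← par z hz v u] at e
    exact mul_left_cancel₀ hs.ne e
  · intro u hu _
    have e := hy1 z hz u
    rw [hu, mul_zero] at e
    rcases mul_eq_zero.1 e with e | e
    · exact absurd e h.ne1
    · exact e
  · intro u _ hu
    have e := hy2 z hz u
    rw [hu, mul_zero] at e
    rcases mul_eq_zero.1 e with e | e
    · exact absurd e h.ne2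
    · exact e

end Pool.Agent.CMX
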