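import Pool.Agent.CMX.St

set_option autoImplicit false

open Module

namespace Pool.Agent.CMX

open Pool.Agent.Lib_helper91.CMC2

namespace TAN

lemma ker_dim {n : ℕ} (L1 L2 : E n →ₗ[ℝ] ℝ) (par : ∀ u v, L1 u * L2 v = L1 v * L2 u) :
    n ≤ finrank ℝ (LinearMap.ker L1 ⊓ LinearMap.ker L2 : Submodule ℝ (E n)) + 1 := by
  have hn : finrank ℝ (E n) = n := by rw [finrank_euclideanSpace, Fintype.card_fin]
  have key : ∀ L : E n →ₗ[ℝ] ℝ, n ≤ finrank ℝ (LinearMap.ker L) + 1 := by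
    intro L
    have h1 := L.finrank_range_add_finrank_ker
    have h2 : finrank ℝ (LinearMap.range L) ≤ 1 := by
      have := Submodule.finrank_le (LinearMap.range L)
      rwa [finrank_self] at this
    omega
  by_cases h1 : L1 = 0
  · subst h1
    have h2 : (LinearMap.ker (0 : E n →ₗ[ℝ] ℝ) ⊓ LinearMap.ker L2 : Submodule ℝ (E n))
        = LinearMap.ker L2 := by simp
    rw [h2]; exact key L2
  · have h3 : ∃ v, L1 v ≠ 0 := by
      by_contra hc
      push Not at hc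
      exact h1 (LinearMap.ext hc)
    obtain ⟨v, hv⟩ := h3
    have h4 : (LinearMap.ker L1 ⊓ LinearMap.ker L2 : Submodule ℝ (E n)) = LinearMap.ker L1 := by
      refine inf_eq_left.2 ?_
      intro u hu
      rw [LinearMap.mem_ker] at hu ⊢
      have := par u v
      rw [hu, zero_mul] at this
      exact (mul_eq_zero.1 this.symm).resolve_left hv
    rw [h4]; exact key L1

lemma drop {m : ℕ} (N : Submodule ℝ (E m)) (p : E m) (hp : p ∈ N) (h0 : p ≠ 0) :
    finrank ℝ (N ⊓ (Submodule.span ℝ {p})ᗮ : Submodule ℝ (E m)) + 1 ≤ finrank ℝ N := by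
  have h : (N ⊓ (Submodule.span ℝ {p})ᗮ : Submodule ℝ (E m)) < N := by
    refine lt_of_le_of_ne inf_le_left ?_
    intro he
    have h1 : p ∈ (N ⊓ (Submodule.span ℝ {p})ᗮ : Submodule ℝ (E m)) := by rw [he]; exact hp
    have h2 := h1.2
    rw [SetLike.mem_coe, Submodule.mem_orthogonal_singleton_iff_inner_right] at h2
    exact h0 (inner_self_eq_zero.1 h2)
  exact Submodule.finrank_lt_finrank_of_lt h

end TAN

theorem t_TAN : S_TAN := by
  intro n m X P1 P2 f1 f2 N1 N2 ξ1 ξ2 z h b hb hb1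
  set L1 : E n →ₗ[ℝ] ℝ := (fderiv ℝ f1 z : E n →ₗ[ℝ] ℝ) with hL1
  set L2 : E n →ₗ[ℝ] ℝ := (fderiv ℝ f2 z : E n →ₗ[ℝ] ℝ) with hL2
  set D : E n →ₗ[ℝ] E m := (fderiv ℝ X z : E n →ₗ[ℝ] E m) with hD
  set K : Submodule ℝ (E n) := LinearMap.ker L1 ⊓ LinearMap.ker L2 with hK
  have hKd : n ≤ finrank ℝ K + 1 := TAN.ker_dim L1 L2 (fun u v => h.par u v)
  set A1 : Submodule ℝ (E m) := N1 ⊓ (Submodule.span ℝ {P1 z})ᗮ with hA1
  set A2 : Submodule ℝ (E m) := N2 ⊓ (Submodule.span ℝ {P2 z})ᗮ with hA2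
  have d1 : finrank ℝ A1 + 1 ≤ finrank ℝ N1 := TAN.drop N1 (P1 z) h.p1 h.z1
  have d2 : finrank ℝ A2 + 1 ≤ finrank ℝ N2 := TAN.drop N2 (P2 z) h.p2 h.z2
  have hdim := h.dim
  have hsup : finrank ℝ (A1 ⊔ A2 : Submodule ℝ (E m)) ≤ finrank ℝ A1 + finrank ℝ A2 :=
    Submodule.finrank_add_le_finrank_add_finrank A1 A2
  have hinj : Function.Injective D := h.inj
  have himg : finrank ℝ (K.map D) = finrank ℝ K :=
    LinearEquiv.finrank_eq (Submodule.equivMapOfInjective D hinj K).symm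
  have hle : K.map D ≤ A1 ⊔ A2 := by
    rintro v ⟨u, hu, rfl⟩
    have u1 : fderiv ℝ f1 z u = 0 := hu.1
    have u2 : fderiv ℝ f2 z u = 0 := hu.2
    have e1 : D u = fderiv ℝ P1 z u + fderiv ℝ P2 z u := by
      have := h.dec u
      rw [u1, u2, zero_smul, zero_smul, add_zero, add_zero] at this
      exact this
    rw [e1]
    refine Submodule.add_mem_sup ⟨h.m1 u, ?_⟩ ⟨h.m2 u, ?_⟩
    · rw [SetLike.mem_coe, Submodule.mem_orthogonal_singleton_iff_inner_right]
      exact h.y1 u u1 u2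
    · rw [SetLike.mem_coe, Submodule.mem_orthogonal_singleton_iff_inner_right]
      exact h.y2 u u1 u2
  have heq : K.map D = A1 ⊔ A2 := Submodule.eq_of_le_of_finrank_le hle (by omega)
  have hbA : b ∈ A1 := by
    refine ⟨hb, ?_⟩
    rw [SetLike.mem_coe, Submodule.mem_orthogonal_singleton_iff_inner_right, real_inner_comm]
    exact hb1
  have hbm : b ∈ K.map D := by rw [heq]; exact Submodule.mem_sup_left hbA
  obtain ⟨u, _, hu⟩ := hbm
  exact ⟨u, hu⟩

end Pool.Agent.CMX
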