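import Pool.Agent.CMX.St

/-!
# Minimal open sets for the spans of the components
-/

set_option autoImplicit false

open scoped Manifold ContDiff Topology
open Module

namespace Pool.Agent.CMX

open Pool.Agent.Lib_helper91.CMC2 Pool.Agent.Lib_helper25.DA Pool.Agent.PLC
open Pool.Agent.Lib_helper91.CMC2.LD (yv)

namespace TGTaux

theorem tight {n m : ℕ} {V : Set (E n)} {F : E n → E m}
    (h : ∀ V' : Set (E n), V' ⊆ V → IsOpen V' → V'.Nonempty →
      finrank ℝ (Submodule.span ℝ (F '' V)) ≤ finrank ℝ (Submodule.span ℝ (F '' V'))) :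
    Tight V F (Submodule.span ℝ (F '' V)) where
  mem := fun w hw => Submodule.subset_span ⟨w, hw, rfl⟩
  dense := by
    intro V' hV' ho hne a ha hort
    have h1 : Submodule.span ℝ (F '' V') = Submodule.span ℝ (F '' V) :=
      Submodule.eq_of_le_of_finrank_le (Submodule.span_mono (Set.image_mono hV'))
        (h V' hV' ho hne)
    rw [← h1] at ha
    have h2 : Submodule.span ℝ (F '' V') ≤ (Submodule.span ℝ {a})ᗮ := by
      rw [Submodule.span_le]
      rintro _ ⟨w, hw, rfl⟩
      exact Submodule.mem_orthogonal_singleton_iff_inner_right.2 (hort w hw)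
    have h3 := Submodule.mem_orthogonal_singleton_iff_inner_right.1 (h2 ha)
    exact inner_self_eq_zero.1 h3

end TGTaux

open TGTaux in
theorem t_TGT : S_TGT := by
  classical
  intro n m U F1 F2 hU hne
  have hex : ∃ d : ℕ, ∃ V : Set (E n), V ⊆ U ∧ IsOpen V ∧ V.Nonempty ∧
      finrank ℝ (Submodule.span ℝ (F1 '' V)) + finrank ℝ (Submodule.span ℝ (F2 '' V)) = d :=
    ⟨_, U, subset_rfl, hU, hne, rfl⟩
  obtain ⟨V, hVU, hVo, hVn, hVd⟩ := Nat.find_spec hex
  have hmin : ∀ V' : Set (E n), V' ⊆ V → IsOpen V' → V'.Nonempty →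
      finrank ℝ (Submodule.span ℝ (F1 '' V)) + finrank ℝ (Submodule.span ℝ (F2 '' V)) ≤
        finrank ℝ (Submodule.span ℝ (F1 '' V')) + finrank ℝ (Submodule.span ℝ (F2 '' V')) := by
    intro V' hV' ho hn
    rw [hVd]
    exact Nat.find_min' hex ⟨V', hV'.trans hVU, ho, hn, rfl⟩
  have hmono : ∀ (F : E n → E m) (V' : Set (E n)), V' ⊆ V →
      finrank ℝ (Submodule.span ℝ (F '' V')) ≤ finrank ℝ (Submodule.span ℝ (F '' V)) :=
    fun F V' hV' => Submodule.finrank_mono (Submodule.span_mono (Set.image_mono hV'))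
  refine ⟨V, hVU, hVo, hVn, _, _, tight (F := F1) fun V' hV' ho hn => ?_,
    tight (F := F2) fun V' hV' ho hn => ?_, Submodule.span_mono (Set.image_mono hVU),
    Submodule.span_mono (Set.image_mono hVU)⟩
  · have h1 := hmin V' hV' ho hn
    have h2 := hmono F2 V' hV'
    omega
  · have h1 := hmin V' hV' ho hn
    have h2 := hmono F1 V' hV'
    omega

end Pool.Agent.CMX
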