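import Pool.Agent.CMX.St

/-!
# CMX, module TRB: trace in an orthogonal basis
-/

set_option autoImplicit false

open scoped Manifold ContDiff Topology
open Module

namespace Pool.Agent.CMX

open Pool.Agent.Lib_helper91.CMC2 Pool.Agent.Lib_helper25.DA Pool.Agent.PLC
open Pool.Agent.Lib_helper91.CMC2.LD (yv)

namespace TRBaux

lemma expand {n m : ℕ} (P Q : E n → E m) (z u v : E n) :
    (inner ℝ (fderiv ℝ P z u) (fderiv ℝ Q z v) : ℝ) =
      ∑ k, ∑ l, u k * v l * inner ℝ (pd k P z) (pd l Q z) := by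
  rw [fderiv_eq_sum P z u, fderiv_eq_sum Q z v, sum_inner]
  refine Finset.sum_congr rfl fun k _ => ?_
  rw [inner_sum]
  refine Finset.sum_congr rfl fun l _ => ?_
  rw [real_inner_smul_left, real_inner_smul_right]
  ring

end TRBaux

open TRBaux

theorem t_TRB : S_TRB := by
  intro n m X F G z b hinj hb horth
  have hε0 : ∀ i, (inner ℝ (fderiv ℝ X z (b i)) (fderiv ℝ X z (b i)) : ℝ) ≠ 0 := fun i h => by
    have h1 : fderiv ℝ X z (b i) = 0 := inner_self_eq_zero.1 h
    exact hb i (hinj (by rw [h1, map_zero]))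
  let ε : Fin n → ℝ := fun i => inner ℝ (fderiv ℝ X z (b i)) (fderiv ℝ X z (b i))
  let B : Matrix (Fin n) (Fin n) ℝ := Matrix.of fun k i => b i k
  have h1 : B.transpose * metric X z * B = Matrix.diagonal ε := by
    ext i j
    have h2 : (B.transpose * metric X z * B) i j =
        (inner ℝ (fderiv ℝ X z (b i)) (fderiv ℝ X z (b j)) : ℝ) := by
      rw [expand, Finset.sum_comm, Matrix.mul_apply]
      refine Finset.sum_congr rfl fun l _ => ?_
      rw [Matrix.mul_apply, Finset.sum_mul]
      refine Finset.sum_congr rfl fun k _ => ?_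
      change b i k * inner ℝ (pd k X z) (pd l X z) * b j l = _
      ring
    rw [h2, Matrix.diagonal_apply]
    by_cases hij : i = j
    · subst hij
      rw [if_pos rfl]
    · rw [if_neg hij, horth i j hij]
  have h3 : Matrix.diagonal (fun i => (ε i)⁻¹) * (B.transpose * metric X z) * B = 1 := by
    rw [Matrix.mul_assoc, h1, Matrix.diagonal_mul_diagonal]
    rw [← Matrix.diagonal_one]
    congr 1
    funext i
    exact inv_mul_cancel₀ (hε0 i)
  have h4 : (B * Matrix.diagonal (fun i => (ε i)⁻¹) * B.transpose) * metric X z = 1 := by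
    have h5 := mul_eq_one_comm.1 h3
    rw [← h5]
    simp only [Matrix.mul_assoc]
  have h6 : (metric X z)⁻¹ = B * Matrix.diagonal (fun i => (ε i)⁻¹) * B.transpose :=
    Matrix.inv_eq_left_inv h4
  have h7 : ∀ k l, (metric X z)⁻¹ k l = ∑ i, b i k * (ε i)⁻¹ * b i l := by
    intro k l
    rw [h6, Matrix.mul_apply]
    refine Finset.sum_congr rfl fun i _ => ?_
    rw [Matrix.mul_diagonal]
    rfl
  unfold tr
  simp only [h7, Finset.sum_mul]
  have h8 : ∀ k, ∑ l, ∑ i, b i k * (ε i)⁻¹ * b i l * inner ℝ (pd k F z) (pd l G z) =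
      ∑ i, ∑ l, b i k * (ε i)⁻¹ * b i l * (inner ℝ (pd k F z) (pd l G z) : ℝ) := fun k =>
    Finset.sum_comm
  simp only [h8]
  rw [Finset.sum_comm]
  refine Finset.sum_congr rfl fun i _ => ?_
  rw [expand, div_eq_mul_inv, Finset.sum_mul]
  refine Finset.sum_congr rfl fun k _ => ?_
  rw [Finset.sum_mul]
  refine Finset.sum_congr rfl fun l _ => ?_
  change _ = b i k * b i l * inner ℝ (pd k F z) (pd l G z) * (ε i)⁻¹
  ring

end Pool.Agent.CMX
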