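import Pool.Agent.CMX.St

/-!
# CMX: module TRC (trace identity)
-/

set_option autoImplicit false

open scoped Manifold ContDiff Topology
open Module

namespace Pool.Agent.CMX

open Pool.Agent.Lib_helper91.CMC2 Pool.Agent.Lib_helper25.DA Pool.Agent.PLC
open Pool.Agent.Lib_helper91.CMC2.LD (yv)

namespace TRCaux

variable {n m : ℕ}

/-- the derivative of `sc b F` -/
theorem fderiv_sc {F : E n → E m} {z : E n} (b : E m) (hF : DifferentiableAt ℝ F z) (v : E n) :
    fderiv ℝ (sc b F) z v = inner ℝ b (fderiv ℝ F z v) := by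
  have h := (innerSL ℝ b).hasFDerivAt.comp z hF.hasFDerivAt
  have h2 := h.fderiv
  have h3 : (⇑(innerSL ℝ b) ∘ F) = sc b F := rfl
  rw [h3] at h2
  rw [h2]
  rfl

/-- Parseval in `N`, the part of `N1` orthogonal to `p` -/
theorem parseval {V : Type*} [NormedAddCommGroup V] [InnerProductSpace ℝ V]
    [FiniteDimensional ℝ V] (N1 : Submodule ℝ V) (p : V) (hp : p ∈ N1) (hp0 : p ≠ 0)
    {k : ℕ} (b : OrthonormalBasis (Fin k) ℝ ((Submodule.span ℝ {p})ᗮ ⊓ N1 : Submodule ℝ V))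
    (v w : V) (hv : v ∈ N1) (hw : w ∈ N1) :
    (inner ℝ p p : ℝ) * inner ℝ v w = inner ℝ p v * inner ℝ p w
      + (inner ℝ p p : ℝ) * ∑ i, inner ℝ (b i : V) v * inner ℝ (b i : V) w := by
  have hpp : (inner ℝ p p : ℝ) ≠ 0 := fun h => hp0 (inner_self_eq_zero.1 h)
  have key : ∀ v ∈ N1, v - ((inner ℝ p v : ℝ) / inner ℝ p p) • p ∈
      ((Submodule.span ℝ {p})ᗮ ⊓ N1 : Submodule ℝ V) := by
    intro v hv
    refine ⟨?_, N1.sub_mem hv (N1.smul_mem _ hp)⟩
    refine Submodule.mem_orthogonal_singleton_iff_inner_right.2 ?_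
    rw [inner_sub_right, real_inner_smul_right, div_mul_cancel₀ _ hpp, sub_self]
  have hb : ∀ i, (inner ℝ (b i : V) p : ℝ) = 0 := fun i => by
    have h := Submodule.mem_orthogonal_singleton_iff_inner_right.1 (b i).2.1
    rw [real_inner_comm]
    exact h
  have h1 := b.sum_inner_mul_inner (⟨_, key v hv⟩) (⟨_, key w hw⟩)
  simp only [Submodule.coe_inner] at h1
  have h2 : ∀ i, (inner ℝ (v - ((inner ℝ p v : ℝ) / inner ℝ p p) • p) (b i : V) : ℝ) *
      inner ℝ (b i : V) (w - ((inner ℝ p w : ℝ) / inner ℝ p p) • p) =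
      inner ℝ (b i : V) v * inner ℝ (b i : V) w := by
    intro i
    rw [real_inner_comm, inner_sub_right, inner_sub_right, real_inner_smul_right,
      real_inner_smul_right, hb i, mul_zero, mul_zero, sub_zero, sub_zero]
  rw [Finset.sum_congr rfl fun i _ => h2 i] at h1
  rw [h1, inner_sub_left, inner_sub_right, inner_sub_right, real_inner_smul_left,
    real_inner_smul_right, real_inner_smul_right, real_inner_smul_left,
    real_inner_comm p v]
  field_simp
  ring

theorem dimN {V : Type*} [NormedAddCommGroup V] [InnerProductSpace ℝ V]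
    [FiniteDimensional ℝ V] (N1 : Submodule ℝ V) (p : V) (hp : p ∈ N1) (hp0 : p ≠ 0) :
    ((finrank ℝ ((Submodule.span ℝ {p})ᗮ ⊓ N1 : Submodule ℝ V) : ℕ) : ℝ) =
      (finrank ℝ N1 : ℝ) - 1 := by
  have hle : Submodule.span ℝ {p} ≤ N1 := by
    rw [Submodule.span_singleton_le_iff_mem]
    exact hp
  have h := Submodule.finrank_add_inf_finrank_orthogonal hle
  rw [finrank_span_singleton hp0] at h
  rw [← h]
  push_cast
  ring

end TRCaux

theorem t_TRC : M_TRC := by
  intro hTAN hGIN n m X P1 P2 f1 f2 N1 N2 ξ1 ξ2 z hX h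
  set b := stdOrthonormalBasis ℝ ((Submodule.span ℝ {P1 z})ᗮ ⊓ N1 : Submodule ℝ (E m)) with hb
  have hdim := TRCaux.dimN N1 (P1 z) h.p1 h.z1
  -- the terms with `b k`
  have hone : ∀ k, ∑ i, ∑ j, (metric X z)⁻¹ i j *
      ((inner ℝ (b k : E m) (pd i P1 z) : ℝ) * inner ℝ (b k : E m) (pd j P1 z)) = 1 := by
    intro k
    have hbN : (b k : E m) ∈ N1 := (b k).2.2
    have hbp : (inner ℝ (b k : E m) (P1 z) : ℝ) = 0 := by
      have h1 := Submodule.mem_orthogonal_singleton_iff_inner_right.1 (b k).2.1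
      rw [real_inner_comm]
      exact h1
    obtain ⟨u, hu⟩ := hTAN n m X P1 P2 f1 f2 N1 N2 ξ1 ξ2 z h (b k) hbN hbp
    have h2 := hGIN n m X z (b k) u (sc (b k : E m) P1) hX h.inj hu (by
      intro v
      rw [TRCaux.fderiv_sc _ h.d1, h.dec v, inner_add_right, inner_add_right, inner_add_right,
        real_inner_smul_right, real_inner_smul_right, h.o _ hbN _ (h.m2 v),
        real_inner_comm ξ1, real_inner_comm ξ2, h.o11 _ hbN, h.o21 _ hbN]
      ring)
    have h3 : (inner ℝ (b k : E m) (b k : E m) : ℝ) = 1 := by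
      have h4 := b.orthonormal.1 k
      rw [real_inner_self_eq_norm_sq, ← Submodule.coe_norm, h4]
      norm_num
    rw [h3] at h2
    rw [← h2]
    unfold gin
    refine Finset.sum_congr rfl fun i _ => Finset.sum_congr rfl fun j _ => ?_
    have e : ∀ i, pd i (sc (b k : E m) P1) z = inner ℝ (b k : E m) (pd i P1 z) := fun i =>
      TRCaux.fderiv_sc _ h.d1 _
    rw [e, e]
  -- the derivative of the square
  have hq : ∀ j, pd j (fun w => (inner ℝ (P1 w) (P1 w) : ℝ)) z =
      2 * inner ℝ (P1 z) (pd j P1 z) := by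
    intro j
    rw [pd_inner h.d1 h.d1, real_inner_comm (P1 z)]
    ring
  have hpar : ∀ i j, (inner ℝ (P1 z) (P1 z) : ℝ) * inner ℝ (pd i P1 z) (pd j P1 z) =
      inner ℝ (P1 z) (pd i P1 z) * inner ℝ (P1 z) (pd j P1 z) + (inner ℝ (P1 z) (P1 z) : ℝ) *
        ∑ k, inner ℝ (b k : E m) (pd i P1 z) * inner ℝ (b k : E m) (pd j P1 z) := by
    intro i j
    exact TRCaux.parseval N1 (P1 z) h.p1 h.z1 b _ _ (h.m1 _) (h.m1 _)
  -- assembly
  have e1 : (inner ℝ (P1 z) (P1 z) : ℝ) * tr X P1 P1 z =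
      (∑ i, ∑ j, (metric X z)⁻¹ i j *
        ((inner ℝ (P1 z) (pd i P1 z) : ℝ) * inner ℝ (P1 z) (pd j P1 z))) +
      (inner ℝ (P1 z) (P1 z) : ℝ) * ∑ k, ∑ i, ∑ j, (metric X z)⁻¹ i j *
        ((inner ℝ (b k : E m) (pd i P1 z) : ℝ) * inner ℝ (b k : E m) (pd j P1 z)) := by
    have e2 : ∑ k, ∑ i, ∑ j, (metric X z)⁻¹ i j *
        ((inner ℝ (b k : E m) (pd i P1 z) : ℝ) * inner ℝ (b k : E m) (pd j P1 z)) =
        ∑ i, ∑ j, (metric X z)⁻¹ i j *
        ∑ k, ((inner ℝ (b k : E m) (pd i P1 z) : ℝ) * inner ℝ (b k : E m) (pd j P1 z)) := by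
      rw [Finset.sum_comm]
      refine Finset.sum_congr rfl fun i _ => ?_
      rw [Finset.sum_comm]
      refine Finset.sum_congr rfl fun j _ => ?_
      rw [Finset.mul_sum]
    rw [e2]
    unfold tr
    rw [Finset.mul_sum, Finset.mul_sum, ← Finset.sum_add_distrib]
    refine Finset.sum_congr rfl fun i _ => ?_
    rw [Finset.mul_sum, Finset.mul_sum, ← Finset.sum_add_distrib]
    refine Finset.sum_congr rfl fun j _ => ?_
    have := hpar i j
    linear_combination ((metric X z)⁻¹ i j) * this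
  rw [Finset.sum_congr rfl fun k _ => hone k, Finset.sum_const, Finset.card_univ,
    Fintype.card_fin, nsmul_eq_mul, mul_one, hdim] at e1
  have e3 : gin X (fun w => (inner ℝ (P1 w) (P1 w) : ℝ)) (fun w => (inner ℝ (P1 w) (P1 w) : ℝ)) z =
      4 * ∑ i, ∑ j, (metric X z)⁻¹ i j *
        ((inner ℝ (P1 z) (pd i P1 z) : ℝ) * inner ℝ (P1 z) (pd j P1 z)) := by
    unfold gin
    rw [Finset.mul_sum]
    refine Finset.sum_congr rfl fun i _ => ?_
    rw [Finset.mul_sum]
    refine Finset.sum_congr rfl fun j _ => ?_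
    rw [hq, hq]
    ring
  rw [e3]
  linear_combination 4 * e1

end Pool.Agent.CMX
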