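import Pool.Agent.CMX.SIX
import Pool.Agent.CMX.GIA
import Pool.Agent.CMX.GIB
import Pool.Agent.CMX.GIT
import Pool.Agent.CMX.TGT
import Pool.Agent.CMX.CAS
import Pool.Agent.CMX.TAN
import Pool.Agent.CMX.GIN
import Pool.Agent.CMX.TRC
import Pool.Agent.CMX.ALA
import Pool.Agent.CMX.ALB
import Pool.Agent.CMX.POL
import Pool.Agent.CMX.QDF
import Pool.Agent.CMX.SPP
import Pool.Agent.CMX.ONE
import Pool.Agent.CMX.CRK
import Pool.Agent.CMX.CVF
import Pool.Agent.CMX.CFR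
import Pool.Agent.CMX.TRB
import Pool.Agent.CMX.CFO
import Pool.Agent.CMX.CFI
import Pool.Agent.CMX.CCC

/-!
# All modules together
-/

set_option autoImplicit false

namespace Pool.Agent.CMX

theorem hGIB : S_GIB := t_GIB t_GIA

theorem hCRK : S_CRK := t_CRK t_GIA hGIB

theorem hCFO : S_CFO := t_CFO t_GIA hGIB t_TRB

theorem hCCC : S_CCC := t_CCC hGIB hCRK (t_CFR t_CVF) hCFO t_CFI

theorem hQDF : S_QDF := t_QDF t_ALA t_ALB t_POL

theorem hONE : S_ONE := t_ONE t_GIA hGIB (t_TRC t_TAN t_GIN) hQDF t_SPP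

/-- the local theorem -/
theorem six : S_SIX := t_SIX hGIB (t_GIT hGIB) t_TGT t_CAS hCCC hONE

end Pool.Agent.CMX
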