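import Pool.Agent.CMX.St

/-!
# The frame in the case of dimension three
-/

set_option autoImplicit false

open scoped Manifold ContDiff Topology
open Module

namespace Pool.Agent.CMX

open Pool.Agent.Lib_helper91.CMC2 Pool.Agent.Lib_helper25.DA Pool.Agent.PLC
open Pool.Agent.Lib_helper91.CMC2.LD (yv)

namespace CFRaux

/-- the covector of a vector field along `X` -/
noncomputable def cov {m : ℕ} (X : E 3 → E m) (A : E 3 → E m) (i : Fin 3) (w : E 3) : ℝ :=
  inner ℝ (pd i X w) (A w)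

/-- the cross product of two covectors -/
noncomputable def cr {m : ℕ} (X A B : E 3 → E m) (w : E 3) : E 3 :=
  (cov X A 1 w * cov X B 2 w - cov X A 2 w * cov X B 1 w) • EuclideanSpace.single 0 (1 : ℝ) +
  (cov X A 2 w * cov X B 0 w - cov X A 0 w * cov X B 2 w) • EuclideanSpace.single 1 (1 : ℝ) +
  (cov X A 0 w * cov X B 1 w - cov X A 1 w * cov X B 0 w) • EuclideanSpace.single 2 (1 : ℝ)

theorem fderiv_cr {m : ℕ} (X A B : E 3 → E m) (w : E 3) :
    fderiv ℝ X w (cr X A B w) =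
      (cov X A 1 w * cov X B 2 w - cov X A 2 w * cov X B 1 w) • pd 0 X w +
      (cov X A 2 w * cov X B 0 w - cov X A 0 w * cov X B 2 w) • pd 1 X w +
      (cov X A 0 w * cov X B 1 w - cov X A 1 w * cov X B 0 w) • pd 2 X w := by
  unfold cr pd
  rw [map_add, map_add, map_smul, map_smul, map_smul]

theorem smooth_cov {m : ℕ} {X A : E 3 → E m} {w : E 3} (hX : ContDiffAt ℝ ∞ X w)
    (hA : ContDiffAt ℝ ∞ A w) (i : Fin 3) : ContDiffAt ℝ ∞ (cov X A i) w :=
  (pd_smooth hX i).inner ℝ hA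

theorem smooth_cr {m : ℕ} {X A B : E 3 → E m} {w : E 3} (hX : ContDiffAt ℝ ∞ X w)
    (hA : ContDiffAt ℝ ∞ A w) (hB : ContDiffAt ℝ ∞ B w) : ContDiffAt ℝ ∞ (cr X A B) w := by
  have a := smooth_cov hX hA
  have b := smooth_cov hX hB
  exact (((((a 1).mul (b 2)).sub ((a 2).mul (b 1))).smul contDiffAt_const).add
    ((((a 2).mul (b 0)).sub ((a 0).mul (b 2))).smul contDiffAt_const)).add
    ((((a 0).mul (b 1)).sub ((a 1).mul (b 0))).smul contDiffAt_const)

theorem inner_fderiv {m : ℕ} (X A : E 3 → E m) (w x : E 3) :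
    inner ℝ (fderiv ℝ X w x) (A w) = x 0 * cov X A 0 w + x 1 * cov X A 1 w + x 2 * cov X A 2 w := by
  rw [fderiv_eq_sum, Fin.sum_univ_three, inner_add_left, inner_add_left, real_inner_smul_left,
    real_inner_smul_left, real_inner_smul_left]
  rfl

end CFRaux

open CFRaux in
theorem t_CFR : M_CFR := by
  intro hC m V X X1 X2 c l1 l2 N0 h hne hr
  obtain ⟨V1, hV1, ho1, hn1, u, hu⟩ := hC m V X2 h.op hne h.s2 fun w hw => (hr w hw).2
  obtain ⟨V2, hV2, ho2, hn2, v, hv⟩ := hC m V1 X1 ho1 hn1 (fun w hw => h.s1 w (hV1 hw))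
    fun w hw => (hr w (hV1 hw)).1
  have h2 : LD V2 X X1 X2 c l1 l2 N0 := h.mono ho2 (hV2.trans hV1)
  have hA : ∀ w ∈ V2, ContDiffAt ℝ ∞ (fun w => fderiv ℝ X w (u w)) w := fun w hw =>
    (fderiv_smooth (h2.sX hw)).clm_apply (hu w (hV2 hw)).1
  have hB : ∀ w ∈ V2, ContDiffAt ℝ ∞ (fun w => fderiv ℝ X w (v w)) w := fun w hw =>
    (fderiv_smooth (h2.sX hw)).clm_apply (hv w hw).1
  have huv : ∀ w ∈ V2, inner ℝ (fderiv ℝ X w (u w)) (fderiv ℝ X w (v w)) = (0 : ℝ) := by
    intro w hw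
    rw [h2.fderivX hw, h2.fderivX hw, (hu w (hV2 hw)).2.2, (hv w hw).2.2, add_zero, zero_add,
      h2.iso_vec hw, (hu w (hV2 hw)).2.2, inner_zero_right]
  have hpos : ∀ w ∈ V2, ∀ x : E 3, x ≠ 0 → 0 < inner ℝ (fderiv ℝ X w x) (fderiv ℝ X w x) := by
    intro w hw x hx
    rw [real_inner_self_eq_norm_sq]
    have : fderiv ℝ X w x ≠ 0 := fun h0 => hx (h2.imm w hw (by rw [h0, map_zero]))
    positivity
  refine ⟨V2, hV2.trans hV1, ho2, hn2, u, v,
    cr X (fun w => fderiv ℝ X w (u w)) (fun w => fderiv ℝ X w (v w)),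
    { su := fun w hw => (hu w (hV2 hw)).1
      sv := fun w hw => (hv w hw).1
      se := fun w hw => smooth_cr (h2.sX hw) (hA w hw) (hB w hw)
      nu := fun w hw => (hu w (hV2 hw)).2.1
      nv := fun w hw => (hv w hw).2.1
      ne := ?_
      ku := fun w hw => (hu w (hV2 hw)).2.2
      kv := fun w hw => (hv w hw).2.2
      uv := huv
      ue := ?_
      ve := ?_ }⟩
  · intro w hw h0
    have c0 := congrArg (fun x : E 3 => x 0) h0
    have c1 := congrArg (fun x : E 3 => x 1) h0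
    have c2 := congrArg (fun x : E 3 => x 2) h0
    simp [cr] at c0 c1 c2
    have e1 := inner_fderiv X (fun w => fderiv ℝ X w (u w)) w (u w)
    have e2 := inner_fderiv X (fun w => fderiv ℝ X w (v w)) w (v w)
    have e3 := inner_fderiv X (fun w => fderiv ℝ X w (u w)) w (v w)
    have e4 := inner_fderiv X (fun w => fderiv ℝ X w (v w)) w (u w)
    have p1 := hpos w hw (u w) (hu w (hV2 hw)).2.1
    have p2 := hpos w hw (v w) (hv w hw).2.1
    have e5 := huv w hw
    have p3 := mul_pos p1 p2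
    simp only at e1 e2 e3 e4
    have key : inner ℝ (fderiv ℝ X w (u w)) (fderiv ℝ X w (u w)) *
        inner ℝ (fderiv ℝ X w (v w)) (fderiv ℝ X w (v w)) = (0 : ℝ) := by
      have e6 : inner ℝ (fderiv ℝ X w (u w)) (fderiv ℝ X w (u w)) *
          inner ℝ (fderiv ℝ X w (v w)) (fderiv ℝ X w (v w)) =
          inner ℝ (fderiv ℝ X w (v w)) (fderiv ℝ X w (u w)) *
          inner ℝ (fderiv ℝ X w (u w)) (fderiv ℝ X w (v w)) := by
        rw [e1, e2, e3, e4]
        linear_combination (u w 1 * v w 2 - u w 2 * v w 1) * c0 +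
          (u w 2 * v w 0 - u w 0 * v w 2) * c1 + (u w 0 * v w 1 - u w 1 * v w 0) * c2
      rw [e6, e5, mul_zero]
    linarith
  · intro w hw
    rw [real_inner_comm, fderiv_cr, inner_add_left, inner_add_left, real_inner_smul_left,
      real_inner_smul_left, real_inner_smul_left]
    unfold cov
    ring
  · intro w hw
    rw [real_inner_comm, fderiv_cr, inner_add_left, inner_add_left, real_inner_smul_left,
      real_inner_smul_left, real_inner_smul_left]
    unfold cov
    ring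

end Pool.Agent.CMX
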