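import Pool.Agent.CMX.St

/-!
# The local theorem
-/

set_option autoImplicit false

open scoped Manifold ContDiff Topology
open Module

namespace Pool.Agent.CMX

open Pool.Agent.Lib_helper91.CMC2 Pool.Agent.Lib_helper25.DA Pool.Agent.PLC
open Pool.Agent.Lib_helper91.CMC2.LD (yv)

namespace SIXaux

/-- a planar component on an open set -/
lemma planar {n m : ℕ} {V : Set (E n)} {X X1 X2 : E n → E m} {c : E m} {l1 l2 N0 : ℝ}
    (h : LD V X X1 X2 c l1 l2 N0) (K : Submodule ℝ (E m)) (hK : finrank ℝ K ≤ 2)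
    (hm : ∀ w ∈ V, X1 w ∈ K) : ∀ z ∈ V, ∀ j, pd j (rr X c) z = 0 := by
  obtain ⟨b1, b2, hb⟩ := exists_pair K hK
  have hP : Pl V X1 b1 b2 := ⟨fun w hw => hb _ (hm w hw)⟩
  exact rad_const h hP

lemma tt_zero {n m : ℕ} {V : Set (E n)} {X X1 X2 : E n → E m} {c : E m} {l1 l2 N0 : ℝ}
    (h : LD V X X1 X2 c l1 l2 N0) {K1 K2 : Submodule ℝ (E m)} (hm1 : ∀ w ∈ V, X1 w ∈ K1)
    (hm2 : ∀ w ∈ V, X2 w ∈ K2) (ho : ∀ a ∈ K1, ∀ b ∈ K2, inner ℝ a b = (0 : ℝ)) {z : E n}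
    (hz : z ∈ V) : tt X X1 X2 z = 0 := by
  unfold tt tr
  refine Finset.sum_eq_zero fun i _ => Finset.sum_eq_zero fun j _ => ?_
  have h1 : pd i X1 z ∈ K1 := pd_mem
    (by filter_upwards [h.op.mem_nhds hz] with w hw using hm1 w hw) (diff_of (h.s1 z hz)) i
  have h2 : pd j X2 z ∈ K2 := pd_mem
    (by filter_upwards [h.op.mem_nhds hz] with w hw using hm2 w hw) (diff_of (h.s2 z hz)) j
  rw [ho _ h1 _ h2, mul_zero]

end SIXaux

open SIXaux in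
/-- SIX -/
theorem t_SIX (hGIB : S_GIB) (hGIT : S_GIT) (hTGT : S_TGT) (hCAS : S_CAS) (hCCC : S_CCC)
    (hONE : S_ONE) : S_SIX := by
  intro n m U X X1 X2 c l1 l2 N0 E1 E2 h hE1 hE2 hd z hz j
  by_contra hne
  have sF : SV U (rr X c) := fun w hw => by
    have hs : ContDiffAt ℝ ∞ (fun w => X w - c) w := (h.sX hw).sub contDiffAt_const
    exact hs.inner ℝ hs
  set U' : Set (E n) := {w | w ∈ U ∧ pd j (rr X c) w ≠ 0} with hU'
  have o' : IsOpen U' := open_ne h.op (sF.pdv j)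
  have h' : LD U' X X1 X2 c l1 l2 N0 := h.mono o' fun w hw => hw.1
  have hex : ∃ κ, ∃ w ∈ U', pd κ (tt X X1 X2) w ≠ 0 := by
    by_contra hcon
    push Not at hcon
    have h0 : ∀ w ∈ U', ∀ j, pd j (tt X X1 X2) w = 0 := fun w hw j => hcon j w hw
    exact hne (hGIT n m U' X X1 X2 c l1 l2 N0 h' h0 z ⟨hz, hne⟩ j)
  obtain ⟨κ, w0, hw0, hκ0⟩ := hex
  have st : SV U' (tt X X1 X2) := (hGIB n m U' X X1 X2 c l1 l2 N0 h').1
  set W : Set (E n) := {w | w ∈ U' ∧ pd κ (tt X X1 X2) w ≠ 0} with hW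
  have oW : IsOpen W := open_ne o' (st.pdv κ)
  obtain ⟨V, hVW, oV, neV, K1, K2, T1, T2, k1, k2⟩ := hTGT n m W X1 X2 oW ⟨w0, hw0, hκ0⟩
  have hVU : V ⊆ U := fun w hw => (hVW hw).1.1
  have hV : LD V X X1 X2 c l1 l2 N0 := h.mono oV hVU
  have hκ : ∀ w ∈ V, pd κ (tt X X1 X2) w ≠ 0 := fun w hw => (hVW hw).2
  have kE1 : K1 ≤ E1 := k1.trans (Submodule.span_le.2 (by
    rintro _ ⟨w, hw, rfl⟩; exact hE1 w hw.1.1))
  have kE2 : K2 ≤ E2 := k2.trans (Submodule.span_le.2 (by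
    rintro _ ⟨w, hw, rfl⟩; exact hE2 w hw.1.1))
  have hd' : finrank ℝ K1 + finrank ℝ K2 ≤ n + 3 :=
    (Nat.add_le_add (Submodule.finrank_mono kE1) (Submodule.finrank_mono kE2)).trans hd
  obtain ⟨v0, hv0⟩ := neV
  have hrr : pd j (rr X c) v0 ≠ 0 := (hVW hv0).1.2
  rcases hCAS n m V X X1 X2 c l1 l2 N0 K1 K2 hV ⟨v0, hv0⟩ T1 T2 hd' with
    hp | hp | hp | ⟨hn, f1, f2, n1, n2⟩ | ⟨N1, N2, ξ1, ξ2, ρ, hS, hN⟩
  · exact hrr (planar hV K1 hp T1.mem v0 hv0 j)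
  · exact hrr (planar hV.symm K2 hp T2.mem v0 hv0 j)
  · have h0 : ∀ w ∈ V, tt X X1 X2 w = (fun _ => (0 : ℝ)) w := fun w hw =>
      tt_zero hV T1.mem T2.mem hp hw
    refine hκ v0 hv0 ?_
    rw [pd_congr_on oV h0 hv0, pd_const]
  · subst hn
    exact hCCC m V X X1 X2 c l1 l2 N0 K1 K2 κ hV ⟨v0, hv0⟩ T1.mem T2.mem f1 f2 n1 n2 hκ
  · exact hONE n m V X X1 X2 c l1 l2 N0 K1 K2 N1 N2 ξ1 ξ2 ρ κ hV ⟨v0, hv0⟩ T1 T2 hS hN hκ

/-- from the local theorem to manifolds -/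
theorem global_of_SIX (hSIX : S_SIX) {n m : ℕ} {M : Type*} [TopologicalSpace M]
    [ChartedSpace (E n) M] [IsManifold 𝓘(ℝ, E n) ∞ M] [ConnectedSpace M]
    {x : M → E m} {c : E m} {x1 x2 : M → E m} {l1 l2 : ℝ}
    (h : IsCMCNonNullTwoType (n := n) x c x1 x2 l1 l2)
    (hd : finrank ℝ (spanOf x1) + finrank ℝ (spanOf x2) ≤ n + 3) :
    ∃ r : ℝ, 0 < r ∧ ∀ p, dist (x p) c = r := by
  obtain ⟨N0, hN⟩ := exists_LD (n_ne_zero h) h
  refine spherical_of_rad h fun e he z hz j => ?_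
  exact hSIX n m e.target (x ∘ e.symm) (x1 ∘ e.symm) (x2 ∘ e.symm) c l1 l2 N0 (spanOf x1)
    (spanOf x2) (hN e he) (fun w _ => Submodule.subset_span ⟨_, rfl⟩)
    (fun w _ => Submodule.subset_span ⟨_, rfl⟩) hd z hz j

/-- codimension two, spans meeting in dimension at most one -/
theorem line_of_SIX (hSIX : S_SIX) {n : ℕ} {M : Type*} [TopologicalSpace M]
    [ChartedSpace (E n) M] [IsManifold 𝓘(ℝ, E n) ∞ M] [ConnectedSpace M]
    {x : M → E (n + 2)} {c : E (n + 2)} {x1 x2 : M → E (n + 2)} {l1 l2 : ℝ}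
    (h : IsCMCNonNullTwoType (n := n) x c x1 x2 l1 l2)
    (hd : finrank ℝ (spanOf x1 ⊓ spanOf x2 : Submodule ℝ (E (n + 2))) ≤ 1) :
    ∃ r : ℝ, 0 < r ∧ ∀ p, dist (x p) c = r := by
  refine global_of_SIX hSIX h ?_
  have h1 := Submodule.finrank_sup_add_finrank_inf_eq (spanOf x1) (spanOf x2)
  have h2 := Submodule.finrank_le (spanOf x1 ⊔ spanOf x2)
  rw [finrank_euclideanSpace, Fintype.card_fin] at h2
  omega

end Pool.Agent.CMX
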