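import Pool.Agent.PLC.Rank2

/-!
# CMC 2-type immersions with `dim span x1 + dim span x2 ≤ n + 3`

Problem MP_da464a_gt. `x = c + x1 + x2 : M^n → E^m` (any `m`) with constant mean curvature,
`Δ x1 = l1 x1`, `Δ x2 = l2 x2` (`Δ = lap`), `y = l1 x1 + l2 x2 = yv l1 l2 X1 X2`,
`D = l1 - l2`, `t = tr ⟨dx1, dx2⟩ = tt X X1 X2`, `z = l1 l2 ⟨x1, x2⟩ = zz l1 l2 X1 X2`.
Theorem: if `dim span x1 + dim span x2 ≤ n + 3` (in codimension two: if the two spans meet in dimension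
at most one) then `x` lies in a hypersphere centred at `c`. Local form: `|x - c|²` has zero
derivatives (`S_SIX`).

Library (please use it): `Pool/Agent/PLC/Der.lean` (`SV`, `der`, `Dep`, `pd_mul'`, `pd_add'`,
`pd_sub'`, `pd_congr_on`, `der_mul`, `der_add`, `der_sub`, `der_const`, `der_self`, `lap_dep`),
`PLC/Loc.lean` (`tr`, `tr_comm`, `trace_F`, `energy`, `sc`, `pd_sc`, `lap_sc`, `open_ne`),
`PLC/Data.lean` (`gin_pos`), `PLC/Fin.lean` (`pd_rad`, `rad_const`), `PLC/Rank.lean`,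
`Lib_helper91/CMC2/Local.lean` (`LD` and its lemmas: `sX`, `sy`, `pdX`, `pdy`, `normy`,
`inner_y_1`, `inner_y_2`, `isotropy`, `mono`, `symm`), `CMC2/Planar2.lean` (`LD.fderivX`,
`LD.iso_vec`, `LD.inner_y_D1`, `LD.inner_y_D2`), `CMC2/Sub.lean` (`pd_mem`, `fderiv_mem`),
`CMC2/Indep.lean` (`LD.dims1`, `LD.dims2`), `CMC2/LinAlg.lean` (`pr`, `rank_symm'`),
`CMC2/Calc.lean` (`pd_*`, `lap_*`, `fderiv_eq_sum`, `inv_mul_metric`, `inv_symm`),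
`Lib_helper25/DA/Geo.lean` (`lap_inner`, `trace_metric`), `DA/Loc.lean` (`gin_smooth`).

Module `XXX`: `theorem t_XXX : M_XXX` (or `S_XXX`) in `Pool/Agent/CMX/XXX.lean`.
-/

set_option autoImplicit false

open scoped Manifold ContDiff Topology
open Module

namespace Pool.Agent.CMX

open Pool.Agent.Lib_helper91.CMC2 Pool.Agent.Lib_helper25.DA Pool.Agent.PLC
open Pool.Agent.Lib_helper91.CMC2.LD (yv)

/-! ### Definitions -/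

/-- `t = tr ⟨dx1, dx2⟩` -/
noncomputable def tt {n m : ℕ} (X X1 X2 : E n → E m) : E n → ℝ := fun w => tr X X1 X2 w

/-- `z = l1 l2 ⟨x1, x2⟩` -/
noncomputable def zz {n m : ℕ} (l1 l2 : ℝ) (X1 X2 : E n → E m) : E n → ℝ :=
  fun w => l1 * l2 * inner ℝ (X1 w) (X2 w)

/-- `|x - c|²` -/
noncomputable def rr {n m : ℕ} (X : E n → E m) (c : E m) : E n → ℝ :=
  fun w => (inner ℝ (X w - c) (X w - c) : ℝ)

/-- the constant `C1`; the constant `C2` is `CC n l2 l1 N0` -/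
noncomputable def CC (n : ℕ) (l1 l2 N0 : ℝ) : ℝ := (N0 ^ 2 - l2 * n) / (l1 - l2)

/-- `F` has values in `K` on `V`, and on every smaller open set its values span `K` -/
structure Tight {n m : ℕ} (V : Set (E n)) (F : E n → E m) (K : Submodule ℝ (E m)) : Prop where
  mem : ∀ w ∈ V, F w ∈ K
  dense : ∀ V' : Set (E n), V' ⊆ V → IsOpen V' → V'.Nonempty → ∀ a ∈ K,
    (∀ w ∈ V', inner ℝ a (F w) = (0 : ℝ)) → a = 0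

/-- `K1 = N1 + ℝ ξ1`, `K2 = N2 + ℝ ξ2`, everything orthogonal except `⟨ξ1, ξ2⟩ = ρ ≠ 0` -/
structure Split {m : ℕ} (K1 K2 N1 N2 : Submodule ℝ (E m)) (ξ1 ξ2 : E m) (ρ : ℝ) : Prop where
  u1 : inner ℝ ξ1 ξ1 = (1 : ℝ)
  u2 : inner ℝ ξ2 ξ2 = (1 : ℝ)
  rho : inner ℝ ξ1 ξ2 = ρ
  ne : ρ ≠ 0
  o : ∀ a ∈ N1, ∀ b ∈ N2, inner ℝ a b = (0 : ℝ)
  o11 : ∀ a ∈ N1, inner ℝ ξ1 a = (0 : ℝ)
  o21 : ∀ a ∈ N1, inner ℝ ξ2 a = (0 : ℝ)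
  o12 : ∀ b ∈ N2, inner ℝ ξ1 b = (0 : ℝ)
  o22 : ∀ b ∈ N2, inner ℝ ξ2 b = (0 : ℝ)
  k1 : K1 = N1 ⊔ Submodule.span ℝ {ξ1}
  k2 : K2 = N2 ⊔ Submodule.span ℝ {ξ2}
  b1 : N1 ≠ ⊥
  b2 : N2 ≠ ⊥

/-- pointwise data in the case of rank one: `P1`, `P2` are the components of `x1`, `x2` in `N1`,
`N2`, and `f1`, `f2` those along `ξ1`, `ξ2` -/
structure SP {n m : ℕ} (X P1 P2 : E n → E m) (f1 f2 : E n → ℝ) (N1 N2 : Submodule ℝ (E m))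
    (ξ1 ξ2 : E m) (z : E n) : Prop where
  d1 : DifferentiableAt ℝ P1 z
  d2 : DifferentiableAt ℝ P2 z
  inj : Function.Injective (fderiv ℝ X z)
  dec : ∀ u, fderiv ℝ X z u
    = fderiv ℝ P1 z u + fderiv ℝ P2 z u + (fderiv ℝ f1 z u • ξ1 + fderiv ℝ f2 z u • ξ2)
  m1 : ∀ u, fderiv ℝ P1 z u ∈ N1
  m2 : ∀ u, fderiv ℝ P2 z u ∈ N2
  p1 : P1 z ∈ N1
  p2 : P2 z ∈ N2
  z1 : P1 z ≠ 0
  z2 : P2 z ≠ 0
  o : ∀ a ∈ N1, ∀ b ∈ N2, inner ℝ a b = (0 : ℝ)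
  o11 : ∀ a ∈ N1, inner ℝ ξ1 a = (0 : ℝ)
  o21 : ∀ a ∈ N1, inner ℝ ξ2 a = (0 : ℝ)
  o12 : ∀ b ∈ N2, inner ℝ ξ1 b = (0 : ℝ)
  o22 : ∀ b ∈ N2, inner ℝ ξ2 b = (0 : ℝ)
  par : ∀ u v, fderiv ℝ f1 z u * fderiv ℝ f2 z v = fderiv ℝ f1 z v * fderiv ℝ f2 z u
  y1 : ∀ u, fderiv ℝ f1 z u = 0 → fderiv ℝ f2 z u = 0 →
    inner ℝ (P1 z) (fderiv ℝ P1 z u) = (0 : ℝ)
  y2 : ∀ u, fderiv ℝ f1 z u = 0 → fderiv ℝ f2 z u = 0 →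
    inner ℝ (P2 z) (fderiv ℝ P2 z u) = (0 : ℝ)
  dim : finrank ℝ N1 + finrank ℝ N2 = n + 1

/-- scalar data in the case of rank one: `φ = l1 f1`, `ψ = l2 f2`, `Q1 = l1² |P1|²`,
`Q2 = l2² |P2|²`, `t = tt`, `ρ = ⟨ξ1, ξ2⟩`; `D = l1 - l2` -/
structure QD {n m : ℕ} (V : Set (E n)) (X : E n → E m) (κ : Fin n) (t φ ψ Q1 Q2 : E n → ℝ)
    (l1 l2 a b c1 c2 ρ : ℝ) : Prop where
  op : IsOpen V
  sX : ∀ z ∈ V, ContDiffAt ℝ ∞ X z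
  imm : ∀ z ∈ V, Function.Injective (fderiv ℝ X z)
  st : SV V t
  sφ : SV V φ
  sψ : SV V ψ
  sQ1 : SV V Q1
  sQ2 : SV V Q2
  nz : ∀ z ∈ V, pd κ t z ≠ 0
  dφ : Dep V κ t φ
  dψ : Dep V κ t ψ
  g4 : ∀ z ∈ V, ∀ j, (l1 - l2) * pd j t z = ρ * (ψ z * pd j φ z - φ z * pd j ψ z)
  lt : ∀ z ∈ V, lap X t z = ρ * (φ z * ψ z)
  lφ : ∀ z ∈ V, lap X φ z = l1 * φ z
  lψ : ∀ z ∈ V, lap X ψ z = l2 * ψ z
  gt : ∀ z ∈ V, ρ * gin X φ ψ z = l1 * l2 * t z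
  dQ1 : ∀ z ∈ V, ∀ j, pd j Q1 z = -2 * (φ z + ρ * ψ z) * pd j φ z
  dQ2 : ∀ z ∈ V, ∀ j, pd j Q2 z = -2 * (ψ z + ρ * φ z) * pd j ψ z
  eQ1 : ∀ z ∈ V, Q1 z = l1 * (a + c1) - (l1 - l2) * t z - φ z * (φ z + ρ * ψ z)
  eQ2 : ∀ z ∈ V, Q2 z = l2 * (b + c2) + (l1 - l2) * t z - ψ z * (ψ z + ρ * φ z)
  tr1 : ∀ z ∈ V, 4 * Q1 z * (l1 ^ 2 * (c1 - t z) - gin X φ φ z) = gin X Q1 Q1 z
  tr2 : ∀ z ∈ V, 4 * Q2 z * (l2 ^ 2 * (c2 - t z) - gin X ψ ψ z) = gin X Q2 Q2 z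
  pos1 : ∀ z ∈ V, Q1 z ≠ 0
  pos2 : ∀ z ∈ V, Q2 z ≠ 0
  sum : c1 + c2 = 1
  ne : l1 ≠ l2
  ne1 : l1 ≠ 0
  ne2 : l2 ≠ 0

/-- frame in the case `n = 3`: `u` in the kernel of `dx2`, `v` in the kernel of `dx1`, `e`
orthogonal to both (the vector fields are functions `E 3 → E 3`; nothing is normalised) -/
structure Frame {m : ℕ} (V : Set (E 3)) (X X1 X2 : E 3 → E m) (u v e : E 3 → E 3) : Prop where
  su : ∀ w ∈ V, ContDiffAt ℝ ∞ u w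
  sv : ∀ w ∈ V, ContDiffAt ℝ ∞ v w
  se : ∀ w ∈ V, ContDiffAt ℝ ∞ e w
  nu : ∀ w ∈ V, u w ≠ 0
  nv : ∀ w ∈ V, v w ≠ 0
  ne : ∀ w ∈ V, e w ≠ 0
  ku : ∀ w ∈ V, fderiv ℝ X2 w (u w) = 0
  kv : ∀ w ∈ V, fderiv ℝ X1 w (v w) = 0
  uv : ∀ w ∈ V, inner ℝ (fderiv ℝ X w (u w)) (fderiv ℝ X w (v w)) = (0 : ℝ)
  ue : ∀ w ∈ V, inner ℝ (fderiv ℝ X w (u w)) (fderiv ℝ X w (e w)) = (0 : ℝ)
  ve : ∀ w ∈ V, inner ℝ (fderiv ℝ X w (v w)) (fderiv ℝ X w (e w)) = (0 : ℝ)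

/-! ### Small facts (proved) -/

section
variable {n m : ℕ}

lemma tt_comm (X X1 X2 : E n → E m) : tt X X2 X1 = tt X X1 X2 := by
  funext w; exact tr_comm X X2 X1 w

lemma zz_comm (l1 l2 : ℝ) (X1 X2 : E n → E m) : zz l2 l1 X2 X1 = zz l1 l2 X1 X2 := by
  funext w; unfold zz; rw [real_inner_comm]; ring

lemma CC_add {l1 l2 : ℝ} (N0 : ℝ) (h : l1 ≠ l2) : CC n l1 l2 N0 + CC n l2 l1 N0 = n := by
  unfold CC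
  have h1 : l1 - l2 ≠ 0 := sub_ne_zero.2 h
  have h2 : l2 - l1 ≠ 0 := sub_ne_zero.2 h.symm
  field_simp
  ring

lemma Tight.mono {V V' : Set (E n)} {F : E n → E m} {K : Submodule ℝ (E m)} (h : Tight V F K)
    (hV : V' ⊆ V) : Tight V' F K :=
  ⟨fun w hw => h.mem w (hV hw), fun W hW => h.dense W (hW.trans hV)⟩

lemma Split.symm {K1 K2 N1 N2 : Submodule ℝ (E m)} {ξ1 ξ2 : E m} {ρ : ℝ}
    (h : Split K1 K2 N1 N2 ξ1 ξ2 ρ) : Split K2 K1 N2 N1 ξ2 ξ1 ρ :=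
  ⟨h.u2, h.u1, by rw [real_inner_comm]; exact h.rho, h.ne,
    fun a ha b hb => by rw [real_inner_comm]; exact h.o b hb a ha, h.o22, h.o12, h.o21, h.o11,
    h.k2, h.k1, h.b2, h.b1⟩

lemma SP.symm {X P1 P2 : E n → E m} {f1 f2 : E n → ℝ} {N1 N2 : Submodule ℝ (E m)} {ξ1 ξ2 : E m}
    {z : E n} (h : SP X P1 P2 f1 f2 N1 N2 ξ1 ξ2 z) : SP X P2 P1 f2 f1 N2 N1 ξ2 ξ1 z :=
  ⟨h.d2, h.d1, h.inj, fun u => by
      rw [h.dec u, add_comm (fderiv ℝ P1 z u), add_comm (fderiv ℝ f1 z u • ξ1)], h.m2, h.m1, h.p2,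
    h.p1, h.z2, h.z1, fun a ha b hb => by rw [real_inner_comm]; exact h.o b hb a ha, h.o22, h.o12,
    h.o21, h.o11, fun u v => by rw [mul_comm, h.par v u, mul_comm], fun u h1 h2 => h.y2 u h2 h1,
    fun u h1 h2 => h.y1 u h2 h1, by rw [add_comm]; exact h.dim⟩

lemma QD.mono {V V' : Set (E n)} {X : E n → E m} {κ : Fin n} {t φ ψ Q1 Q2 : E n → ℝ}
    {l1 l2 a b c1 c2 ρ : ℝ} (h : QD V X κ t φ ψ Q1 Q2 l1 l2 a b c1 c2 ρ) (hV : IsOpen V')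
    (hs : V' ⊆ V) : QD V' X κ t φ ψ Q1 Q2 l1 l2 a b c1 c2 ρ :=
  ⟨hV, fun z hz => h.sX z (hs hz), fun z hz => h.imm z (hs hz), h.st.mono hs, h.sφ.mono hs,
    h.sψ.mono hs, h.sQ1.mono hs, h.sQ2.mono hs, fun z hz => h.nz z (hs hz), h.dφ.mono hs,
    h.dψ.mono hs, fun z hz => h.g4 z (hs hz), fun z hz => h.lt z (hs hz),
    fun z hz => h.lφ z (hs hz), fun z hz => h.lψ z (hs hz), fun z hz => h.gt z (hs hz),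
    fun z hz => h.dQ1 z (hs hz), fun z hz => h.dQ2 z (hs hz), fun z hz => h.eQ1 z (hs hz),
    fun z hz => h.eQ2 z (hs hz), fun z hz => h.tr1 z (hs hz), fun z hz => h.tr2 z (hs hz),
    fun z hz => h.pos1 z (hs hz), fun z hz => h.pos2 z (hs hz), h.sum, h.ne, h.ne1, h.ne2⟩

end

/-! ### 1. General identities -/

/-- GIA (70 lines). Proof. `trace_F` for `F = X1`, `X2` (see `energy` in `PLC/Loc.lean`):
`l1 tr(X1,X1) + l2 tr(X1,X2) = l1 ⟨y,X1⟩`, `l1 tr(X1,X2) + l2 tr(X2,X2) = l2 ⟨y,X2⟩`;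
`tr(X1,X1) + 2 tr(X1,X2) + tr(X2,X2) = n` (`trace_metric`), `l1 ⟨y,X1⟩ + l2 ⟨y,X2⟩ = N0²`
(`LD.normy`), `l1 ⟨y,X1⟩ = l1² |X1|² + z`. Linear algebra. -/
def S_GIA : Prop := ∀ (n m : ℕ) (U : Set (E n)) (X X1 X2 : E n → E m) (c : E m) (l1 l2 N0 : ℝ),
  LD U X X1 X2 c l1 l2 N0 → ∀ z ∈ U,
    tr X X1 X1 z = CC n l1 l2 N0 - tt X X1 X2 z ∧
    l1 ^ 2 * inner ℝ (X1 z) (X1 z) + zz l1 l2 X1 X2 z
      = l1 * CC n l1 l2 N0 - (l1 - l2) * tt X X1 X2 z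

/-- GIB (130 lines). Proof. By `GIA` `tt = (l1 CC - l1² |X1|² - zz)/D` on `U`, so it is smooth.
`lap zz = (l1 + l2) zz - 2 l1 l2 tt` by `lap_inner` (its last sum is `tr X X1 X2`);
`lap |X1|² = 2 l1 |X1|² - 2 tr X X1 X1`; so `D lap tt = - l1² lap |X1|² - lap zz`
`= - 2 l1 (l1 CC - D tt - zz) + 2 l1² (CC - tt) - (l1 + l2) zz + 2 l1 l2 tt = D zz`.
`D pd j tt = - 2 l1² ⟨X1, pd j X1⟩ - l1 l2 (⟨X2, pd j X1⟩ + ⟨X1, pd j X2⟩)` and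
`l1 ⟨X1, pd j X1⟩ = - l2 ⟨X2, pd j X1⟩` (`LD.inner_y_1`). Use the congruence lemmas `lap_congr`,
`pd_congr_on` and `lap_smul`, `lap_add` (for the constant, `lap_const`). -/
def S_GIB : Prop := ∀ (n m : ℕ) (U : Set (E n)) (X X1 X2 : E n → E m) (c : E m) (l1 l2 N0 : ℝ),
  LD U X X1 X2 c l1 l2 N0 → SV U (tt X X1 X2) ∧ ∀ z ∈ U,
    lap X (tt X X1 X2) z = zz l1 l2 X1 X2 z ∧
    lap X (zz l1 l2 X1 X2) z = (l1 + l2) * zz l1 l2 X1 X2 z - 2 * (l1 * l2) * tt X X1 X2 z ∧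
    ∀ j, (l1 - l2) * pd j (tt X X1 X2) z =
      l1 * l2 * (inner ℝ (X2 z) (pd j X1 z) - inner ℝ (X1 z) (pd j X2 z))

def M_GIB : Prop := S_GIA → S_GIB

/-- GIT (60 lines). Proof. `pd j tt = 0` on `U`, so `lap X tt = 0` on `U` (`lap_zero_of_pd` is for
vector functions; the same proof), so `zz = 0` on `U` (`GIB`), `lap zz = 0`, so `tt = 0` on `U`.
`pd j zz = 0` gives `⟨X2, pd j X1⟩ + ⟨X1, pd j X2⟩ = 0`, and `GIB` gives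
`⟨X2, pd j X1⟩ - ⟨X1, pd j X2⟩ = 0`; so both are `0`, and `⟨X1, pd j X1⟩ = ⟨X2, pd j X2⟩ = 0` by
`LD.inner_y_1`, `LD.inner_y_2`. Then `pd_rad`. -/
def S_GIT : Prop := ∀ (n m : ℕ) (U : Set (E n)) (X X1 X2 : E n → E m) (c : E m) (l1 l2 N0 : ℝ),
  LD U X X1 X2 c l1 l2 N0 → (∀ w ∈ U, ∀ j, pd j (tt X X1 X2) w = 0) →
  ∀ w ∈ U, ∀ j, pd j (rr X c) w = 0

def M_GIT : Prop := S_GIB → S_GIT

/-! ### 2. Reduction -/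

/-- TGT (70 lines). Proof. Among the nonempty open `V ⊆ U` choose one with
`finrank (span (F1 '' V)) + finrank (span (F2 '' V))` minimal (`Nat.find`, or `WellFounded.min`), and
`Ki = span (Fi '' V)`. For `V' ⊆ V` nonempty open the spans over `V'` are contained in `K1`, `K2`, so by
minimality they are equal to them (`Submodule.eq_of_le_of_finrank_le`). If `a ∈ K1` is orthogonal to
`F1 '' V'` then to its span, so to itself. -/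
def S_TGT : Prop := ∀ (n m : ℕ) (U : Set (E n)) (F1 F2 : E n → E m), IsOpen U → U.Nonempty →
  ∃ V : Set (E n), V ⊆ U ∧ IsOpen V ∧ V.Nonempty ∧ ∃ K1 K2 : Submodule ℝ (E m),
    Tight V F1 K1 ∧ Tight V F2 K2 ∧
    K1 ≤ Submodule.span ℝ (F1 '' U) ∧ K2 ≤ Submodule.span ℝ (F2 '' U)

/-- CAS (170 lines), dimension counts. Proof. `N1 = K1 ⊓ K2ᗮ`, `N2 = K2 ⊓ K1ᗮ`, `νi = finrank Ni`,
`r = finrank K1 - ν1 = finrank K2 - ν2` (`rank_symm'`).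
(A) `2 r + ν1 + ν2 ≤ n + 3` (hypothesis).
(B) There is `z ∈ V` with: `X1 z` not orthogonal to `N1` if `N1 ≠ ⊥`, the same for `X2 z`, `N2`
(first an open subset where `⟨a, X1 w⟩ ≠ 0` for some `a ∈ N1`, by `Tight.dense` and continuity, then a
point of it for `N2`). `LD.dims1`, `LD.dims2` at `z`:
`n + ν1 ≤ finrank K1 + (ν1 - δ1) + (ν2 - δ2)`, i.e. `n ≤ r + (ν1 - δ1) + (ν2 - δ2)`, `δi = 1` if
`Ni ≠ ⊥`, otherwise `0`. So `r ≤ 3 - δ1 - δ2`.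
`r = 0`: `K1 ≤ K2ᗮ`, third alternative. `δ1 = δ2 = 1`: `r = 1`, `ν1 + ν2 = n + 1`; let `ξi` be a unit
vector of `Ki ⊓ Niᗮ` (dimension one). `N1` is orthogonal to `K2`, so to `ξ2` and to `N2`, and so on;
`⟨ξ1, ξ2⟩ ≠ 0` because otherwise `ξ1 ∈ N1`; `N1 ⊔ ℝ ξ1 = K1` by dimension: last alternative. Only one
`Ni ≠ ⊥`, e.g. `N2 = ⊥`: `finrank K2 = r ≤ 2`. `N1 = N2 = ⊥`: `finrank Ki = r ≤ 3`, and if `r = 3` then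
`n ≤ 3` by (B) and `6 ≤ n + 3`, so `n = 3`. -/
def S_CAS : Prop := ∀ (n m : ℕ) (V : Set (E n)) (X X1 X2 : E n → E m) (c : E m)
  (l1 l2 N0 : ℝ) (K1 K2 : Submodule ℝ (E m)), LD V X X1 X2 c l1 l2 N0 → V.Nonempty →
  Tight V X1 K1 → Tight V X2 K2 → finrank ℝ K1 + finrank ℝ K2 ≤ n + 3 →
  finrank ℝ K1 ≤ 2 ∨ finrank ℝ K2 ≤ 2 ∨ (∀ a ∈ K1, ∀ b ∈ K2, inner ℝ a b = (0 : ℝ)) ∨
  (n = 3 ∧ finrank ℝ K1 = 3 ∧ finrank ℝ K2 = 3 ∧ K1 ⊓ K2ᗮ = ⊥ ∧ K2 ⊓ K1ᗮ = ⊥) ∨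
  ∃ (N1 N2 : Submodule ℝ (E m)) (ξ1 ξ2 : E m) (ρ : ℝ), Split K1 K2 N1 N2 ξ1 ξ2 ρ ∧
    finrank ℝ N1 + finrank ℝ N2 = n + 1

/-! ### 3. The case of rank one -/

/-- TAN (130 lines), pointwise linear algebra. Proof. `K = {u | fderiv f1 z u = 0 ∧ fderiv f2 z u = 0}`
has dimension `≥ n - 1` because the two functionals are proportional (`SP.par`). On `K`:
`fderiv X z u = fderiv P1 z u + fderiv P2 z u`, with `fderiv P1 z u ∈ N1 ⊓ (P1 z)ᗮ`,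
`fderiv P2 z u ∈ N2 ⊓ (P2 z)ᗮ` (`SP.y1`, `SP.y2`). The map
`u ↦ (fderiv P1 z u, fderiv P2 z u)` from `K` to `(N1 ⊓ (P1 z)ᗮ) × (N2 ⊓ (P2 z)ᗮ)`, a space of
dimension `(ν1 - 1) + (ν2 - 1) = n - 1`, is injective (`fderiv X z` is), so onto. -/
def S_TAN : Prop := ∀ (n m : ℕ) (X P1 P2 : E n → E m) (f1 f2 : E n → ℝ)
  (N1 N2 : Submodule ℝ (E m)) (ξ1 ξ2 : E m) (z : E n), SP X P1 P2 f1 f2 N1 N2 ξ1 ξ2 z →
  ∀ b ∈ N1, inner ℝ b (P1 z) = (0 : ℝ) → ∃ u, fderiv ℝ X z u = b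

/-- GIN (50 lines). Proof. `pd i (sc b X) z = ⟨b, pd i X z⟩ = ∑ j, metric X z i j * u j`, so
`gin X (sc b X) (sc b X) z = uᵀ g g⁻¹ g u = uᵀ g u = |fderiv X z u|² = ⟨b, b⟩` (`metric_quad`,
`inv_mul_metric`). The second part: `f` with the same derivatives as `sc b X` at `z`. -/
def S_GIN : Prop := ∀ (n m : ℕ) (X : E n → E m) (z : E n) (b : E m) (u : E n) (f : E n → ℝ),
  DifferentiableAt ℝ X z → Function.Injective (fderiv ℝ X z) → fderiv ℝ X z u = b →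
  (∀ v, fderiv ℝ f z v = inner ℝ b (fderiv ℝ X z v)) → gin X f f z = inner ℝ b b

/-- TRC (130 lines). Proof. Let `b_0 = P1 z/|P1 z|, b_1, …` be an orthonormal basis of `N1`. Because
`fderiv P1 z u ∈ N1`: `tr X P1 P1 z = ∑_i gin X (sc b_i P1) (sc b_i P1) z` (`pd_sc`, Parseval). For
`i ≥ 1`: `b_i` is orthogonal to `P1 z`, so `b_i = fderiv X z u` for some `u` (`TAN`), and
`⟨b_i, fderiv X z v⟩ = ⟨b_i, fderiv P1 z v⟩` (`SP.dec`, `o`, `o11`, `o21`), so the term is `1` (`GIN`). For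
`i = 0`: `2 |P1 z| pd j (sc b_0 P1) z = pd j |P1|² z`, so the term is
`gin X |P1|² |P1|² z / (4 |P1 z|²)`. (For the basis: apply `stdOrthonormalBasis` to
`N1 ⊓ (P1 z)ᗮ`, of dimension `finrank N1 - 1`, and add `b_0`; or prove
`tr X P1 P1 z = gin(b_0) + ∑ over a basis of N1 ⊓ (P1 z)ᗮ`.) -/
def S_TRC : Prop := ∀ (n m : ℕ) (X P1 P2 : E n → E m) (f1 f2 : E n → ℝ)
  (N1 N2 : Submodule ℝ (E m)) (ξ1 ξ2 : E m) (z : E n), DifferentiableAt ℝ X z →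
  SP X P1 P2 f1 f2 N1 N2 ξ1 ξ2 z →
  4 * inner ℝ (P1 z) (P1 z) * (tr X P1 P1 z - ((finrank ℝ N1 : ℝ) - 1))
    = gin X (fun w => (inner ℝ (P1 w) (P1 w) : ℝ)) (fun w => (inner ℝ (P1 w) (P1 w) : ℝ)) z

def M_TRC : Prop := S_TAN → S_GIN → S_TRC

/-- ALA (60 lines), pure algebra (`linear_combination`). `D = l1 - l2`, `g = φ + ρ ψ`, `z = ρ φ ψ`.
`(d')  l2 t φ1 (Q + g²) = ρ l1 Q (c1 - t) ψ1` : `hd` times `ρ ψ1` with `hb`, divided by `l1`.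
`(S)   l2 t φ1 g (e1 - D t) = Q (l2 t ρ ψ φ1 + l1 (c1 - t) ρ φ ψ1)`, `e1 = l1 (a + c1)`:
`φ (d') + l2 t φ1 Q ρ ψ` and `Q + φ g = e1 - D t`.
The last hypothesis is the derivative of `(d')`; times `G`, with the equations for `G φ2`, `G ψ2`,
`ρ G φ1 ψ1` (the terms with `z` cancel by `(d')`), times `φ1`, with the equation of `φ1² G`, divided by
`l1 l2`: `l1 Q c1 - t φ φ1 (Q + g²) + Q (c1 - t) ρ ψ φ1 + 2 t g φ1 (l2 t + l1 (c1 - t)) = 0`; times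
`l2`, with `(d')` and `l2 t + l1 (c1 - t) = (e1 - D t) - l1 a` and `(S)`:
`(E)  Q (2 l2 t ρψφ1 + (c1 - t) (l1 l2 + l1 ρφψ1 + l2 ρψφ1) + l1 l2 t) = 2 l1 l2 a t g φ1`;
times `e1 - D t`, `(S)`, and cancel `Q`. -/
def S_ALA : Prop := ∀ l1 l2 a c1 ρ t φ ψ φ1 ψ1 φ2 ψ2 G Q : ℝ, l1 ≠ 0 → l2 ≠ 0 → Q ≠ 0 →
  ρ * (G * φ1 * ψ1) = l1 * l2 * t →
  G * φ2 = ρ * (φ * ψ) * φ1 - l1 * φ → G * ψ2 = ρ * (φ * ψ) * ψ1 - l2 * ψ →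
  Q = l1 * (a + c1) - (l1 - l2) * t - φ * (φ + ρ * ψ) →
  (Q + (φ + ρ * ψ) ^ 2) * φ1 ^ 2 * G = l1 ^ 2 * Q * (c1 - t) →
  l2 * φ1 * (Q + (φ + ρ * ψ) ^ 2) + l2 * t * φ2 * (Q + (φ + ρ * ψ) ^ 2)
    + l2 * t * φ1 * (2 * (φ + ρ * ψ) * (ρ * ψ1))
    + 2 * l1 * ρ * (φ + ρ * ψ) * φ1 * (c1 - t) * ψ1 + l1 * ρ * Q * ψ1
    - l1 * ρ * Q * (c1 - t) * ψ2 = 0 →
  (l1 * (a + c1) - (l1 - l2) * t) * (2 * l2 * t * (ρ * (ψ * φ1))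
      + (c1 - t) * (l1 * l2 + l1 * (ρ * (φ * ψ1)) + l2 * (ρ * (ψ * φ1))) + l1 * l2 * t)
    = 2 * l1 * a * (l2 * t * (ρ * (ψ * φ1)) + l1 * (c1 - t) * (ρ * (φ * ψ1)))

/-- ALB (40 lines), pure algebra. With `p = q + D` the two equations are `A1 q + B1 = 0`,
`A2 q + B2 = 0`, so `A1 B2 - A2 B1 = 0`, which is `l2` times
`3 l1 D³ t³ + k2 t² + k1 t + k0` (`c2 = 1 - c1`); the `ki` by collecting the coefficients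
(`ring_nf`, or evaluate). Here
`A1 = (e1 - D t) (s c1 - D t) - 2 l1 a (l1 c1 - D t)`,
`B1 = l2 ((e1 - D t) (D t + c1 (2 l1 - l2)) - 2 l1 a D t)`,
`A2 = (e2 + D t) (s c2 + D t) - 2 l2 b (l2 c2 + D t)`,
`B2 = l2 ((e2 + D t) (c2 (2 l1 - l2) - D t) - 2 l2 b D (c2 - t))`, `s = l1 + l2`,
`e1 = l1 (a + c1)`, `e2 = l2 (b + c2)`. -/
def S_ALB : Prop := ∀ l1 l2 a b c1 c2 : ℝ, c1 + c2 = 1 → ∃ k0 k1 k2 : ℝ, ∀ t p q : ℝ,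
  p = q + (l1 - l2) →
  (l1 * (a + c1) - (l1 - l2) * t) * (2 * l2 * t * p + (c1 - t) * (l1 * l2 + l1 * q + l2 * p)
      + l1 * l2 * t) = 2 * l1 * a * (l2 * t * p + l1 * (c1 - t) * q) →
  (l2 * (b + c2) - (l2 - l1) * t) * (2 * l1 * t * q + (c2 - t) * (l2 * l1 + l2 * p + l1 * q)
      + l2 * l1 * t) = 2 * l2 * b * (l1 * t * q + l2 * (c2 - t) * p) →
  3 * l1 * l2 * (l1 - l2) ^ 3 * t ^ 3 + k2 * t ^ 2 + k1 * t + k0 = 0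

/-- POL (40 lines). Proof. Apply `der κ t` three times to the equation (`der_congr_on`,
`der_const`, `der_self`, `der_add`, `der_mul`): `6 A = 0`. -/
def S_POL : Prop := ∀ (n : ℕ) (V : Set (E n)) (κ : Fin n) (t : E n → ℝ) (A k2 k1 k0 : ℝ),
  IsOpen V → V.Nonempty → SV V t → (∀ z ∈ V, pd κ t z ≠ 0) →
  (∀ z ∈ V, A * t z ^ 3 + k2 * t z ^ 2 + k1 * t z + k0 = 0) → A = 0

/-- QDF (180 lines). Proof. `φ1 = der κ t φ`, `φ2 = der κ t φ1`, `ψ1`, `ψ2`, `G = gin X t t` (`> 0`: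
`gin_pos`). From `g4` with `j = κ`: `l1 - l2 = ρ (ψ φ1 - φ ψ1)`. `gin X φ ψ = φ1 ψ1 G` and
`gin X φ φ = φ1² G` (`Dep`), `gin X Q1 Q1 = 4 (φ + ρ ψ)² φ1² G` (`dQ1`). `lap_dep` for `φ`:
`l1 φ = φ1 (ρ φ ψ) - φ2 G`, the same for `ψ`. `tr1`: `(Q1 + g²) φ1² G = l1² Q1 (c1 - t)`,
`g = φ + ρ ψ`. The function `F = l2 t φ1 (Q1 + g²) - l1 ρ Q1 (c1 - t) ψ1` vanishes on `V` (`tr1` times
`ρ ψ1` and `gt`, cancel `l1`); `der κ t F = 0` with `der κ t Q1 = - 2 g φ1` is the hypothesis of `ALA`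
(the last one). So `ALA` for `(l1, l2, a, c1, ρ, φ, ψ, Q1)`, and in the same way for
`(l2, l1, b, c2, ρ, ψ, φ, Q2)`. Then `ALB` with `p = ρ ψ φ1`, `q = ρ φ ψ1` and `POL`. -/
def S_QDF : Prop := ∀ (n m : ℕ) (V : Set (E n)) (X : E n → E m) (κ : Fin n)
  (t φ ψ Q1 Q2 : E n → ℝ) (l1 l2 a b c1 c2 ρ : ℝ), V.Nonempty →
  ¬QD V X κ t φ ψ Q1 Q2 l1 l2 a b c1 c2 ρ

def M_QDF : Prop := S_ALA → S_ALB → S_POL → S_QDF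

/-- SPP (150 lines), the pointwise data. Proof. `P1 w = pr N1 (X1 w)`, `f1 w = ⟨ξ1, X1 w⟩`,
`f2 w = ⟨ξ2, X2 w⟩`. On `V`: `X1 = P1 + f1 ξ1`, `X2 = P2 + f2 ξ2` (`Split.k1`: `X1 w = a + s ξ1`,
`a ∈ N1`, `pr N1` and the product with `ξ1` by orthogonality), so the same for the derivatives
(`fderiv` of `pr N1 ∘ X1` is `pr N1 (fderiv X1 ·)`). (3): `⟨P1 + .., P2 + ..⟩`, orthogonality; `par`:
(3), `LD.iso_vec` and `ρ ≠ 0`. (2), `y1`: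
`0 = ⟨y, fderiv X1 z u⟩ = l1 ⟨P1, fderiv P1 z u⟩ + (l1 f1 + l2 ρ f2) fderiv f1 z u`
(`LD.inner_y_D1`). -/
def S_SPP : Prop := ∀ (n m : ℕ) (V : Set (E n)) (X X1 X2 : E n → E m) (c : E m)
  (l1 l2 N0 : ℝ) (K1 K2 N1 N2 : Submodule ℝ (E m)) (ξ1 ξ2 : E m) (ρ : ℝ),
  LD V X X1 X2 c l1 l2 N0 → (∀ w ∈ V, X1 w ∈ K1) → (∀ w ∈ V, X2 w ∈ K2) →
  Split K1 K2 N1 N2 ξ1 ξ2 ρ → finrank ℝ N1 + finrank ℝ N2 = n + 1 →
  (∀ w ∈ V, X1 w = pr N1 (X1 w) + (inner ℝ ξ1 (X1 w) : ℝ) • ξ1) ∧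
  (∀ z ∈ V, ∀ u, l1 * inner ℝ (pr N1 (X1 z)) (fderiv ℝ (fun w => pr N1 (X1 w)) z u)
    = - (l1 * inner ℝ ξ1 (X1 z) + ρ * (l2 * inner ℝ ξ2 (X2 z))) * fderiv ℝ (sc ξ1 X1) z u) ∧
  (∀ z ∈ V, ∀ u v, ρ * (fderiv ℝ (sc ξ1 X1) z u * fderiv ℝ (sc ξ2 X2) z v)
    = inner ℝ (fderiv ℝ X1 z u) (fderiv ℝ X2 z v)) ∧
  ∀ z ∈ V, pr N1 (X1 z) ≠ 0 → pr N2 (X2 z) ≠ 0 →
    SP X (fun w => pr N1 (X1 w)) (fun w => pr N2 (X2 w)) (sc ξ1 X1) (sc ξ2 X2) N1 N2 ξ1 ξ2 z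

/-- ONE (220 lines). Proof. There is a nonempty open `V' ⊆ V` on which `P1 = pr N1 (X1 ·)` and
`P2 = pr N2 (X2 ·)` do not vanish (`Tight.dense` with a nonzero `a ∈ N1`, then `b ∈ N2`; openness by
continuity). There `QD V' X κ (tt X X1 X2) φ ψ Q1 Q2 l1 l2 a b c1 c2 ρ` with `φ = l1 (sc ξ1 X1)`,
`ψ = l2 (sc ξ2 X2)`, `Q1 = l1² |P1|²`, `Q2 = l2² |P2|²`, `a = finrank N1 - 1`,
`b = finrank N2 - 1`, `c1 = CC n l1 l2 N0 - a`, `c2 = CC n l2 l1 N0 - b` (`CC_add`). Fields: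
`lt`: `GIB`, `zz = ρ φ ψ` by `SPP` (1) and orthogonality; `lφ`: `lap_sc`; `g4`: `GIB` and
`⟨X2, pd j X1⟩ = ρ f2 pd j f1`; `gt`: `tt = tr X X1 X2 = ρ gin X f1 f2` by `SPP` (3); `dQ1`: `SPP` (2);
`eQ1`: `GIA`; `tr1`: `TRC` and `tr X X1 X1 = tr X P1 P1 + gin X f1 f1`, `GIA`. `dφ`, `dψ`
(`Dep V' κ tt φ`): `pd i φ pd j ψ = pd j φ pd i ψ` (`SP.par`), so by `g4`
`pd i φ pd j tt = pd j φ pd i tt`, and divide by `pd κ tt`. The statements with 1 and 2 exchanged follow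
from those for `h.symm` (`tt_comm`, `zz_comm`, `Split.symm`, `SP.symm`). -/
def S_ONE : Prop := ∀ (n m : ℕ) (V : Set (E n)) (X X1 X2 : E n → E m) (c : E m)
  (l1 l2 N0 : ℝ) (K1 K2 N1 N2 : Submodule ℝ (E m)) (ξ1 ξ2 : E m) (ρ : ℝ) (κ : Fin n),
  LD V X X1 X2 c l1 l2 N0 → V.Nonempty → Tight V X1 K1 → Tight V X2 K2 →
  Split K1 K2 N1 N2 ξ1 ξ2 ρ → finrank ℝ N1 + finrank ℝ N2 = n + 1 →
  ¬∀ w ∈ V, pd κ (tt X X1 X2) w ≠ 0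

def M_ONE : Prop := S_GIA → S_GIB → S_TRC → S_QDF → S_SPP → S_ONE

/-! ### 4. The case `n = 3`, both spans of dimension three -/

/-- CRK (150 lines). Proof. (1) `{w ∈ V | tt w ≠ 0}` meets every nonempty open subset of `V` (otherwise
`pd κ tt = 0` somewhere). (2) So does `{pr K1 (y w) ≠ 0}`: if `pr K1 y = 0` on a nonempty open set, then
`0 = l1 ⟨X1, y⟩ = l1² |X1|² + zz = l1 CC - D tt` there (`GIA`), so `tt` is constant there; and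
`{pr K2 (y w) ≠ 0}` (use `h.symm`). So there is a nonempty open `V'` where the three functions do not
vanish. There `range (fderiv X1 w) ≤ K1 ⊓ yᗮ` has dimension `≤ 2`, also for `X2`. Let
`B(u,v) = ⟨fderiv X1 w u, fderiv X2 w v⟩`, symmetric (`LD.iso_vec`); if `fderiv X1 w u = 0` then
`B(u, ·) = B(·, u) = 0`, also if `fderiv X2 w u = 0`. The kernels meet in `0`, each has dimension
`≥ 1`. If one has dimension `≥ 2` their sum is everything and `B = 0`, so `tt w = 0` (`tt` is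
`∑ g^{ij} B(∂i, ∂j)`), a contradiction. -/
def S_CRK : Prop := ∀ (m : ℕ) (V : Set (E 3)) (X X1 X2 : E 3 → E m) (c : E m)
  (l1 l2 N0 : ℝ) (K1 K2 : Submodule ℝ (E m)) (κ : Fin 3), LD V X X1 X2 c l1 l2 N0 → V.Nonempty →
  (∀ w ∈ V, X1 w ∈ K1) → (∀ w ∈ V, X2 w ∈ K2) → finrank ℝ K1 = 3 → finrank ℝ K2 = 3 →
  (∀ w ∈ V, pd κ (tt X X1 X2) w ≠ 0) →
  ∃ V' : Set (E 3), V' ⊆ V ∧ IsOpen V' ∧ V'.Nonempty ∧ ∀ w ∈ V', tt X X1 X2 w ≠ 0 ∧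
    finrank ℝ (LinearMap.range (fderiv ℝ X1 w : E 3 →ₗ[ℝ] E m)) = 2 ∧
    finrank ℝ (LinearMap.range (fderiv ℝ X2 w : E 3 →ₗ[ℝ] E m)) = 2

def M_CRK : Prop := S_GIA → S_GIB → S_CRK

/-- CVF (120 lines), a local section of the kernel. Proof. At a point `w0 ∈ V` the rank is two, so there
are `b, b'` with the two covectors `⟨b, pd i F w0⟩`, `⟨b', pd i F w0⟩` (`i : Fin 3`) linearly
independent (e.g. by contradiction: all of them proportional to one; or `b, b'` in the range and an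
injectivity argument). `u w` = the cross product of the two covectors at `w`, smooth, `≠ 0` near `w0`.
Near `w0`: for every `b''` the covector `⟨b'', pd i F w⟩` is a combination of the two (the space of
these covectors has dimension `2` = the rank of the transpose), so `⟨b'', fderiv F w (u w)⟩ = 0`. -/
def S_CVF : Prop := ∀ (m : ℕ) (V : Set (E 3)) (F : E 3 → E m), IsOpen V → V.Nonempty →
  (∀ w ∈ V, ContDiffAt ℝ ∞ F w) →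
  (∀ w ∈ V, finrank ℝ (LinearMap.range (fderiv ℝ F w : E 3 →ₗ[ℝ] E m)) = 2) →
  ∃ V' : Set (E 3), V' ⊆ V ∧ IsOpen V' ∧ V'.Nonempty ∧ ∃ u : E 3 → E 3,
    ∀ w ∈ V', ContDiffAt ℝ ∞ u w ∧ u w ≠ 0 ∧ fderiv ℝ F w (u w) = 0

/-- CFR (90 lines). Proof. `u` from `CVF` for `X2`, `v` from `CVF` for `X1` (on a smaller set).
`⟨dX u, dX v⟩ = ⟨dX1 u, dX2 v⟩ = ⟨dX1 v, dX2 u⟩ = 0` (`LD.fderivX`, `LD.iso_vec`). `e w` = cross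
product of the covectors `⟨pd i X w, fderiv X w (u w)⟩` and `⟨pd i X w, fderiv X w (v w)⟩`; it is smooth
and orthogonal to `u` and `v`: `⟨fderiv X w (e w), fderiv X w (u w)⟩ = ∑ e_i ⟨pd i X w, ..⟩ = 0`; not
zero because the covectors are independent (`u`, `v` are, being orthogonal and nonzero, and the
metric is nondegenerate). -/
def S_CFR : Prop := ∀ (m : ℕ) (V : Set (E 3)) (X X1 X2 : E 3 → E m) (c : E m)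
  (l1 l2 N0 : ℝ), LD V X X1 X2 c l1 l2 N0 → V.Nonempty →
  (∀ w ∈ V, finrank ℝ (LinearMap.range (fderiv ℝ X1 w : E 3 →ₗ[ℝ] E m)) = 2 ∧
    finrank ℝ (LinearMap.range (fderiv ℝ X2 w : E 3 →ₗ[ℝ] E m)) = 2) →
  ∃ V' : Set (E 3), V' ⊆ V ∧ IsOpen V' ∧ V'.Nonempty ∧ ∃ u v e : E 3 → E 3,
    Frame V' X X1 X2 u v e

def M_CFR : Prop := S_CVF → S_CFR

/-- TRB (80 lines), trace in an orthogonal basis. Proof. Let `B` be the matrix with columns `b i`; then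
`Bᵀ g B = diag(ε i)`, `ε i = |fderiv X z (b i)|² ≠ 0`, so `g⁻¹ = B diag(1/ε) Bᵀ`, i.e.
`g^{kl} = ∑ i, (b i)_k (b i)_l / ε i`. Insert this in `tr` and use `fderiv_eq_sum`. -/
def S_TRB : Prop := ∀ (n m : ℕ) (X F G : E n → E m) (z : E n) (b : Fin n → E n),
  Function.Injective (fderiv ℝ X z) → (∀ i, b i ≠ 0) →
  (∀ i j, i ≠ j → inner ℝ (fderiv ℝ X z (b i)) (fderiv ℝ X z (b j)) = (0 : ℝ)) →
  tr X F G z = ∑ i, inner ℝ (fderiv ℝ F z (b i)) (fderiv ℝ G z (b i))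
    / inner ℝ (fderiv ℝ X z (b i)) (fderiv ℝ X z (b i))

/-- CFO (230 lines). Put `μ = CC 3 l2 l1 N0 - 1`, `α w = fderiv X1 w (u w)`, for a vector field `p` write
`p(F)(w) = fderiv F w (p w)`; `ε = |e(X)|²`, `E2 = |e(X2)|²`, `β = ⟨e(X1), e(X2)⟩`.
(0) `u(X2) = 0`, `v(X1) = 0`, `⟨e(X1), u(X1)⟩ = 0`, `⟨e(X2), v(X2)⟩ = 0`, and
`⟨p(X1), q(X2)⟩ = 0` if `p` or `q` is `u` or `v` (`LD.iso_vec`, `Frame`, `LD.fderivX`).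
(1) `TRB` with `(u, v, e)`: `tt = β/ε`, `tr X X2 X2 = 1 + E2/ε`, so by `GIA` (for `h.symm`)
`E2 = (μ - tt) ε`, `β = tt ε`.
(2) The commutator `[u, e] = ρ e + ρ' u + ρ'' v` (a basis at every point), where
`u(e(F)) - e(u(F)) = [u, e](F)` for smooth `F` (`VectorField.lieBracket`, or directly with
`pd_comm`). With `F = X2`: `u(e(X2)) = ρ e(X2) + ρ'' v(X2)`, so `u(E2) = 2 ρ E2` and
`⟨u(e(X2)), e(X1)⟩ = ρ β`. So `⟨e(X2), u(e(X1))⟩ = u(β) - ρ β`.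
(3) `l2 ⟨X2, α⟩ = ⟨lap X X2, α⟩ = ∑ g^{ij} ⟨pd i α, pd j X2⟩ = tr X α X2` because `α` is orthogonal to all
`pd j X2` on `V` (as in `trace_F`). By `TRB` this is
`⟨v(α), v(X2)⟩/|v(X)|² + ⟨e(α), e(X2)⟩/ε`. `v(α) = v(u(X1)) = u(v(X1)) + [v,u](X1) = [v,u](X1)`, so
`⟨v(α), v(X2)⟩ = ⟨[v,u](X1), v(X2)⟩ = 0` by (0). `e(α) = u(e(X1)) + [e,u](X1)`, and
`⟨[e,u](X1), e(X2)⟩ = - ρ β`. So `ε l2 ⟨X2, α⟩ = u(β) - 2 ρ β`.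
(4) With `u(ε) - 2 ρ ε =: θ`: `(μ - t) θ = u(t) ε` (from `u(E2) = 2 ρ E2`) and
`ε l2 ⟨X2, α⟩ = u(t) ε + t θ`. So `(μ - t) ε l2 ⟨X2, α⟩ = μ u(t) ε`. Cancel `ε`. -/
def S_CFO : Prop := ∀ (m : ℕ) (V : Set (E 3)) (X X1 X2 : E 3 → E m) (c : E m)
  (l1 l2 N0 : ℝ) (u v e : E 3 → E 3), LD V X X1 X2 c l1 l2 N0 → Frame V X X1 X2 u v e →
  ∀ z ∈ V, (CC 3 l2 l1 N0 - 1 - tt X X1 X2 z) * (l2 * inner ℝ (X2 z) (fderiv ℝ X1 z (u z)))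
    = (CC 3 l2 l1 N0 - 1) * fderiv ℝ (tt X X1 X2) z (u z)

def M_CFO : Prop := S_GIA → S_GIB → S_TRB → S_CFO

/-- CFI (130 lines). Proof. `α w = fderiv X1 w (u w) ≠ 0` (`fderiv X w (u w) ≠ 0`). For every `j`:
`⟨α, pd j X2⟩ = 0` on `V` (`LD.iso_vec`). Derivative in the direction `u`:
`⟨u(α), pd j X2⟩ = - ⟨α, u(pd j X2)⟩`, and `u(pd j X2) = ∑ i, u_i pd i (pd j X2)`
`= pd j (fderiv X2 · (u ·)) - ∑ i, (pd j u)_i pd i X2 = - ∑ i, (pd j u)_i pd i X2`, orthogonal to `α`.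
So `u(α)` and `α` are in `K1 ⊓ (range (fderiv X2 z))ᗮ` (`fderiv_mem`), of dimension one:
`rank_symm' K1 R`, `R` the range, of dimension `2`, `R ⊓ K1ᗮ ≤ K2 ⊓ K1ᗮ = ⊥`. So
`u(α) = s α`. The derivative of `⟨X1, α⟩ = 0` in the direction `u`:
`0 = ⟨α, α⟩ + ⟨X1, u(α)⟩ = ⟨α, α⟩`, a contradiction. -/
def S_CFI : Prop := ∀ (m : ℕ) (V : Set (E 3)) (X X1 X2 : E 3 → E m) (c : E m)
  (l1 l2 N0 : ℝ) (K1 K2 : Submodule ℝ (E m)) (u : E 3 → E 3), LD V X X1 X2 c l1 l2 N0 →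
  V.Nonempty → (∀ w ∈ V, X1 w ∈ K1) → (∀ w ∈ V, X2 w ∈ K2) → finrank ℝ K1 = 3 →
  K2 ⊓ K1ᗮ = ⊥ →
  (∀ w ∈ V, finrank ℝ (LinearMap.range (fderiv ℝ X2 w : E 3 →ₗ[ℝ] E m)) = 2) →
  (∀ w ∈ V, ContDiffAt ℝ ∞ u w ∧ u w ≠ 0 ∧ fderiv ℝ X2 w (u w) = 0) →
  ¬∀ w ∈ V, inner ℝ (X1 w) (fderiv ℝ X1 w (u w)) = (0 : ℝ)

/-- CCC (80 lines). Proof. Suppose `pd κ tt ≠ 0` on `V`. `V'` from `CRK`, `V''` and the frame from
`CFR`. By `GIB` (linear combination over `j`) `D u(tt) = l1 l2 (⟨X2, α⟩ - ⟨X1, fderiv X2 w (u w)⟩)`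
`= l1 l2 ⟨X2, α⟩`, `α = fderiv X1 w (u w)`. With `CFO`, `μ = CC 3 l2 l1 N0 - 1`:
`u(tt) (D (μ - tt) - l1 μ) = 0`. If `u(tt) ≠ 0` at a point, then near this point
`D tt = D μ - l1 μ`, so `tt` is constant near this point, against `pd κ tt ≠ 0`. So `u(tt) = 0` and
`⟨X2, α⟩ = 0` on `V''`, so `⟨X1, α⟩ = 0` (`LD.inner_y_D1`). Contradiction to `CFI`. -/
def S_CCC : Prop := ∀ (m : ℕ) (V : Set (E 3)) (X X1 X2 : E 3 → E m) (c : E m)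
  (l1 l2 N0 : ℝ) (K1 K2 : Submodule ℝ (E m)) (κ : Fin 3), LD V X X1 X2 c l1 l2 N0 → V.Nonempty →
  (∀ w ∈ V, X1 w ∈ K1) → (∀ w ∈ V, X2 w ∈ K2) → finrank ℝ K1 = 3 → finrank ℝ K2 = 3 →
  K1 ⊓ K2ᗮ = ⊥ → K2 ⊓ K1ᗮ = ⊥ → ¬∀ w ∈ V, pd κ (tt X X1 X2) w ≠ 0

def M_CCC : Prop := S_GIB → S_CRK → S_CFR → S_CFO → S_CFI → S_CCC

/-! ### 5. The local theorem -/

/-- SIX (architect). Proof. If `pd j (rr X c) z ≠ 0`, let `U' = {w ∈ U | pd j (rr X c) w ≠ 0}`. By `GIT`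
some `pd κ tt` does not vanish identically on `U'`, so `U'' = {w ∈ U' | pd κ tt w ≠ 0}` is open and not
empty. `V ⊆ U''` from `TGT`, then `CAS`: planar: `rad_const` contradicts `pd j (rr X c) ≠ 0`; third
alternative: `tt = 0` on `V`; fourth: `CCC`; fifth: `ONE`. -/
def S_SIX : Prop := ∀ (n m : ℕ) (U : Set (E n)) (X X1 X2 : E n → E m) (c : E m)
  (l1 l2 N0 : ℝ) (E1 E2 : Submodule ℝ (E m)), LD U X X1 X2 c l1 l2 N0 →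
  (∀ w ∈ U, X1 w ∈ E1) → (∀ w ∈ U, X2 w ∈ E2) →
  finrank ℝ E1 + finrank ℝ E2 ≤ n + 3 → ∀ z ∈ U, ∀ j, pd j (rr X c) z = 0

end Pool.Agent.CMX
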